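import Pool.Agent.E8helper29.Zn.Stm

/-!
Project ZN, piece 7: the norm as a mixture of `|⟨·,u⟩|` over unit vectors, with moments.
-/

set_option autoImplicit false

namespace Pool.Agent.E8helper29.Zn

open MeasureTheory ProbabilityTheory Pool.Agent.Helper649.Zono
open scoped RealInnerProductSpace Nat NNReal

/-- the moments of a standard normal variable -/
noncomputable def mm (r : ℕ) : ℝ := ∫ x, x ^ (2 * r) ∂(gaussianReal 0 1)

lemma mm_nonneg (r : ℕ) : 0 ≤ mm r :=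
  integral_nonneg fun x => by
    show 0 ≤ x ^ (2 * r)
    rw [pow_mul]; positivity

lemma p7_int_norm_pow (n k : ℕ) : Integrable (fun g : E n => ‖g‖ ^ k) (stdGaussian (E n)) := by
  have h := IsGaussian.memLp_id (stdGaussian (E n)) (k : ENNReal) (by simp)
  simpa using h.integrable_norm_pow'

lemma p7_radial {n : ℕ} (F : ℝ → ℝ → ℝ) (y z : E n) (h : ‖y‖ = ‖z‖) :
    ∫ g, F ⟪y, g⟫ ‖g‖ ∂(stdGaussian (E n)) = ∫ g, F ⟪z, g⟫ ‖g‖ ∂(stdGaussian (E n)) := by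
  obtain ⟨T, hTy⟩ : ∃ T : E n ≃ₗᵢ[ℝ] E n, T y = z :=
    ⟨(Submodule.span ℝ {y - z})ᗮ.reflection, Submodule.reflection_sub h⟩
  have hmap : (stdGaussian (E n)).map T = stdGaussian (E n) := stdGaussian_map T
  have h1 := integral_map_equiv (μ := stdGaussian (E n))
    T.toHomeomorph.toMeasurableEquiv (fun g => F ⟪z, g⟫ ‖g‖)
  have h2 : (⇑T.toHomeomorph.toMeasurableEquiv : E n → E n) = ⇑T := rfl
  rw [h2, hmap] at h1
  rw [h1]
  apply integral_congr_ae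
  filter_upwards with g
  rw [T.norm_map, ← hTy, T.inner_map_map]

lemma p7_inner_mom {n : ℕ} (r : ℕ) (y : E n) :
    ∫ g, ⟪y, g⟫ ^ (2 * r) ∂(stdGaussian (E n)) = mm r * ‖y‖ ^ (2 * r) := by
  have hm : Measurable (fun g : E n => (⟪y, g⟫ : ℝ)) := by fun_prop
  have hp : Measurable (fun x : ℝ => x ^ (2 * r)) := by fun_prop
  have h1 : ∫ g, ⟪y, g⟫ ^ (2 * r) ∂(stdGaussian (E n))
      = ∫ x, x ^ (2 * r) ∂(gaussianReal 0 (‖y‖₊ ^ 2)) := by
    rw [← map_inner y, integral_map hm.aemeasurable hp.aestronglyMeasurable]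
  have h2 : gaussianReal 0 (‖y‖₊ ^ 2) = (gaussianReal 0 1).map (fun x => ‖y‖ * x) := by
    have h3 := gaussianReal_map_const_mul (μ := 0) (v := 1) ‖y‖
    rw [h3]
    congr 1
    · simp
    · ext
      simp
  rw [h1, h2, integral_map (by fun_prop) hp.aestronglyMeasurable]
  simp only [mul_pow]
  rw [integral_const_mul, mm, mul_comm]

lemma p7_coord {n : ℕ} (i : Fin n) (g : E n) :
    (⟪EuclideanSpace.single i (1 : ℝ), g⟫ : ℝ) = g i := by
  rw [EuclideanSpace.inner_single_left]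
  simp

lemma p7_norm_sq {n : ℕ} (g : E n) :
    ‖g‖ ^ 2 = ∑ i, (⟪EuclideanSpace.single i (1 : ℝ), g⟫ : ℝ) ^ 2 := by
  rw [EuclideanSpace.norm_sq_eq]
  refine Finset.sum_congr rfl fun i _ => ?_
  rw [Real.norm_eq_abs, sq_abs, p7_coord]

/-- domination by powers of the norm -/
lemma p7_int_dom {n : ℕ} (f : E n → ℝ) (hf : Measurable f) (A : ℝ) (k : ℕ)
    (h : ∀ g, |f g| ≤ A * ‖g‖ ^ k) : Integrable f (stdGaussian (E n)) := by
  refine ((p7_int_norm_pow n k).const_mul A).mono' hf.aestronglyMeasurable ?_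
  filter_upwards with g
  rw [Real.norm_eq_abs]
  exact h g

lemma p7_abs_inner {n : ℕ} (y g : E n) (p : ℕ) : |(⟪y, g⟫ : ℝ)| ^ p ≤ ‖y‖ ^ p * ‖g‖ ^ p := by
  rw [← mul_pow]
  exact pow_le_pow_left₀ (abs_nonneg _) (abs_real_inner_le_norm y g) p

lemma p7_int_mul {n : ℕ} (y : E n) (p k : ℕ) :
    Integrable (fun g : E n => |(⟪y, g⟫ : ℝ)| ^ p * ‖g‖ ^ k) (stdGaussian (E n)) := by
  refine p7_int_dom _ (by fun_prop) (‖y‖ ^ p) (p + k) fun g => ?_
  rw [abs_of_nonneg (by positivity), pow_add, ← mul_assoc]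
  exact mul_le_mul_of_nonneg_right (p7_abs_inner y g p) (by positivity)

lemma p7_int_inner {n : ℕ} (y : E n) (p : ℕ) :
    Integrable (fun g : E n => |(⟪y, g⟫ : ℝ)| ^ p) (stdGaussian (E n)) := by
  simpa using p7_int_mul y p 0

lemma p7_even {x : ℝ} (r : ℕ) : |x| ^ (2 * r) = x ^ (2 * r) := by
  rw [pow_mul, pow_mul, sq_abs]

/-- upper bound for the moments of the norm -/
lemma p7_mom_up (n r : ℕ) :
    ∫ g, ‖g‖ ^ (2 * r) ∂(stdGaussian (E n)) ≤ mm r * (n : ℝ) ^ r := by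
  rcases r with _ | r
  · simp [mm]
  · have h1 : ∀ g : E n, ‖g‖ ^ (2 * (r + 1)) ≤
        (n : ℝ) ^ r * ∑ i, |(⟪EuclideanSpace.single i (1 : ℝ), g⟫ : ℝ)| ^ (2 * (r + 1)) := by
      intro g
      rw [pow_mul, p7_norm_sq]
      have h2 := pow_sum_le_card_mul_sum_pow (s := (Finset.univ : Finset (Fin n)))
        (f := fun i => (⟪EuclideanSpace.single i (1 : ℝ), g⟫ : ℝ) ^ 2) (fun i _ => sq_nonneg _) r
      rw [Finset.card_univ, Fintype.card_fin] at h2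
      refine h2.trans (le_of_eq ?_)
      congr 1
      refine Finset.sum_congr rfl fun i _ => ?_
      rw [p7_even, pow_mul]
    calc ∫ g, ‖g‖ ^ (2 * (r + 1)) ∂(stdGaussian (E n))
        ≤ ∫ g, (n : ℝ) ^ r * ∑ i, |(⟪EuclideanSpace.single i (1 : ℝ), g⟫ : ℝ)| ^ (2 * (r + 1))
            ∂(stdGaussian (E n)) := by
          refine integral_mono (p7_int_norm_pow n _) ?_ h1
          exact (integrable_finsetSum _ fun i _ => p7_int_inner _ _).const_mul _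
      _ = mm (r + 1) * (n : ℝ) ^ (r + 1) := by
          rw [integral_const_mul, integral_finsetSum _ fun i _ => p7_int_inner _ _]
          simp only [p7_even]
          simp only [p7_inner_mom]
          simp
          ring

/-- Jensen -/
lemma p7_mom_low (n r : ℕ) (hn : 1 ≤ n) :
    (n : ℝ) ^ r ≤ ∫ g, ‖g‖ ^ (2 * r) ∂(stdGaussian (E n)) := by
  have hn0 : (0 : ℝ) < n := by exact_mod_cast hn
  have h1 : ∀ g : E n, (n : ℝ) ^ r * (1 + (r : ℝ) * (‖g‖ ^ 2 / n - 1)) ≤ ‖g‖ ^ (2 * r) := by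
    intro g
    have h2 := one_add_mul_le_pow (a := ‖g‖ ^ 2 / n - 1) (by
      have : 0 ≤ ‖g‖ ^ 2 / n := by positivity
      linarith) r
    have h3 : ‖g‖ ^ (2 * r) = (n : ℝ) ^ r * (1 + (‖g‖ ^ 2 / n - 1)) ^ r := by
      rw [pow_mul, ← mul_pow]
      congr 1
      field_simp
      ring
    rw [h3]
    exact mul_le_mul_of_nonneg_left h2 (by positivity)
  have hi : Integrable (fun g : E n => ‖g‖ ^ 2) (stdGaussian (E n)) := p7_int_norm_pow n 2
  have hi1 : Integrable (fun g : E n => ‖g‖ ^ 2 / n) (stdGaussian (E n)) := hi.div_const _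
  have hi2 : Integrable (fun g : E n => ‖g‖ ^ 2 / n - 1) (stdGaussian (E n)) :=
    hi1.sub (integrable_const _)
  have hi3 : Integrable (fun g : E n => (r : ℝ) * (‖g‖ ^ 2 / n - 1)) (stdGaussian (E n)) :=
    hi2.const_mul _
  have hi4 : Integrable (fun g : E n => 1 + (r : ℝ) * (‖g‖ ^ 2 / n - 1)) (stdGaussian (E n)) :=
    (integrable_const _).add hi3
  have h4 : ∫ g, (n : ℝ) ^ r * (1 + (r : ℝ) * (‖g‖ ^ 2 / n - 1)) ∂(stdGaussian (E n))
      = (n : ℝ) ^ r := by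
    rw [integral_const_mul, integral_add (integrable_const _) hi3, integral_const_mul,
      integral_sub hi1 (integrable_const _), integral_div, norm_sq_int]
    simp
    rw [div_self hn0.ne']
    simp
  rw [← h4]
  exact integral_mono (hi4.const_mul _) (p7_int_norm_pow n _) h1

/-- the second moment with weight -/
lemma p7_sq_low (n q : ℕ) (hn : 1 ≤ n) (e : E n) (he : ‖e‖ = 1) :
    (n : ℝ) ^ q ≤ ∫ g, |(⟪e, g⟫ : ℝ)| ^ 2 * ‖g‖ ^ (2 * q) ∂(stdGaussian (E n)) := by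
  have hn0 : (0 : ℝ) < n := by exact_mod_cast hn
  have h1 : ∀ i : Fin n, ∫ g, |(⟪EuclideanSpace.single i (1 : ℝ), g⟫ : ℝ)| ^ 2 * ‖g‖ ^ (2 * q)
      ∂(stdGaussian (E n)) = ∫ g, |(⟪e, g⟫ : ℝ)| ^ 2 * ‖g‖ ^ (2 * q) ∂(stdGaussian (E n)) :=
    fun i => p7_radial (fun a b => |a| ^ 2 * b ^ (2 * q)) _ _ (by simp [he])
  have h2 : ∫ g, ‖g‖ ^ (2 * (q + 1)) ∂(stdGaussian (E n))
      = ∑ i : Fin n, ∫ g, |(⟪EuclideanSpace.single i (1 : ℝ), g⟫ : ℝ)| ^ 2 * ‖g‖ ^ (2 * q)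
      ∂(stdGaussian (E n)) := by
    rw [← integral_finsetSum _ fun i _ => p7_int_mul _ _ _]
    refine integral_congr_ae ?_
    filter_upwards with g
    rw [← Finset.sum_mul, mul_add, pow_add, mul_comm, mul_one]
    congr 1
    rw [p7_norm_sq]
    simp
  have h3 := p7_mom_low n (q + 1) hn
  rw [h2, Finset.sum_congr rfl fun i _ => h1 i, Finset.sum_const, Finset.card_univ,
    Fintype.card_fin, nsmul_eq_mul, pow_succ, mul_comm] at h3
  exact le_of_mul_le_mul_left h3 hn0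

lemma p7_memLp {n : ℕ} (y : E n) (p k : ℕ) :
    MemLp (fun g : E n => |(⟪y, g⟫ : ℝ)| ^ p * ‖g‖ ^ k) 2 (stdGaussian (E n)) := by
  have hm : Measurable (fun g : E n => |(⟪y, g⟫ : ℝ)| ^ p * ‖g‖ ^ k) := by fun_prop
  rw [memLp_two_iff_integrable_sq hm.aestronglyMeasurable]
  refine (p7_int_mul y (p * 2) (k * 2)).congr ?_
  filter_upwards with g
  rw [mul_pow, ← pow_mul, ← pow_mul]

/-- Cauchy --Schwarz -/
lemma p7_cs {n : ℕ} (y : E n) (p k : ℕ) :
    ∫ g, |(⟪y, g⟫ : ℝ)| ^ p * ‖g‖ ^ k ∂(stdGaussian (E n))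
      ≤ Real.sqrt (mm p * mm k) * (‖y‖ ^ p * Real.sqrt n ^ k) := by
  have h1 := cs833 (stdGaussian (E n)) (fun g : E n => |(⟪y, g⟫ : ℝ)| ^ p) (fun g => ‖g‖ ^ k)
    (by simpa using p7_memLp y p 0) (by simpa using p7_memLp y 0 k)
  refine h1.trans ?_
  have h2 : ∫ g, (|(⟪y, g⟫ : ℝ)| ^ p) ^ 2 ∂(stdGaussian (E n)) = mm p * (‖y‖ ^ p) ^ 2 := by
    rw [← pow_mul, mul_comm p 2, ← p7_inner_mom p y]
    refine integral_congr_ae ?_
    filter_upwards with g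
    rw [← pow_mul, mul_comm p 2, p7_even]
  have h3 : ∫ g, (‖g‖ ^ k) ^ 2 ∂(stdGaussian (E n)) ≤ mm k * (Real.sqrt n ^ k) ^ 2 := by
    have h4 := p7_mom_up n k
    have h5 : (Real.sqrt n ^ k) ^ 2 = (n : ℝ) ^ k := by
      rw [← pow_mul, mul_comm k 2, pow_mul, Real.sq_sqrt (Nat.cast_nonneg n)]
    rw [h5]
    refine le_trans (le_of_eq ?_) h4
    refine integral_congr_ae ?_
    filter_upwards with g
    rw [← pow_mul, mul_comm k 2]
  rw [h2, Real.sqrt_mul (mm_nonneg p), Real.sqrt_sq (by positivity), Real.sqrt_mul (mm_nonneg p)]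
  calc Real.sqrt (mm p) * ‖y‖ ^ p * Real.sqrt (∫ g, (‖g‖ ^ k) ^ 2 ∂(stdGaussian (E n)))
      ≤ Real.sqrt (mm p) * ‖y‖ ^ p * (Real.sqrt (mm k) * Real.sqrt n ^ k) := by
        refine mul_le_mul_of_nonneg_left ?_ (by positivity)
        refine (Real.sqrt_le_sqrt h3).trans ?_
        rw [Real.sqrt_mul (mm_nonneg k), Real.sqrt_sq (by positivity)]
    _ = _ := by ring

/-- the lower bound for the first moment with weight -/
lemma p7_low (q : ℕ) : ∃ c : ℝ, 0 < c ∧ ∀ n : ℕ, 1 ≤ n → ∀ e : E n, ‖e‖ = 1 →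
    c * (n : ℝ) ^ q ≤ ∫ g, |(⟪e, g⟫ : ℝ)| ^ 1 * ‖g‖ ^ (2 * q) ∂(stdGaussian (E n)) := by
  set S : ℝ := Real.sqrt (mm 4 * mm (2 * q)) + 1 with hS
  have hS0 : 0 < S := by positivity
  set s : ℝ := Real.sqrt S with hs
  have hs0 : 0 < s := Real.sqrt_pos.2 hS0
  have hs2 : s ^ 2 = S := Real.sq_sqrt hS0.le
  refine ⟨1 / s, by positivity, fun n hn e he => ?_⟩
  have h4 := p7_cs e 4 (2 * q)
  have h2 := p7_sq_low n q hn e he
  have hnq : Real.sqrt n ^ (2 * q) = (n : ℝ) ^ q := by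
    rw [pow_mul, Real.sq_sqrt (Nat.cast_nonneg n)]
  rw [he, hnq, one_pow, one_mul] at h4
  have hN : (0 : ℝ) ≤ (n : ℝ) ^ q := by positivity
  have h4' : ∫ g, |(⟪e, g⟫ : ℝ)| ^ 4 * ‖g‖ ^ (2 * q) ∂(stdGaussian (E n)) ≤ s ^ 2 * (n : ℝ) ^ q := by
    rw [hs2, hS]
    nlinarith
  have key : ∀ x : ℝ, 0 ≤ x → (1 / 2) * (3 * x ^ 2 / s - x ^ 4 / s ^ 3) ≤ x ^ 1 := by
    intro x hx
    have h5 : (1 / 2) * (3 * x ^ 2 / s - x ^ 4 / s ^ 3)
        = x ^ 1 - (x * (x - s) ^ 2 * (x + 2 * s)) / (2 * s ^ 3) := by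
      field_simp
      ring
    rw [h5]
    have : 0 ≤ (x * (x - s) ^ 2 * (x + 2 * s)) / (2 * s ^ 3) := by positivity
    linarith
  have h6 : ∫ g, (1 / 2) * (3 * |(⟪e, g⟫ : ℝ)| ^ 2 / s - |(⟪e, g⟫ : ℝ)| ^ 4 / s ^ 3) * ‖g‖ ^ (2 * q)
      ∂(stdGaussian (E n)) ≤ ∫ g, |(⟪e, g⟫ : ℝ)| ^ 1 * ‖g‖ ^ (2 * q) ∂(stdGaussian (E n)) := by
    refine integral_mono ?_ (p7_int_mul e 1 _) fun g => ?_
    · have h7 : (fun g : E n => (1 / 2) * (3 * |(⟪e, g⟫ : ℝ)| ^ 2 / s - |(⟪e, g⟫ : ℝ)| ^ 4 / s ^ 3)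
          * ‖g‖ ^ (2 * q)) = fun g => (3 / (2 * s)) * (|(⟪e, g⟫ : ℝ)| ^ 2 * ‖g‖ ^ (2 * q))
          - (1 / (2 * s ^ 3)) * (|(⟪e, g⟫ : ℝ)| ^ 4 * ‖g‖ ^ (2 * q)) := by
        funext g
        field_simp
      rw [h7]
      exact ((p7_int_mul e 2 _).const_mul _).sub ((p7_int_mul e 4 _).const_mul _)
    · exact mul_le_mul_of_nonneg_right (key _ (abs_nonneg _)) (by positivity)
  have h8 : ∫ g, (1 / 2) * (3 * |(⟪e, g⟫ : ℝ)| ^ 2 / s - |(⟪e, g⟫ : ℝ)| ^ 4 / s ^ 3) * ‖g‖ ^ (2 * q)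
      ∂(stdGaussian (E n)) = (3 / (2 * s)) * ∫ g, |(⟪e, g⟫ : ℝ)| ^ 2 * ‖g‖ ^ (2 * q) ∂(stdGaussian (E n))
      - (1 / (2 * s ^ 3)) * ∫ g, |(⟪e, g⟫ : ℝ)| ^ 4 * ‖g‖ ^ (2 * q) ∂(stdGaussian (E n)) := by
    rw [← integral_const_mul, ← integral_const_mul,
      ← integral_sub ((p7_int_mul e 2 _).const_mul _) ((p7_int_mul e 4 _).const_mul _)]
    refine integral_congr_ae ?_
    filter_upwards with g
    field_simp
  rw [h8] at h6
  refine le_trans ?_ h6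
  have h9 : (3 / (2 * s)) * (n : ℝ) ^ q ≤
      (3 / (2 * s)) * ∫ g, |(⟪e, g⟫ : ℝ)| ^ 2 * ‖g‖ ^ (2 * q) ∂(stdGaussian (E n)) :=
    mul_le_mul_of_nonneg_left h2 (by positivity)
  have h10 : (1 / (2 * s ^ 3)) * ∫ g, |(⟪e, g⟫ : ℝ)| ^ 4 * ‖g‖ ^ (2 * q) ∂(stdGaussian (E n)) ≤
      (1 / (2 * s ^ 3)) * (s ^ 2 * (n : ℝ) ^ q) :=
    mul_le_mul_of_nonneg_left h4' (by positivity)
  have h11 : 1 / s * (n : ℝ) ^ q = (3 / (2 * s)) * (n : ℝ) ^ q - (1 / (2 * s ^ 3)) * (s ^ 2 * (n : ℝ) ^ q) := by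
    field_simp
    ring
  rw [h11]
  linarith

/-- the smoothed kernel at a nonzero vector -/
lemma p7_smooth {n : ℕ} (W g : E n) (hg : g ≠ 0) :
    ∫ Y, |(⟪Y + W, g⟫ : ℝ)| ∂(stdGaussian (E n)) = ‖g‖ * kap ⟪W, ‖g‖⁻¹ • g⟫ := by
  have hg0 : 0 < ‖g‖ := norm_pos_iff.2 hg
  set u : E n := ‖g‖⁻¹ • g with hu
  have hun : ‖u‖ = 1 := by
    rw [hu, norm_smul, norm_inv, norm_norm, inv_mul_cancel₀ hg0.ne']
  have hgu : g = ‖g‖ • u := by
    rw [hu, smul_smul, mul_inv_cancel₀ hg0.ne', one_smul]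
  have h1 : ∀ Y : E n, |(⟪Y + W, g⟫ : ℝ)| = ‖g‖ * |(⟪W, u⟫ : ℝ) + ⟪u, Y⟫| := by
    intro Y
    conv_lhs => rw [hgu]
    rw [inner_smul_right, abs_mul, abs_of_pos hg0, inner_add_left, real_inner_comm u Y]
    congr 2
    ring
  simp only [h1]
  rw [integral_const_mul, kap]
  congr 1
  have hm : Measurable (fun Y : E n => (⟪u, Y⟫ : ℝ)) := by fun_prop
  have hmm : Measurable (fun x : ℝ => |(⟪W, u⟫ : ℝ) + x|) := by fun_prop
  have h2 : (stdGaussian (E n)).map (fun g => ⟪u, g⟫) = gaussianReal 0 1 := by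
    rw [map_inner]
    congr 1
    ext
    simp [hun]
  rw [← h2, integral_map hm.aemeasurable hmm.aestronglyMeasurable]

lemma kap_measurable : Measurable kap := by
  have h : StronglyMeasurable (fun p : ℝ × ℝ => |p.1 + p.2|) := by
    apply Continuous.stronglyMeasurable
    fun_prop
  exact (h.integral_prod_right' (ν := gaussianReal 0 1)).measurable

theorem p7 : Stm7 := by
  intro Q
  obtain ⟨c, hc, hlow⟩ := p7_low Q
  -- the constant
  set C : ℝ := ∑ p ∈ Finset.range (Q + 1), Real.sqrt (mm p * mm (2 * Q + 1 - p)) / c with hC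
  refine ⟨C, Finset.sum_nonneg fun p _ => by positivity, fun n hn => ?_⟩
  have hn0 : (0 : ℝ) < n := by exact_mod_cast hn
  set e : E n := EuclideanSpace.single ⟨0, hn⟩ (1 : ℝ) with he
  have hen : ‖e‖ = 1 := by simp [he]
  set cn : ℝ := ∫ g, |(⟪e, g⟫ : ℝ)| ^ 1 * ‖g‖ ^ (2 * Q) ∂(stdGaussian (E n)) with hcn
  have hcn1 : c * (n : ℝ) ^ Q ≤ cn := hlow n hn e hen
  have hcn0 : 0 < cn := lt_of_lt_of_le (by positivity) hcn1
  clear_value cn
  set ρ : E n → ℝ := fun g => ‖g‖ ^ (2 * Q + 1) / cn with hρ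
  have hρ0 : ∀ g, 0 ≤ ρ g := fun g => div_nonneg (pow_nonneg (norm_nonneg g) _) hcn0.le
  have hρm : Measurable ρ := by simp only [hρ]; fun_prop
  have hρi : Integrable ρ (stdGaussian (E n)) := (p7_int_norm_pow n (2 * Q + 1)).div_const cn
  set ν : Measure (E n) := (stdGaussian (E n)).withDensity fun g => ENNReal.ofReal (ρ g) with hν
  have hνf : IsFiniteMeasure ν := isFiniteMeasure_withDensity_ofReal hρi.2
  set T : E n → E n := fun g => ‖g‖⁻¹ • g with hT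
  have hTm : Measurable T := by simp only [hT]; fun_prop
  -- integrals against the measure
  have hint : ∀ f : E n → ℝ, Measurable f →
      ∫ u, f u ∂(ν.map T) = ∫ g, ρ g * f (T g) ∂(stdGaussian (E n)) := by
    intro f hf
    rw [integral_map hTm.aemeasurable hf.aestronglyMeasurable, hν,
      integral_withDensity_eq_integral_toReal_smul hρm.ennreal_ofReal
        (Filter.Eventually.of_forall fun g => ENNReal.ofReal_lt_top)]
    refine integral_congr_ae ?_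
    filter_upwards with g
    rw [ENNReal.toReal_ofReal (hρ0 g), smul_eq_mul]
  refine ⟨ν.map T, inferInstance, ?_, ?_, ?_⟩
  · -- unit vectors
    have hms : MeasurableSet {u : E n | ‖u‖ = 1} := measurableSet_eq_fun (by fun_prop) (by fun_prop)
    rw [ae_map_iff hTm.aemeasurable hms, hν, ae_withDensity_iff hρm.ennreal_ofReal]
    filter_upwards with g
    intro hg
    have hg0 : g ≠ 0 := by
      rintro rfl
      apply hg
      simp [hρ]
    simp only [hT]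
    rw [norm_smul, norm_inv, norm_norm, inv_mul_cancel₀ (norm_ne_zero_iff.2 hg0)]
  · -- the norm formula
    intro W
    have hnorm : ∀ z : E n, ‖z‖ = cn⁻¹ * ∫ g, |(⟪z, g⟫ : ℝ)| * ‖g‖ ^ (2 * Q) ∂(stdGaussian (E n)) := by
      intro z
      have h1 := p7_radial (fun a b => |a| * b ^ (2 * Q)) z (‖z‖ • e) (by
        rw [norm_smul, norm_norm, hen, mul_one])
      simp only at h1
      rw [h1]
      have h2 : ∀ g : E n, |(⟪‖z‖ • e, g⟫ : ℝ)| * ‖g‖ ^ (2 * Q)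
          = ‖z‖ * (|(⟪e, g⟫ : ℝ)| ^ 1 * ‖g‖ ^ (2 * Q)) := by
        intro g
        rw [real_inner_smul_left, abs_mul, abs_of_nonneg (norm_nonneg z), pow_one]
        ring
      simp only [h2]
      rw [integral_const_mul, ← hcn]
      field_simp
    have hkm : Measurable fun u : E n => kap ⟪W, u⟫ := by
      have hin : Measurable fun u : E n => (⟪W, u⟫ : ℝ) := by fun_prop
      exact kap_measurable.comp hin
    rw [hint _ hkm]
    have h3 : ∫ Y, ‖Y + W‖ ∂(stdGaussian (E n)) = cn⁻¹ * ∫ Y, (∫ g, |(⟪Y + W, g⟫ : ℝ)| * ‖g‖ ^ (2 * Q)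
        ∂(stdGaussian (E n))) ∂(stdGaussian (E n)) := by
      rw [← integral_const_mul]
      refine integral_congr_ae ?_
      filter_upwards with Y
      exact hnorm (Y + W)
    have hFub : Integrable (Function.uncurry fun (Y g : E n) => |(⟪Y + W, g⟫ : ℝ)| * ‖g‖ ^ (2 * Q))
        ((stdGaussian (E n)).prod (stdGaussian (E n))) := by
      have hm : Continuous (Function.uncurry fun (Y g : E n) => |(⟪Y + W, g⟫ : ℝ)| * ‖g‖ ^ (2 * Q)) := by
        unfold Function.uncurry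
        fun_prop
      have hb : Integrable (fun p : E n × E n => (‖p.1‖ ^ 1 + ‖W‖) * ‖p.2‖ ^ (2 * Q + 1))
          ((stdGaussian (E n)).prod (stdGaussian (E n))) :=
        Integrable.mul_prod ((p7_int_norm_pow n 1).add (integrable_const _))
          (p7_int_norm_pow n (2 * Q + 1))
      refine hb.mono' hm.aestronglyMeasurable ?_
      filter_upwards with p
      simp only [Function.uncurry]
      rw [Real.norm_eq_abs, abs_of_nonneg (by positivity), pow_one, pow_succ]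
      have h4 : |(⟪p.1 + W, p.2⟫ : ℝ)| ≤ (‖p.1‖ + ‖W‖) * ‖p.2‖ :=
        (abs_real_inner_le_norm _ _).trans
          (mul_le_mul_of_nonneg_right (norm_add_le _ _) (norm_nonneg _))
      calc |(⟪p.1 + W, p.2⟫ : ℝ)| * ‖p.2‖ ^ (2 * Q)
          ≤ ((‖p.1‖ + ‖W‖) * ‖p.2‖) * ‖p.2‖ ^ (2 * Q) :=
            mul_le_mul_of_nonneg_right h4 (by positivity)
        _ = _ := by ring
    rw [h3, integral_integral_swap hFub, ← integral_const_mul]
    refine integral_congr_ae ?_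
    filter_upwards with g
    rw [integral_mul_const]
    by_cases hg : g = 0
    · subst hg
      simp [hρ]
    · rw [p7_smooth W g hg]
      simp only [hρ, hT]
      ring
  · -- the moments
    intro p hp y
    have hfm : Measurable fun u : E n => |(⟪y, u⟫ : ℝ)| ^ p := by fun_prop
    rw [hint _ hfm]
    have hp1 : 2 * Q + 1 = p + (2 * Q + 1 - p) := by omega
    have h1 : ∀ g : E n, ρ g * |(⟪y, T g⟫ : ℝ)| ^ p
        = cn⁻¹ * (|(⟪y, g⟫ : ℝ)| ^ p * ‖g‖ ^ (2 * Q + 1 - p)) := by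
      intro g
      simp only [hρ, hT]
      by_cases hg : g = 0
      · subst hg
        have : 2 * Q + 1 - p ≠ 0 := by omega
        simp [this]
      · have hg0 : 0 < ‖g‖ := norm_pos_iff.2 hg
        rw [inner_smul_right, abs_mul, abs_of_nonneg (inv_nonneg.2 (norm_nonneg g)), mul_pow]
        have h2 : ‖g‖ ^ (2 * Q + 1) = ‖g‖ ^ p * ‖g‖ ^ (2 * Q + 1 - p) := by
          rw [← pow_add, ← hp1]
        rw [h2]
        have h5 : ‖g‖ ^ p * (‖g‖⁻¹) ^ p = 1 := by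
          rw [← mul_pow, mul_inv_cancel₀ hg0.ne', one_pow]
        calc ‖g‖ ^ p * ‖g‖ ^ (2 * Q + 1 - p) / cn * ((‖g‖⁻¹) ^ p * |(⟪y, g⟫ : ℝ)| ^ p)
            = (‖g‖ ^ p * (‖g‖⁻¹) ^ p) * (cn⁻¹ * (|(⟪y, g⟫ : ℝ)| ^ p * ‖g‖ ^ (2 * Q + 1 - p))) := by
              ring
          _ = _ := by rw [h5, one_mul]
    simp only [h1]
    rw [integral_const_mul]
    have h2 := p7_cs y p (2 * Q + 1 - p)
    have hsn : 0 < Real.sqrt n := Real.sqrt_pos.2 hn0
    have h3 : Real.sqrt n ^ (2 * Q + 1 - p) * (Real.sqrt n) ^ p = Real.sqrt n * (n : ℝ) ^ Q := by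
      rw [← pow_add, show 2 * Q + 1 - p + p = 2 * Q + 1 by omega, pow_succ, pow_mul,
        Real.sq_sqrt hn0.le]
      ring
    have h4 : Real.sqrt (mm p * mm (2 * Q + 1 - p)) / c ≤ C := by
      rw [hC]
      exact Finset.single_le_sum
        (f := fun p => Real.sqrt (mm p * mm (2 * Q + 1 - p)) / c)
        (fun i _ => by positivity) (Finset.mem_range.2 (by omega))
    set R := Real.sqrt (mm p * mm (2 * Q + 1 - p)) with hR
    have hR0 : 0 ≤ R := Real.sqrt_nonneg _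
    calc cn⁻¹ * ∫ g, |(⟪y, g⟫ : ℝ)| ^ p * ‖g‖ ^ (2 * Q + 1 - p) ∂(stdGaussian (E n))
        ≤ cn⁻¹ * (R * (‖y‖ ^ p * Real.sqrt n ^ (2 * Q + 1 - p))) :=
          mul_le_mul_of_nonneg_left h2 (by positivity)
      _ ≤ (c * (n : ℝ) ^ Q)⁻¹ * (R * (‖y‖ ^ p * Real.sqrt n ^ (2 * Q + 1 - p))) := by
          refine mul_le_mul_of_nonneg_right ?_ (by positivity)
          exact inv_anti₀ (by positivity) hcn1
      _ = (R / c) * Real.sqrt n * (‖y‖ / Real.sqrt n) ^ p := by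
          rw [div_pow]
          have hsp : Real.sqrt n ^ p ≠ 0 := by positivity
          have h6 : (c * (n : ℝ) ^ Q)⁻¹ * (R * (‖y‖ ^ p * Real.sqrt n ^ (2 * Q + 1 - p)))
              = (c * (n : ℝ) ^ Q)⁻¹ * (R * (‖y‖ ^ p * (Real.sqrt n ^ (2 * Q + 1 - p)
                * Real.sqrt n ^ p))) / Real.sqrt n ^ p := by
            field_simp
          rw [h6, h3]
          field_simp
      _ ≤ C * Real.sqrt n * (‖y‖ / Real.sqrt n) ^ p := by
          refine mul_le_mul_of_nonneg_right ?_ (by positivity)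
          exact mul_le_mul_of_nonneg_right h4 hsn.le

end Pool.Agent.E8helper29.Zn
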