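import Pool.Agent.E8helper29.Zn.Stm2
import Pool.Agent.E8helper29.Zn.P7

/-!
Project ZN2, piece 25: the norm as a mixture of `|⟨·,u⟩|` over unit vectors, with all moments.
-/

set_option autoImplicit false

namespace Pool.Agent.E8helper29.Zn

open MeasureTheory ProbabilityTheory Pool.Agent.Helper649.Zono
open scoped RealInnerProductSpace Nat NNReal Polynomial

/-- the radial projection -/
noncomputable def nor {n : ℕ} (g : E n) : E n := ‖g‖⁻¹ • g

lemma nor_measurable (n : ℕ) : Measurable (nor : E n → E n) := by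
  unfold nor; fun_prop

lemma nor_norm {n : ℕ} {g : E n} (hg : g ≠ 0) : ‖nor g‖ = 1 := by
  rw [nor, norm_smul, norm_inv, norm_norm, inv_mul_cancel₀ (norm_ne_zero_iff.2 hg)]

lemma nor_le {n : ℕ} (g : E n) : ‖nor g‖ ≤ 1 := by
  by_cases hg : g = 0
  · subst hg; simp [nor]
  · exact (nor_norm hg).le

/-- the absolute moments of a standard normal variable -/
noncomputable def am (k : ℕ) : ℝ := ∫ x, |x| ^ k ∂(gaussianReal 0 1)

lemma inner_am {n : ℕ} (k : ℕ) {u : E n} (hu : ‖u‖ = 1) :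
    ∫ g, |(⟪u, g⟫ : ℝ)| ^ k ∂(stdGaussian (E n)) = am k := by
  have hm : Measurable (fun g : E n => (⟪u, g⟫ : ℝ)) := by fun_prop
  have hp : Measurable (fun x : ℝ => |x| ^ k) := by fun_prop
  have h2 : (stdGaussian (E n)).map (fun g => ⟪u, g⟫) = gaussianReal 0 1 := by
    rw [map_inner]
    congr 1
    ext
    simp [hu]
  rw [am, ← h2, integral_map hm.aemeasurable hp.aestronglyMeasurable]

lemma ae_ne_zero {n : ℕ} (hn : 1 ≤ n) : ∀ᵐ g ∂(stdGaussian (E n)), g ≠ 0 := by
  set e : E n := EuclideanSpace.single ⟨0, hn⟩ (1 : ℝ) with he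
  have hen : ‖e‖ = 1 := by simp [he]
  have hm : Measurable (fun g : E n => (⟪e, g⟫ : ℝ)) := by fun_prop
  have h2 : (stdGaussian (E n)).map (fun g => ⟪e, g⟫) = gaussianReal 0 1 := by
    rw [map_inner]
    congr 1
    ext
    simp [hen]
  have h3 : ∀ᵐ x ∂(gaussianReal 0 1), x ≠ 0 := by
    have : NullSingletonClass (gaussianReal (0 : ℝ) (1 : ℝ≥0)) :=
      nullSingletonClass_gaussianReal one_ne_zero
    exact Measure.ae_ne _ 0
  rw [← h2] at h3
  have h4 := ae_of_ae_map hm.aemeasurable h3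
  filter_upwards [h4] with g hg
  rintro rfl
  exact hg (by simp)

/-- the moments of a coordinate on the sphere -/
noncomputable def sm {n : ℕ} (e : E n) (k : ℕ) : ℝ :=
  ∫ g, |(⟪e, nor g⟫ : ℝ)| ^ k ∂(stdGaussian (E n))

lemma sm_hom {n : ℕ} {e : E n} (he : ‖e‖ = 1) (k : ℕ) (z : E n) :
    ∫ g, |(⟪z, nor g⟫ : ℝ)| ^ k ∂(stdGaussian (E n)) = ‖z‖ ^ k * sm e k := by
  have h1 := p7_radial (fun a b => |b⁻¹ * a| ^ k) z (‖z‖ • e) (by
    rw [norm_smul, norm_norm, he, mul_one])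
  simp only at h1
  have h2 : ∀ y g : E n, (⟪y, nor g⟫ : ℝ) = ‖g‖⁻¹ * ⟪y, g⟫ := fun y g => by
    rw [nor, inner_smul_right]
  simp only [h2]
  rw [h1]
  simp only [sm, h2]
  rw [← integral_const_mul]
  refine integral_congr_ae ?_
  filter_upwards with g
  rw [real_inner_smul_left, ← mul_pow]
  congr 1
  rw [abs_mul, abs_mul, abs_mul, abs_of_nonneg (norm_nonneg z)]
  ring

lemma sm_fub {n : ℕ} (W : E n) (k : ℕ) : Integrable (Function.uncurry fun (G g : E n) =>
    |(⟪G + W, nor g⟫ : ℝ)| ^ k) ((stdGaussian (E n)).prod (stdGaussian (E n))) := by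
  have hm : Measurable (Function.uncurry fun (G g : E n) => |(⟪G + W, nor g⟫ : ℝ)| ^ k) := by
    unfold Function.uncurry nor
    fun_prop
  have hb : Integrable (fun p : E n × E n => (2 ^ k * (‖p.1‖ ^ k + ‖W‖ ^ k)) * 1)
      ((stdGaussian (E n)).prod (stdGaussian (E n))) :=
    Integrable.mul_prod (((p7_int_norm_pow n k).add (integrable_const _)).const_mul _)
      (integrable_const (1 : ℝ))
  refine hb.mono' hm.aestronglyMeasurable ?_
  filter_upwards with p
  simp only [Function.uncurry, mul_one]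
  rw [Real.norm_eq_abs, abs_of_nonneg (by positivity)]
  have h4 : |(⟪p.1 + W, nor p.2⟫ : ℝ)| ≤ ‖p.1‖ + ‖W‖ := by
    refine (abs_real_inner_le_norm _ _).trans ?_
    calc ‖p.1 + W‖ * ‖nor p.2‖ ≤ (‖p.1‖ + ‖W‖) * 1 :=
          mul_le_mul (norm_add_le _ _) (nor_le _) (norm_nonneg _) (by positivity)
      _ = _ := mul_one _
  have h5 : ‖p.1‖ + ‖W‖ ≤ 2 * max ‖p.1‖ ‖W‖ := by
    have := le_max_left ‖p.1‖ ‖W‖
    have := le_max_right ‖p.1‖ ‖W‖
    linarith
  calc |(⟪p.1 + W, nor p.2⟫ : ℝ)| ^ k ≤ (2 * max ‖p.1‖ ‖W‖) ^ k :=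
        pow_le_pow_left₀ (abs_nonneg _) (h4.trans h5) k
    _ = 2 ^ k * (max ‖p.1‖ ‖W‖) ^ k := mul_pow _ _ _
    _ ≤ 2 ^ k * (‖p.1‖ ^ k + ‖W‖ ^ k) := by
        refine mul_le_mul_of_nonneg_left ?_ (by positivity)
        rcases max_cases ‖p.1‖ ‖W‖ with ⟨h, -⟩ | ⟨h, -⟩ <;> rw [h]
        · have : 0 ≤ ‖W‖ ^ k := by positivity
          linarith
        · have : 0 ≤ ‖p.1‖ ^ k := by positivity
          linarith

lemma sm_am {n : ℕ} (hn : 1 ≤ n) {e : E n} (he : ‖e‖ = 1) (k : ℕ) :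
    am k = sm e k * ∫ g, ‖g‖ ^ k ∂(stdGaussian (E n)) := by
  have h1 := integral_integral_swap (sm_fub (0 : E n) k)
  simp only [add_zero] at h1
  have h2 : ∫ G, (∫ g, |(⟪G, nor g⟫ : ℝ)| ^ k ∂(stdGaussian (E n))) ∂(stdGaussian (E n))
      = sm e k * ∫ g, ‖g‖ ^ k ∂(stdGaussian (E n)) := by
    simp only [sm_hom he]
    rw [integral_mul_const, mul_comm]
  have h3 : ∫ g, (∫ G, |(⟪G, nor g⟫ : ℝ)| ^ k ∂(stdGaussian (E n))) ∂(stdGaussian (E n)) = am k := by
    have h4 : (fun g : E n => ∫ G, |(⟪G, nor g⟫ : ℝ)| ^ k ∂(stdGaussian (E n)))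
        =ᵐ[stdGaussian (E n)] fun _ => am k := by
      filter_upwards [ae_ne_zero hn] with g hg
      rw [← inner_am k (nor_norm hg)]
      refine integral_congr_ae ?_
      filter_upwards with G
      rw [real_inner_comm]
    rw [integral_congr_ae h4]
    simp
  rw [← h2, h1, h3]

lemma am_one_pos : 0 < am 1 := by
  obtain ⟨c, hc, h⟩ := p7_low 0
  have h1 := h 1 le_rfl (EuclideanSpace.single 0 1) (by simp)
  have h2 := inner_am (n := 1) 1 (u := EuclideanSpace.single 0 1) (by simp)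
  simp only [mul_zero, pow_zero, mul_one] at h1
  rw [h2] at h1
  linarith

lemma mm_zero : mm 0 = 1 := by simp [mm]

lemma mm_succ (m : ℕ) : mm (m + 1) = (2 * m + 1) * mm m := by
  have h := stein (Polynomial.X ^ (2 * m + 1))
  simp only [Polynomial.eval_pow, Polynomial.eval_X, Polynomial.derivative_X_pow,
    Polynomial.eval_mul, Polynomial.eval_C, Nat.add_sub_cancel] at h
  rw [mm, mm, ← integral_const_mul]
  have e1 : ∀ x : ℝ, x ^ (2 * (m + 1)) = x * x ^ (2 * m + 1) := fun x => by ring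
  simp only [e1]
  push_cast at h
  exact h

lemma mm_eq (m : ℕ) : mm m = ((2 * m - 1)‼ : ℕ) := by
  induction m with
  | zero => rw [mm_zero]; simp
  | succ m ih =>
    rw [mm_succ, ih, show 2 * (m + 1) - 1 = 2 * m + 1 by omega]
    rcases m with _ | m
    · simp
    · rw [show 2 * (m + 1) + 1 = (2 * (m + 1) - 1) + 2 by omega, Nat.doubleFactorial_add_two]
      push_cast
      rw [show 2 * (m + 1) - 1 = 2 * m + 1 by omega]
      push_cast
      ring

lemma norm_int_le' (n : ℕ) : ∫ g, ‖g‖ ∂(stdGaussian (E n)) ≤ Real.sqrt n := by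
  have h := p7_cs (0 : E n) 0 1
  have h1 : mm 1 = 1 := by
    rw [show (1 : ℕ) = 0 + 1 from rfl, mm_succ, mm_zero]; norm_num
  simp only [pow_zero, one_mul, pow_one, mm_zero, h1, Real.sqrt_one] at h
  exact h

theorem p25 : Stm25 := by
  have ha := am_one_pos
  refine ⟨1 / am 1, by positivity, fun n hn => ?_⟩
  have hn0 : (0 : ℝ) < n := by exact_mod_cast hn
  set e : E n := EuclideanSpace.single ⟨0, hn⟩ (1 : ℝ) with he
  have hen : ‖e‖ = 1 := by simp [he]
  clear_value e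
  obtain ⟨R, hR⟩ : ∃ R : ℝ, R = ∫ g, ‖g‖ ∂(stdGaussian (E n)) := ⟨_, rfl⟩
  have hR0 : 0 ≤ R := by rw [hR]; exact integral_nonneg fun g => norm_nonneg g
  have h1 : am 1 = sm e 1 * R := by
    have := sm_am hn hen 1
    simpa [← hR] using this
  have hRle : R ≤ Real.sqrt n := by rw [hR]; exact norm_int_le' n
  have hRne : R ≠ 0 := by
    rintro h
    rw [h, mul_zero] at h1
    linarith
  have hsm : sm e 1 ≠ 0 := by
    intro h
    rw [h, zero_mul] at h1
    linarith
  obtain ⟨κ, hκ⟩ : ∃ κ : ℝ, κ = R / am 1 := ⟨_, rfl⟩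
  have hκ0 : 0 ≤ κ := by rw [hκ]; positivity
  have hint : ∀ f : E n → ℝ, Measurable f →
      ∫ u, f u ∂(ENNReal.ofReal κ • (stdGaussian (E n)).map nor)
        = κ * ∫ g, f (nor g) ∂(stdGaussian (E n)) := by
    intro f hf
    rw [integral_smul_measure, ENNReal.toReal_ofReal hκ0, smul_eq_mul,
      integral_map (nor_measurable n).aemeasurable hf.aestronglyMeasurable]
  refine ⟨ENNReal.ofReal κ • (stdGaussian (E n)).map nor,
    Measure.smul_finite _ ENNReal.ofReal_ne_top, ?_, ?_, ?_⟩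
  · apply Measure.ae_smul_measure
    have hms : MeasurableSet {u : E n | ‖u‖ = 1} := measurableSet_eq_fun (by fun_prop) (by fun_prop)
    rw [ae_map_iff (nor_measurable n).aemeasurable hms]
    filter_upwards [ae_ne_zero hn] with g hg
    exact nor_norm hg
  · intro W
    have hkm : Measurable fun u : E n => kap ⟪W, u⟫ := by
      have hin : Measurable fun u : E n => (⟪W, u⟫ : ℝ) := by fun_prop
      exact kap_measurable.comp hin
    rw [hint _ hkm]
    have h2 : ∀ z : E n, ‖z‖ = κ * ∫ g, |(⟪z, nor g⟫ : ℝ)| ^ 1 ∂(stdGaussian (E n)) := by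
      intro z
      rw [sm_hom hen, hκ, h1, pow_one]
      field_simp
    have h3 : ∫ Y, ‖Y + W‖ ∂(stdGaussian (E n)) = κ * ∫ Y, (∫ g, |(⟪Y + W, nor g⟫ : ℝ)| ^ 1
        ∂(stdGaussian (E n))) ∂(stdGaussian (E n)) := by
      rw [← integral_const_mul]
      refine integral_congr_ae ?_
      filter_upwards with Y
      exact h2 (Y + W)
    rw [h3, integral_integral_swap (sm_fub W 1)]
    congr 1
    refine integral_congr_ae ?_
    filter_upwards [ae_ne_zero hn] with g hg
    have hu := nor_norm hg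
    have h4 : nor g ≠ 0 := by
      intro h
      rw [h, norm_zero] at hu
      exact zero_ne_one hu
    have h5 := p7_smooth W (nor g) h4
    rw [hu, one_mul, inv_one, one_smul] at h5
    simpa using h5
  · intro m v hv
    have hfm : Measurable fun u : E n => (Real.sqrt n * (⟪v, u⟫ : ℝ)) ^ (2 * m) := by fun_prop
    rw [hint _ hfm]
    have h2 : ∀ g : E n, (Real.sqrt n * (⟪v, nor g⟫ : ℝ)) ^ (2 * m)
        = (n : ℝ) ^ m * |(⟪v, nor g⟫ : ℝ)| ^ (2 * m) := by
      intro g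
      rw [mul_pow, p7_even, pow_mul, Real.sq_sqrt hn0.le]
    simp only [h2]
    rw [integral_const_mul, sm_hom hen, hv, one_pow, one_mul]
    have h3 := sm_am hn hen (2 * m)
    have h4 : am (2 * m) = ((2 * m - 1)‼ : ℕ) := by
      rw [← mm_eq, am, mm]
      simp only [p7_even]
    have h5 := p7_mom_low n m hn
    have h6 : 0 ≤ sm e (2 * m) := integral_nonneg fun g => by positivity
    have h7 : (n : ℝ) ^ m * sm e (2 * m) ≤ ((2 * m - 1)‼ : ℕ) := by
      rw [← h4, h3, mul_comm]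
      exact mul_le_mul_of_nonneg_left h5 h6
    calc κ * ((n : ℝ) ^ m * sm e (2 * m)) ≤ κ * ((2 * m - 1)‼ : ℕ) :=
          mul_le_mul_of_nonneg_left h7 hκ0
      _ ≤ (1 / am 1 * Real.sqrt n) * ((2 * m - 1)‼ : ℕ) := by
          refine mul_le_mul_of_nonneg_right ?_ (by positivity)
          rw [hκ, div_eq_mul_one_div, mul_comm]
          exact mul_le_mul_of_nonneg_left hRle (by positivity)

end Pool.Agent.E8helper29.Zn
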