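import Pool.Agent.E8helper29.Zn.Stm

/-!
Project ZN2: `N ≥ c n ε^(-2) / log^10 (n/ε)` for all `ε ≥ e^(-cn)`. Statements of the pieces.
-/

set_option autoImplicit false

namespace Pool.Agent.E8helper29.Zn

open MeasureTheory ProbabilityTheory Pool.Agent.Helper649.Zono
open scoped RealInnerProductSpace Nat NNReal Polynomial

/-- `φ(A) = E (|A+N| N)`, the derivative of `kap` -/
noncomputable def phi (A : ℝ) : ℝ := ∫ x, |A + x| * x ∂(gaussianReal 0 1)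

/-- PIECE 21 (derivative functional with small total variation). -/
def Stm21 : Prop :=
  ∀ J : ℕ, 1 ≤ J → ∃ (M : ℕ) (β w : Fin M → ℝ), (∀ i, |β i| ≤ 1) ∧
    ∑ i, |w i| ≤ 2 * (J : ℝ) ^ 2 ∧
    ∀ p : ℝ[X], p.natDegree ≤ J → ∑ i, w i * p.eval (β i) = p.coeff 1

/-- PIECE 22 (flat nonnegative kernel of linear growth with small total variation). -/
def Stm22 : Prop :=
  ∃ c C : ℝ, 0 < c ∧ 0 < C ∧ ∀ m : ℕ, 1 ≤ m → ∃ (ρ x : Fin (2 * m + 1) → ℝ), (∀ i, 0 ≤ x i) ∧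
    ∑ i, |ρ i| * (2 + x i) ≤ C * m ∧
    (∀ t : ℝ, 0 ≤ ∑ i, ρ i * (kap (x i * t) - kap 0)) ∧
    (∀ t : ℝ, ∑ i, ρ i * (kap (x i * t) - kap 0) ≤ (m : ℝ) ^ m * t ^ (2 * m + 2)) ∧
    (∀ t : ℝ, 4 ≤ |t| → c * |t| ≤ ∑ i, ρ i * (kap (x i * t) - kap 0))

/-- PIECE 23 (local polynomial approximation of `kap`). -/
def Stm23 : Prop :=
  ∀ (J : ℕ) (A : ℝ), 1 ≤ J → ∃ P : ℝ[X], P.natDegree ≤ J ∧ P.coeff 1 = phi A ∧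
    ∀ y : ℝ, |y| ≤ 1 → |kap (A + y) - P.eval y| ≤ 2 * (1 + |A|) / Real.sqrt ((J + 1)! : ℕ)

/-- PIECE 24 (facts on `phi`). -/
def Stm24 : Prop :=
  Continuous phi ∧ (∀ A, |phi A| ≤ 1) ∧
  ∃ C : ℝ, 0 < C ∧ ∀ (k : ℕ) (g : ℝ), 1 ≤ k → 0 < g → g ^ 2 * k ≤ 1 →
    ((2 * k - 1)! : ℕ) ≤ C * (k : ℝ) ^ 2 *
      (∫ a, phi (a / g) * He (2 * k - 1) a ∂(gaussianReal 0 1)) ^ 2

/-- PIECE 25 (main measure with all moments). -/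
def Stm25 : Prop :=
  ∃ C : ℝ, 0 ≤ C ∧ ∀ n : ℕ, 1 ≤ n → ∃ μ₀ : Measure (E n), IsFiniteMeasure μ₀ ∧
    (∀ᵐ u ∂μ₀, ‖u‖ = 1) ∧
    (∀ W : E n, ∫ Y, ‖Y + W‖ ∂(stdGaussian (E n)) = ∫ u, kap ⟪W, u⟫ ∂μ₀) ∧
    (∀ (m : ℕ) (v : E n), ‖v‖ = 1 →
      ∫ u, (Real.sqrt n * ⟪v, u⟫) ^ (2 * m) ∂μ₀ ≤ C * Real.sqrt n * ((2 * m - 1)‼ : ℕ))

/-- the test vector -/
noncomputable def QX {n N : ℕ} (d : ℕ) (u : Fin N → E n) (r : Fin N → ℝ) (X : E n) : E n :=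
  ∑ j, (r j * He d ⟪u j, X⟫) • u j

/-- PIECE 26 (Gaussian pairings, from `mehler`). -/
def Stm26 : Prop :=
  ∀ (n N d : ℕ) (u : Fin N → E n) (r : Fin N → ℝ) (f : ℝ → ℝ) (μ₀ : Measure (E n)),
    (∀ j, ‖u j‖ = 1) → Continuous f → (∀ a, |f a| ≤ 1) → IsFiniteMeasure μ₀ →
    (∀ᵐ z ∂μ₀, ‖z‖ = 1) →
    MemLp (fun X => ‖QX d u r X‖) 2 (stdGaussian (E n)) ∧
    (∫ X, ‖QX d u r X‖ ^ 2 ∂(stdGaussian (E n))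
      = (d ! : ℝ) * ∑ i, ∑ j, r i * r j * ⟪u i, u j⟫ ^ (d + 1)) ∧
    (∫ X, ∑ i, r i * (f ⟪X, u i⟫ * ⟪QX d u r X, u i⟫) ∂(stdGaussian (E n))
      = (∫ a, f a * He d a ∂(gaussianReal 0 1)) * ∑ i, ∑ j, r i * r j * ⟪u i, u j⟫ ^ (d + 1)) ∧
    (∫ X, (∫ z, f ⟪X, z⟫ * ⟪QX d u r X, z⟫ ∂μ₀) ∂(stdGaussian (E n))
      = (∫ a, f a * He d a ∂(gaussianReal 0 1)) * ∑ i, r i * ∫ z, ⟪u i, z⟫ ^ (d + 1) ∂μ₀) ∧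
    Integrable (fun X => ∑ i, r i * (f ⟪X, u i⟫ * ⟪QX d u r X, u i⟫)) (stdGaussian (E n)) ∧
    Integrable (fun X => ∫ z, f ⟪X, z⟫ * ⟪QX d u r X, z⟫ ∂μ₀) (stdGaussian (E n))

end Pool.Agent.E8helper29.Zn
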