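import Pool.Agent.E8helper29.Zn.Core5
import Pool.Agent.E8helper29.Zn.Stm2

set_option autoImplicit false

namespace Pool.Agent.E8helper29.Zn

open MeasureTheory ProbabilityTheory Pool.Agent.Helper649.Zono
open scoped RealInnerProductSpace Nat NNReal Polynomial

variable {n N : ℕ} {ε C0 : ℝ} {u : Fin N → E n} {r : Fin N → ℝ} {μ₀ : Measure (E n)}

lemma dfac_le (m : ℕ) : (2 * m + 1)‼ ≤ (2 * m + 1) ^ m := by
  induction m with
  | zero => simp
  | succ m ih =>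
    have e : 2 * (m + 1) + 1 = (2 * m + 1) + 2 := by ring
    rw [e, Nat.doubleFactorial_add_two]
    calc (2 * m + 1 + 2) * (2 * m + 1)‼ ≤ (2 * m + 1 + 2) * (2 * m + 1) ^ m :=
          Nat.mul_le_mul_left _ ih
      _ ≤ (2 * m + 1 + 2) * (2 * m + 1 + 2) ^ m :=
          Nat.mul_le_mul_left _ (Nat.pow_le_pow_left (by omega) _)
      _ = (2 * m + 1 + 2) ^ (m + 1) := by ring

lemma small_num (m : ℕ) (hm : 1 ≤ m) :
    (m : ℝ) ^ m * (1 / (4 * (m : ℝ))) ^ (2 * m + 2) * ((2 * m + 1)‼ : ℕ) ≤ (1 / 4 : ℝ) ^ m := by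
  have hm1 : (1 : ℝ) ≤ m := by exact_mod_cast hm
  have h1 : (((2 * m + 1)‼ : ℕ) : ℝ) ≤ (3 * (m : ℝ)) ^ m := by
    calc (((2 * m + 1)‼ : ℕ) : ℝ) ≤ (((2 * m + 1) ^ m : ℕ) : ℝ) := by exact_mod_cast dfac_le m
      _ = (2 * (m : ℝ) + 1) ^ m := by push_cast; ring
      _ ≤ _ := pow_le_pow_left₀ (by positivity) (by linarith) m
  have h2 : (1 / (4 * (m : ℝ))) ^ (2 * m + 2) ≤ ((1 / (4 * (m : ℝ))) ^ 2) ^ m := by
    rw [← pow_mul]
    apply pow_le_pow_of_le_one (by positivity) _ (by omega)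
    rw [div_le_one (by positivity)]; linarith
  calc (m : ℝ) ^ m * (1 / (4 * (m : ℝ))) ^ (2 * m + 2) * ((2 * m + 1)‼ : ℕ)
      ≤ (m : ℝ) ^ m * ((1 / (4 * (m : ℝ))) ^ 2) ^ m * (3 * (m : ℝ)) ^ m := by gcongr
    _ = (3 / 16 : ℝ) ^ m := by
        rw [← mul_pow, ← mul_pow]
        congr 1
        field_simp
        ring
    _ ≤ _ := pow_le_pow_left₀ (by norm_num) (by norm_num) m

/-- total mass -/
lemma Data.univ (D : Data n N 0 ε C0 u r μ₀) : μ₀.real Set.univ ≤ C0 * Real.sqrt n := by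
  have := D.mom 0 le_rfl 0
  simpa using this

/-- the tail bound, both measures -/
lemma Data.tail2 (D : Data n N 0 ε C0 u r μ₀)
    (hmom : ∀ (m : ℕ) (v : E n), ‖v‖ = 1 →
      ∫ z, (Real.sqrt n * ⟪v, z⟫) ^ (2 * m) ∂μ₀ ≤ C0 * Real.sqrt n * ((2 * m - 1)‼ : ℕ))
    {m : ℕ} (hm : 1 ≤ m) (ρ x : Fin (2 * m + 1) → ℝ) (T : ℝ) (hx : ∀ i, 0 ≤ x i)
    (hT : ∑ i, |ρ i| * (2 + x i) ≤ T)
    (hup : ∀ t : ℝ, kk ρ x t ≤ (m : ℝ) ^ m * t ^ (2 * m + 2))
    (v : E n) (hv : ‖v‖ = 1) :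
    ∑ j, r j * kk ρ x (1 / (4 * (m : ℝ)) * (Real.sqrt n * ⟪v, u j⟫))
        + ∫ z, kk ρ x (1 / (4 * (m : ℝ)) * (Real.sqrt n * ⟪v, z⟫)) ∂μ₀
      ≤ Real.sqrt n * (2 * C0 * (1 / 4 : ℝ) ^ m + T * ε) := by
  have hs := sqrt_pos D.hn
  have hm1 : (1 : ℝ) ≤ m := by exact_mod_cast hm
  obtain ⟨η, hη⟩ : ∃ η : ℝ, η = 1 / (4 * (m : ℝ)) := ⟨_, rfl⟩
  have hη0 : 0 < η := by rw [hη]; positivity
  have hη1 : η ≤ 1 := by rw [hη, div_le_one (by positivity)]; linarith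
  have hsm := small_num m hm
  rw [← hη] at hsm ⊢
  let w : Fin (2 * m + 1) × Bool → ℝ := fun a => if a.2 then ρ a.1 else -ρ a.1
  let V : Fin (2 * m + 1) × Bool → E n := fun a =>
    if a.2 then (x a.1 * (η * Real.sqrt n)) • v else 0
  have hk : ∀ z : E n, kk ρ x (η * (Real.sqrt n * ⟪v, z⟫)) = ∑ a, w a * kap ⟪V a, z⟫ := by
    intro z
    unfold kk
    rw [Fintype.sum_prod_type]
    refine Finset.sum_congr rfl fun i _ => ?_
    rw [Fintype.sum_bool]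
    simp only [w, V, if_true, Bool.false_eq_true, if_false, real_inner_smul_left, inner_zero_left]
    rw [show x i * (η * (Real.sqrt n * ⟪v, z⟫)) = x i * (η * Real.sqrt n) * ⟪v, z⟫ by ring]
    ring
  have h := D.combo w V
  have e : ∑ a, |w a| * (Real.sqrt n + ‖V a‖) ≤ Real.sqrt n * T := by
    refine le_trans ?_ (mul_le_mul_of_nonneg_left hT hs.le)
    rw [Fintype.sum_prod_type, Finset.mul_sum]
    refine Finset.sum_le_sum fun i _ => ?_
    rw [Fintype.sum_bool]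
    simp only [w, V, if_true, Bool.false_eq_true, if_false, abs_neg, norm_zero, add_zero,
      norm_smul, hv, mul_one, Real.norm_eq_abs]
    rw [abs_of_nonneg (mul_nonneg (hx i) (mul_nonneg hη0.le hs.le))]
    have h1 : x i * (η * Real.sqrt n) ≤ x i * Real.sqrt n := by
      apply mul_le_mul_of_nonneg_left _ (hx i)
      nlinarith
    have := mul_le_mul_of_nonneg_left h1 (abs_nonneg (ρ i))
    nlinarith
  have hc : Continuous fun z : E n => kk ρ x (η * (Real.sqrt n * ⟪v, z⟫)) := by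
    have := kk_cont ρ x
    fun_prop
  have hint : ∫ z, kk ρ x (η * (Real.sqrt n * ⟪v, z⟫)) ∂μ₀
      ≤ C0 * Real.sqrt n * (1 / 4 : ℝ) ^ m := by
    have h1 : ∫ z, kk ρ x (η * (Real.sqrt n * ⟪v, z⟫)) ∂μ₀
        ≤ ∫ z, ((m : ℝ) ^ m * η ^ (2 * m + 2)) * (Real.sqrt n * ⟪v, z⟫) ^ (2 * (m + 1)) ∂μ₀ := by
      apply integral_mono (D.int _ hc)
      · apply D.int
        fun_prop
      · intro z
        have := hup (η * (Real.sqrt n * ⟪v, z⟫))
        refine this.trans (le_of_eq ?_)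
        simp only
        rw [mul_pow η]; ring
    rw [integral_const_mul] at h1
    have h2 := hmom (m + 1) v hv
    have h3 : (2 * (m + 1) - 1) = 2 * m + 1 := by omega
    rw [h3] at h2
    have h4 : 0 ≤ (m : ℝ) ^ m * η ^ (2 * m + 2) := by positivity
    have h5 := mul_le_mul_of_nonneg_left h2 h4
    have h6 : 0 ≤ C0 * Real.sqrt n := mul_nonneg D.hC hs.le
    have h7 := mul_le_mul_of_nonneg_left hsm h6
    calc _ ≤ _ := h1
      _ ≤ _ := h5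
      _ = C0 * Real.sqrt n * ((m : ℝ) ^ m * η ^ (2 * m + 2) * ((2 * m + 1)‼ : ℕ)) := by ring
      _ ≤ _ := h7
  have h5 : ∑ j, r j * kk ρ x (η * (Real.sqrt n * ⟪v, u j⟫))
      = ∑ j, r j * (∑ a, w a * kap ⟪V a, u j⟫) := by
    refine Finset.sum_congr rfl fun j _ => ?_
    rw [hk]
  have h6 : ∫ z, kk ρ x (η * (Real.sqrt n * ⟪v, z⟫)) ∂μ₀ = ∫ z, (∑ a, w a * kap ⟪V a, z⟫) ∂μ₀ :=
    integral_congr_ae (Filter.Eventually.of_forall fun z => hk z)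
  rw [h5]
  rw [← h6] at h
  have h7 := (abs_le.mp h).2
  have h8 := mul_le_mul_of_nonneg_left e D.hε
  nlinarith

end Pool.Agent.E8helper29.Zn
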