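import Pool.Agent.E8helper29.Zn.As1

set_option autoImplicit false

namespace Pool.Agent.E8helper29.Zn

open MeasureTheory ProbabilityTheory Pool.Agent.Helper649.Zono
open scoped RealInnerProductSpace Nat NNReal Polynomial

variable {n N : ℕ} {ε C0 : ℝ} {u : Fin N → E n} {r : Fin N → ℝ} {μ₀ : Measure (E n)}

/-- the scalar kernel -/
noncomputable def kf {M : ℕ} (β w : Fin M → ℝ) (g s : ℝ) (A b : ℝ) : ℝ :=
  ∑ i, w i * (g / s * kap ((A + β i * (s * b)) / g))

/-- the kernel is close to `phi (A/g) b` -/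
lemma kf_err (h23 : Stm23) (hphi1 : ∀ A, |phi A| ≤ 1) {k M : ℕ} (hk : 1 ≤ k) (β w : Fin M → ℝ)
    (hβ : ∀ i, |β i| ≤ 1) (hw : ∑ i, |w i| ≤ 2 * (k : ℝ) ^ 2)
    (hex : ∀ p : ℝ[X], p.natDegree ≤ k → ∑ i, w i * p.eval (β i) = p.coeff 1)
    (g s : ℝ) (hg : 0 < g) (hs : 0 < s) (A b : ℝ) :
    |kf β w g s A b - phi (A / g) * b| ≤
      if |s * b / g| ≤ 1 then (g / s) * (2 * (k : ℝ) ^ 2) * (2 * (1 + |A / g|) / Real.sqrt ((k + 1)! : ℕ))
      else (2 * (k : ℝ) ^ 2 + 1) * |b| := by
  have hgs : 0 < g / s := by positivity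
  split_ifs with hc
  · obtain ⟨P, hP1, hP2, hP3⟩ := h23 k (A / g) hk
    -- polynomial in the node variable
    obtain ⟨p, hp⟩ : ∃ p : ℝ[X], p = P.comp (Polynomial.C (s * b / g) * Polynomial.X) := ⟨_, rfl⟩
    have hpd : p.natDegree ≤ k := by
      rw [hp]
      refine (Polynomial.natDegree_comp_le).trans ?_
      have : (Polynomial.C (s * b / g) * Polynomial.X : ℝ[X]).natDegree ≤ 1 :=
        (Polynomial.natDegree_C_mul_le _ _).trans Polynomial.natDegree_X_le
      calc P.natDegree * (Polynomial.C (s * b / g) * Polynomial.X : ℝ[X]).natDegree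
          ≤ P.natDegree * 1 := Nat.mul_le_mul_left _ this
        _ ≤ k := by rw [mul_one]; exact hP1
    have hpc : p.coeff 1 = phi (A / g) * (s * b / g) := by
      rw [hp, Polynomial.comp_C_mul_X_coeff, pow_one, hP2]
    have hpe : ∀ i, p.eval (β i) = P.eval (β i * (s * b / g)) := by
      intro i
      rw [hp, Polynomial.eval_comp, Polynomial.eval_mul, Polynomial.eval_C, Polynomial.eval_X,
        mul_comm]
    have h1 := hex p hpd
    rw [hpc] at h1
    have h2 : kf β w g s A b - phi (A / g) * b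
        = ∑ i, w i * ((g / s) * (kap (A / g + β i * (s * b / g)) - P.eval (β i * (s * b / g)))) := by
      have e1 : phi (A / g) * b = (g / s) * ∑ i, w i * p.eval (β i) := by
        rw [h1]; field_simp
      rw [e1]
      unfold kf
      rw [Finset.mul_sum, ← Finset.sum_sub_distrib]
      refine Finset.sum_congr rfl fun i _ => ?_
      rw [hpe]
      have e2 : (A + β i * (s * b)) / g = A / g + β i * (s * b / g) := by field_simp
      rw [e2]; ring
    rw [h2]
    have h3 : ∀ i, |w i * ((g / s) * (kap (A / g + β i * (s * b / g)) - P.eval (β i * (s * b / g))))|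
        ≤ |w i| * ((g / s) * (2 * (1 + |A / g|) / Real.sqrt ((k + 1)! : ℕ))) := by
      intro i
      rw [abs_mul, abs_mul, abs_of_pos hgs]
      apply mul_le_mul_of_nonneg_left _ (abs_nonneg _)
      apply mul_le_mul_of_nonneg_left _ hgs.le
      apply hP3
      rw [abs_mul]
      calc |β i| * |s * b / g| ≤ 1 * 1 := mul_le_mul (hβ i) hc (abs_nonneg _) (by norm_num)
        _ = 1 := by norm_num
    calc _ ≤ ∑ i, |w i * ((g / s) * (kap (A / g + β i * (s * b / g)) - P.eval (β i * (s * b / g))))| :=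
          Finset.abs_sum_le_sum_abs _ _
      _ ≤ ∑ i, |w i| * ((g / s) * (2 * (1 + |A / g|) / Real.sqrt ((k + 1)! : ℕ))) :=
          Finset.sum_le_sum fun i _ => h3 i
      _ = (∑ i, |w i|) * ((g / s) * (2 * (1 + |A / g|) / Real.sqrt ((k + 1)! : ℕ))) := by
          rw [Finset.sum_mul]
      _ ≤ (2 * (k : ℝ) ^ 2) * ((g / s) * (2 * (1 + |A / g|) / Real.sqrt ((k + 1)! : ℕ))) := by
          apply mul_le_mul_of_nonneg_right hw
          positivity
      _ = _ := by ring
  · have h0 : ∑ i, w i = 0 := by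
      have := hex 1 (by simp)
      simpa [Polynomial.coeff_one] using this
    have h1 : kf β w g s A b
        = ∑ i, w i * ((g / s) * (kap ((A + β i * (s * b)) / g) - kap (A / g))) := by
      unfold kf
      have : ∑ i, w i * ((g / s) * (kap ((A + β i * (s * b)) / g) - kap (A / g)))
          = ∑ i, w i * (g / s * kap ((A + β i * (s * b)) / g)) - (∑ i, w i) * (g / s * kap (A / g)) := by
        rw [Finset.sum_mul, ← Finset.sum_sub_distrib]
        refine Finset.sum_congr rfl fun i _ => by ring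
      rw [this, h0]; ring
    have h2 : |kf β w g s A b| ≤ 2 * (k : ℝ) ^ 2 * |b| := by
      rw [h1]
      calc _ ≤ ∑ i, |w i * ((g / s) * (kap ((A + β i * (s * b)) / g) - kap (A / g)))| :=
            Finset.abs_sum_le_sum_abs _ _
        _ ≤ ∑ i, |w i| * |b| := by
            refine Finset.sum_le_sum fun i _ => ?_
            rw [abs_mul, abs_mul, abs_of_pos hgs]
            apply mul_le_mul_of_nonneg_left _ (abs_nonneg _)
            have h3 := kap_lip ((A + β i * (s * b)) / g) (A / g)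
            have h4 : (A + β i * (s * b)) / g - A / g = β i * (s * b) / g := by field_simp; ring
            rw [h4, abs_div, abs_mul, abs_mul, abs_of_pos hs, abs_of_pos hg] at h3
            calc (g / s) * |kap ((A + β i * (s * b)) / g) - kap (A / g)|
                ≤ (g / s) * (|β i| * (s * |b|) / g) := mul_le_mul_of_nonneg_left h3 hgs.le
              _ = |β i| * |b| := by field_simp
              _ ≤ 1 * |b| := mul_le_mul_of_nonneg_right (hβ i) (abs_nonneg _)
              _ = |b| := one_mul _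
        _ = (∑ i, |w i|) * |b| := by rw [Finset.sum_mul]
        _ ≤ _ := mul_le_mul_of_nonneg_right hw (abs_nonneg _)
    calc |kf β w g s A b - phi (A / g) * b| ≤ |kf β w g s A b| + |phi (A / g) * b| := abs_sub _ _
      _ ≤ 2 * (k : ℝ) ^ 2 * |b| + 1 * |b| := by
          rw [abs_mul]
          exact add_le_add h2 (mul_le_mul_of_nonneg_right (hphi1 _) (abs_nonneg _))
      _ = _ := by ring

lemma kf_cont {M : ℕ} (β w : Fin M → ℝ) (g s : ℝ) (v X : E n) :
    Continuous fun z : E n => kf β w g s ⟪X, z⟫ (Real.sqrt n * ⟪v, z⟫) := by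
  unfold kf
  have := kap_cont
  fun_prop

/-- comparison for the kernel -/
lemma Data.kf_comp (D : Data n N 0 ε C0 u r μ₀) {k M : ℕ} (β w : Fin M → ℝ)
    (hβ : ∀ i, |β i| ≤ 1) (hw : ∑ i, |w i| ≤ 2 * (k : ℝ) ^ 2)
    (g s : ℝ) (hg : 0 < g) (hs : 0 < s) (X v : E n) (hv : ‖v‖ = 1) :
    |∑ j, r j * kf β w g s ⟪X, u j⟫ (Real.sqrt n * ⟪v, u j⟫)
        - ∫ z, kf β w g s ⟪X, z⟫ (Real.sqrt n * ⟪v, z⟫) ∂μ₀|
      ≤ ε * (2 * (k : ℝ) ^ 2 * ((g * Real.sqrt n + ‖X‖ + s * Real.sqrt n) / s)) := by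
  have hsn := sqrt_pos D.hn
  let w' : Fin M → ℝ := fun i => w i * (g / s)
  let V : Fin M → E n := fun i => (1 / g) • (X + (β i * (s * Real.sqrt n)) • v)
  have hk : ∀ z : E n, kf β w g s ⟪X, z⟫ (Real.sqrt n * ⟪v, z⟫) = ∑ i, w' i * kap ⟪V i, z⟫ := by
    intro z
    unfold kf
    refine Finset.sum_congr rfl fun i _ => ?_
    simp only [w', V, real_inner_smul_left, inner_add_left]
    have : (⟪X, z⟫ + β i * (s * (Real.sqrt n * ⟪v, z⟫))) / g
        = 1 / g * (⟪X, z⟫ + β i * (s * Real.sqrt n) * ⟪v, z⟫) := by field_simp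
    rw [this]; ring
  have h := D.combo w' V
  have e : ∑ a, |w' a| * (Real.sqrt n + ‖V a‖)
      ≤ 2 * (k : ℝ) ^ 2 * ((g * Real.sqrt n + ‖X‖ + s * Real.sqrt n) / s) := by
    have h1 : ∀ a, |w' a| * (Real.sqrt n + ‖V a‖)
        ≤ |w a| * ((g * Real.sqrt n + ‖X‖ + s * Real.sqrt n) / s) := by
      intro a
      have h2 : ‖V a‖ ≤ (1 / g) * (‖X‖ + s * Real.sqrt n) := by
        simp only [V]
        rw [norm_smul, Real.norm_eq_abs, abs_of_pos (by positivity : (0 : ℝ) < 1 / g)]
        apply mul_le_mul_of_nonneg_left _ (by positivity)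
        refine (norm_add_le _ _).trans ?_
        rw [norm_smul, hv, mul_one, Real.norm_eq_abs, abs_mul,
          abs_of_pos (mul_pos hs hsn)]
        have := mul_le_mul_of_nonneg_right (hβ a) (mul_pos hs hsn).le
        linarith
      have h3 : |w' a| = |w a| * (g / s) := by
        simp only [w']
        rw [abs_mul, abs_of_pos (by positivity : (0 : ℝ) < g / s)]
      rw [h3, mul_assoc]
      apply mul_le_mul_of_nonneg_left _ (abs_nonneg _)
      calc g / s * (Real.sqrt n + ‖V a‖)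
          ≤ g / s * (Real.sqrt n + (1 / g) * (‖X‖ + s * Real.sqrt n)) := by
            apply mul_le_mul_of_nonneg_left _ (by positivity)
            linarith
        _ = _ := by field_simp; ring
    calc _ ≤ ∑ a, |w a| * ((g * Real.sqrt n + ‖X‖ + s * Real.sqrt n) / s) :=
          Finset.sum_le_sum fun a _ => h1 a
      _ = (∑ a, |w a|) * ((g * Real.sqrt n + ‖X‖ + s * Real.sqrt n) / s) := by
          rw [Finset.sum_mul]
      _ ≤ _ := by
          apply mul_le_mul_of_nonneg_right hw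
          positivity
  have h5 : ∑ j, r j * kf β w g s ⟪X, u j⟫ (Real.sqrt n * ⟪v, u j⟫)
      = ∑ j, r j * (∑ a, w' a * kap ⟪V a, u j⟫) :=
    Finset.sum_congr rfl fun j _ => by rw [hk]
  have h6 : ∫ z, kf β w g s ⟪X, z⟫ (Real.sqrt n * ⟪v, z⟫) ∂μ₀
      = ∫ z, (∑ a, w' a * kap ⟪V a, z⟫) ∂μ₀ :=
    integral_congr_ae (Filter.Eventually.of_forall fun z => hk z)
  rw [h5, h6]
  exact h.trans (mul_le_mul_of_nonneg_left e D.hε)

end Pool.Agent.E8helper29.Zn
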