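import Pool.Agent.E8helper29.Zn.As2

set_option autoImplicit false

namespace Pool.Agent.E8helper29.Zn

open MeasureTheory ProbabilityTheory Pool.Agent.Helper649.Zono
open scoped RealInnerProductSpace Nat NNReal Polynomial

variable {n N : ℕ} {ε C0 : ℝ} {u : Fin N → E n} {r : Fin N → ℝ} {μ₀ : Measure (E n)}

/-- the linear functional (one Gaussian direction) -/
noncomputable def dl2 (u : Fin N → E n) (r : Fin N → ℝ) (μ₀ : Measure (E n)) (g : ℝ)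
    (X v : E n) : ℝ :=
  ∑ j, r j * (phi (⟪X, u j⟫ / g) * ⟪v, u j⟫) - ∫ z, phi (⟪X, z⟫ / g) * ⟪v, z⟫ ∂μ₀

lemma fact_bound (k : ℕ) : 1 / Real.sqrt ((k + 1)! : ℕ) ≤ Real.exp 8 * (1 / 4 : ℝ) ^ k := by
  have h1 : (16 : ℝ) ^ k / (k ! : ℝ) ≤ Real.exp 16 := Real.pow_div_factorial_le_exp 16 (by norm_num) k
  have hk : (0 : ℝ) < (k ! : ℝ) := by exact_mod_cast Nat.factorial_pos k
  rw [div_le_iff₀ hk] at h1
  have h2 : ((k ! : ℕ) : ℝ) ≤ (((k + 1)! : ℕ) : ℝ) := by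
    exact_mod_cast Nat.factorial_le (Nat.le_succ k)
  have hk1 : (0 : ℝ) < (((k + 1)! : ℕ) : ℝ) := by exact_mod_cast Nat.factorial_pos _
  have h3 : (16 : ℝ) ^ k ≤ Real.exp 16 * (((k + 1)! : ℕ) : ℝ) :=
    h1.trans (mul_le_mul_of_nonneg_left h2 (Real.exp_pos _).le)
  have h4 : (4 : ℝ) ^ k ≤ Real.exp 8 * Real.sqrt ((k + 1)! : ℕ) := by
    have e1 : (4 : ℝ) ^ k = Real.sqrt ((16 : ℝ) ^ k) := by
      rw [show (16 : ℝ) ^ k = ((4 : ℝ) ^ k) ^ 2 by rw [← pow_mul, mul_comm, pow_mul]; norm_num,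
        Real.sqrt_sq (by positivity)]
    have e2 : Real.exp 8 * Real.sqrt ((k + 1)! : ℕ)
        = Real.sqrt (Real.exp 16 * (((k + 1)! : ℕ) : ℝ)) := by
      rw [Real.sqrt_mul (Real.exp_pos _).le]
      congr 1
      rw [show Real.exp 16 = Real.exp 8 ^ 2 by rw [← Real.exp_nat_mul]; norm_num,
        Real.sqrt_sq (Real.exp_pos _).le]
    rw [e1, e2]
    exact Real.sqrt_le_sqrt h3
  have hs : 0 < Real.sqrt ((k + 1)! : ℕ) := Real.sqrt_pos.mpr hk1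
  rw [div_le_iff₀ hs, one_div_pow]
  rw [mul_assoc, mul_comm (1 / (4 : ℝ) ^ k), ← mul_assoc, mul_one_div, le_div_iff₀ (by positivity)]
  linarith

theorem dl2_bound (h21 : Stm21) (h22 : Stm22) (h23 : Stm23) (hphic : Continuous phi)
    (hphi1 : ∀ A, |phi A| ≤ 1) (C0 : ℝ) (hC0 : 0 ≤ C0) :
    ∃ K : ℝ, 0 ≤ K ∧ ∀ (n N : ℕ) (ε : ℝ) (u : Fin N → E n) (r : Fin N → ℝ) (μ₀ : Measure (E n)),
      Data n N 0 ε C0 u r μ₀ → ε ≤ 1 →
      (∀ (m : ℕ) (v : E n), ‖v‖ = 1 →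
        ∫ z, (Real.sqrt n * ⟪v, z⟫) ^ (2 * m) ∂μ₀ ≤ C0 * Real.sqrt n * ((2 * m - 1)‼ : ℕ)) →
      ∀ k : ℕ, 1 ≤ k → ∀ X v : E n, ‖v‖ = 1 →
      |dl2 u r μ₀ (1 / (k : ℝ)) X v| ≤ K * (k : ℝ) ^ 4 *
        ((ε + (1 / 4 : ℝ) ^ k) + (ε / Real.sqrt n + (1 / 4 : ℝ) ^ k) * ‖X‖) := by
  obtain ⟨c, C1, hc, hC1, h22'⟩ := h22
  have hk0 := kap_zero_pos
  obtain ⟨R0, hR0⟩ : ∃ R0 : ℝ, R0 = C0 + 1 / kap 0 := ⟨_, rfl⟩
  have hR00 : 0 ≤ R0 := by rw [hR0]; positivity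
  refine ⟨64 + 64 * (R0 + C0) * Real.exp 8 + 12 / c * (2 * C0 + C1), by positivity, ?_⟩
  intro n N ε u r μ₀ D hε1 hmom k hk X v hv
  haveI := D.fin
  have hsn := sqrt_pos D.hn
  have hε := D.hε
  have hkr : (1 : ℝ) ≤ k := by exact_mod_cast hk
  have hk00 : (0 : ℝ) < k := by linarith
  obtain ⟨M, β, w, hβ, hw, hex⟩ := h21 k hk
  obtain ⟨ρ, x, hx, hT, hpos, hup, hgr⟩ := h22' k hk
  have hpos' : ∀ t, 0 ≤ kk ρ x t := hpos
  have hgr' : ∀ t : ℝ, 4 ≤ |t| → c * |t| ≤ kk ρ x t := hgr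
  obtain ⟨g, hg⟩ : ∃ g : ℝ, g = 1 / (k : ℝ) := ⟨_, rfl⟩
  obtain ⟨s, hs⟩ : ∃ s : ℝ, s = 1 / (16 * (k : ℝ) ^ 2) := ⟨_, rfl⟩
  have hg0 : 0 < g := by rw [hg]; positivity
  have hs0 : 0 < s := by rw [hs]; positivity
  have hgs : g / s = 16 * k := by rw [hg, hs]; field_simp
  rw [← hg]
  -- abbreviations
  set η : ℝ := 1 / (4 * (k : ℝ)) with hη
  set q : ℝ := (1 / 4 : ℝ) ^ k with hq
  have hq0 : 0 ≤ q := by positivity
  obtain ⟨E1, hE1⟩ : ∃ E1 : ℝ, E1 = 64 * (k : ℝ) ^ 3 * (1 + k * ‖X‖) * (Real.exp 8 * q) := ⟨_, rfl⟩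
  have hE10 : 0 ≤ E1 := by rw [hE1]; positivity
  -- pointwise bound
  have hpt : ∀ z : E n, ‖z‖ = 1 →
      |kf β w g s ⟪X, z⟫ (Real.sqrt n * ⟪v, z⟫) - phi (⟪X, z⟫ / g) * (Real.sqrt n * ⟪v, z⟫)|
        ≤ E1 + 12 * (k : ℝ) ^ 3 / c * kk ρ x (η * (Real.sqrt n * ⟪v, z⟫)) := by
    intro z hz
    have h := kf_err h23 hphi1 hk β w hβ hw hex g s hg0 hs0 ⟪X, z⟫ (Real.sqrt n * ⟪v, z⟫)
    have hA : |⟪X, z⟫| ≤ ‖X‖ := by
      have := abs_real_inner_le_norm X z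
      rwa [hz, mul_one] at this
    have hkk := hpos' (η * (Real.sqrt n * ⟪v, z⟫))
    have hkk2 : 0 ≤ 12 * (k : ℝ) ^ 3 / c * kk ρ x (η * (Real.sqrt n * ⟪v, z⟫)) := by positivity
    split_ifs at h with hcase
    · have h2 : (g / s) * (2 * (k : ℝ) ^ 2) * (2 * (1 + |⟪X, z⟫ / g|) / Real.sqrt ((k + 1)! : ℕ))
          ≤ E1 := by
        rw [hgs, hE1]
        have h3 : |⟪X, z⟫ / g| ≤ k * ‖X‖ := by
          rw [abs_div, abs_of_pos hg0, hg, div_div_eq_mul_div, div_one, mul_comm]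
          exact mul_le_mul_of_nonneg_left hA hk00.le
        have h4 := fact_bound k
        rw [← hq] at h4
        calc 16 * (k : ℝ) * (2 * (k : ℝ) ^ 2) * (2 * (1 + |⟪X, z⟫ / g|) / Real.sqrt ((k + 1)! : ℕ))
            = 64 * (k : ℝ) ^ 3 * (1 + |⟪X, z⟫ / g|) * (1 / Real.sqrt ((k + 1)! : ℕ)) := by ring
          _ ≤ 64 * (k : ℝ) ^ 3 * (1 + k * ‖X‖) * (Real.exp 8 * q) := by
              apply mul_le_mul _ h4 (by positivity) (by positivity)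
              apply mul_le_mul_of_nonneg_left _ (by positivity)
              linarith
      linarith
    · rw [not_le] at hcase
      obtain ⟨b, hb⟩ : ∃ b : ℝ, b = Real.sqrt n * ⟪v, z⟫ := ⟨_, rfl⟩
      rw [← hb] at h hcase hkk hkk2 ⊢
      have e1 : s * b / g = b / (16 * k) := by
        rw [hs, hg]; field_simp
      rw [e1, abs_div, abs_of_pos (by positivity : (0 : ℝ) < 16 * k), lt_div_iff₀ (by positivity)]
        at hcase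
      have e2 : |η * b| = |b| / (4 * k) := by
        rw [hη, abs_mul, abs_of_pos (by positivity : (0 : ℝ) < 1 / (4 * (k : ℝ)))]
        ring
      have h4 : 4 ≤ |η * b| := by
        rw [e2, le_div_iff₀ (by positivity)]; linarith
      have h5 := hgr' (η * b) h4
      rw [e2] at h5
      have h6 : |b| ≤ 4 * k / c * kk ρ x (η * b) := by
        rw [div_mul_eq_mul_div, le_div_iff₀ hc]
        have h7 : c * (|b| / (4 * k)) * (4 * k) = |b| * c := by field_simp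
        have h8 := mul_le_mul_of_nonneg_right h5 (by positivity : (0 : ℝ) ≤ 4 * k)
        linarith
      have h9 : (2 * (k : ℝ) ^ 2 + 1) ≤ 3 * (k : ℝ) ^ 2 := by nlinarith
      calc _ ≤ (2 * (k : ℝ) ^ 2 + 1) * |b| := h
        _ ≤ 3 * (k : ℝ) ^ 2 * (4 * k / c * kk ρ x (η * b)) :=
            mul_le_mul h9 h6 (abs_nonneg _) (by positivity)
        _ = 12 * (k : ℝ) ^ 3 / c * kk ρ x (η * b) := by ring
        _ ≤ _ := by linarith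
  -- continuity
  have hc1 := kf_cont β w g s v X
  have hc2 : Continuous fun z : E n => phi (⟪X, z⟫ / g) * (Real.sqrt n * ⟪v, z⟫) := by fun_prop
  have hc3 : Continuous fun z : E n => kk ρ x (η * (Real.sqrt n * ⟪v, z⟫)) := by
    have := kk_cont ρ x
    fun_prop
  -- the three parts
  have t1 := D.kf_comp (k := k) β w hβ hw g s hg0 hs0 X v hv
  have t2 : |∑ j, r j * kf β w g s ⟪X, u j⟫ (Real.sqrt n * ⟪v, u j⟫)
      - ∑ j, r j * (phi (⟪X, u j⟫ / g) * (Real.sqrt n * ⟪v, u j⟫))|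
      ≤ (∑ j, r j) * E1 + 12 * (k : ℝ) ^ 3 / c *
        ∑ j, r j * kk ρ x (η * (Real.sqrt n * ⟪v, u j⟫)) := by
    rw [← Finset.sum_sub_distrib]
    calc _ ≤ ∑ j, |r j * kf β w g s ⟪X, u j⟫ (Real.sqrt n * ⟪v, u j⟫)
          - r j * (phi (⟪X, u j⟫ / g) * (Real.sqrt n * ⟪v, u j⟫))| := Finset.abs_sum_le_sum_abs _ _
      _ ≤ ∑ j, (r j * E1 + 12 * (k : ℝ) ^ 3 / c *
            (r j * kk ρ x (η * (Real.sqrt n * ⟪v, u j⟫)))) := by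
          refine Finset.sum_le_sum fun j _ => ?_
          rw [← mul_sub, abs_mul, abs_of_nonneg (D.hr j)]
          have := mul_le_mul_of_nonneg_left (hpt (u j) (D.hu j)) (D.hr j)
          linarith
      _ = _ := by
          rw [Finset.sum_add_distrib, Finset.sum_mul, Finset.mul_sum]
  have t3 : |∫ z, kf β w g s ⟪X, z⟫ (Real.sqrt n * ⟪v, z⟫) ∂μ₀
      - ∫ z, phi (⟪X, z⟫ / g) * (Real.sqrt n * ⟪v, z⟫) ∂μ₀|
      ≤ (C0 * Real.sqrt n) * E1 + 12 * (k : ℝ) ^ 3 / c *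
        ∫ z, kk ρ x (η * (Real.sqrt n * ⟪v, z⟫)) ∂μ₀ := by
    rw [← integral_sub (D.int _ hc1) (D.int _ hc2)]
    calc _ ≤ ∫ z, |kf β w g s ⟪X, z⟫ (Real.sqrt n * ⟪v, z⟫)
          - phi (⟪X, z⟫ / g) * (Real.sqrt n * ⟪v, z⟫)| ∂μ₀ := abs_integral_le_integral_abs
      _ ≤ ∫ z, (E1 + 12 * (k : ℝ) ^ 3 / c * kk ρ x (η * (Real.sqrt n * ⟪v, z⟫))) ∂μ₀ := by
          apply integral_mono_ae
          · exact D.int _ ((hc1.sub hc2).abs)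
          · exact D.int _ (by fun_prop)
          · filter_upwards [D.unit] with z hz
            exact hpt z hz
      _ = μ₀.real Set.univ * E1 + 12 * (k : ℝ) ^ 3 / c *
            ∫ z, kk ρ x (η * (Real.sqrt n * ⟪v, z⟫)) ∂μ₀ := by
          rw [integral_add (integrable_const _) (D.int _ (by fun_prop)), integral_const,
            integral_const_mul, smul_eq_mul]
      _ ≤ _ := by
          have := mul_le_mul_of_nonneg_right D.univ hE10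
          linarith
  have t4 := D.tail2 hmom hk ρ x (C1 * k) hx hT hup v hv
  rw [← hη, ← hq] at t4
  -- scaling
  have hsc : Real.sqrt n * dl2 u r μ₀ g X v
      = ∑ j, r j * (phi (⟪X, u j⟫ / g) * (Real.sqrt n * ⟪v, u j⟫))
        - ∫ z, phi (⟪X, z⟫ / g) * (Real.sqrt n * ⟪v, z⟫) ∂μ₀ := by
    unfold dl2
    rw [mul_sub, Finset.mul_sum, ← integral_const_mul]
    congr 1
    · refine Finset.sum_congr rfl fun j _ => by ring
    · refine integral_congr_ae (Filter.Eventually.of_forall fun z => ?_)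
      simp only; ring
  have hR : ∑ j, r j ≤ R0 * Real.sqrt n := by rw [hR0]; exact D.mass hε1
  have h1 : |Real.sqrt n * dl2 u r μ₀ g X v| ≤
      ε * (2 * (k : ℝ) ^ 2 * ((g * Real.sqrt n + ‖X‖ + s * Real.sqrt n) / s))
      + ((R0 * Real.sqrt n) * E1 + (C0 * Real.sqrt n) * E1)
      + 12 * (k : ℝ) ^ 3 / c * (Real.sqrt n * (2 * C0 * q + C1 * k * ε)) := by
    rw [hsc]
    obtain ⟨a1, ha1⟩ : ∃ a1, a1 = ∑ j, r j * kf β w g s ⟪X, u j⟫ (Real.sqrt n * ⟪v, u j⟫) := ⟨_, rfl⟩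
    obtain ⟨a2, ha2⟩ : ∃ a2, a2 = ∫ z, kf β w g s ⟪X, z⟫ (Real.sqrt n * ⟪v, z⟫) ∂μ₀ := ⟨_, rfl⟩
    obtain ⟨a3, ha3⟩ : ∃ a3, a3 = ∑ j, r j * (phi (⟪X, u j⟫ / g) * (Real.sqrt n * ⟪v, u j⟫)) :=
      ⟨_, rfl⟩
    obtain ⟨a4, ha4⟩ : ∃ a4, a4 = ∫ z, phi (⟪X, z⟫ / g) * (Real.sqrt n * ⟪v, z⟫) ∂μ₀ := ⟨_, rfl⟩
    rw [← ha1, ← ha2] at t1
    rw [← ha1, ← ha3] at t2
    rw [← ha2, ← ha4] at t3
    rw [← ha3, ← ha4]
    have h2 : |a3 - a4| ≤ |a1 - a2| + |a1 - a3| + |a2 - a4| := by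
      have := abs_add_three (a1 - a2) (-(a1 - a3)) (a2 - a4)
      rw [abs_neg] at this
      refine le_trans (le_of_eq ?_) this
      congr 1; ring
    have h3 := mul_le_mul_of_nonneg_right hR hE10
    have h4 := mul_le_mul_of_nonneg_left t4 (by positivity : (0 : ℝ) ≤ 12 * (k : ℝ) ^ 3 / c)
    rw [mul_add] at h4
    linarith
  rw [abs_mul, abs_of_pos hsn] at h1
  have h2 : ε * (2 * (k : ℝ) ^ 2 * ((g * Real.sqrt n + ‖X‖ + s * Real.sqrt n) / s))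
      ≤ Real.sqrt n * (64 * (k : ℝ) ^ 4 * ε + 32 * (k : ℝ) ^ 4 * (ε / Real.sqrt n) * ‖X‖) := by
    have e1 : (g * Real.sqrt n + ‖X‖ + s * Real.sqrt n) ≤ 2 * Real.sqrt n + ‖X‖ := by
      have g1 : g ≤ 1 := by rw [hg, div_le_one hk00]; exact hkr
      have s1 : s ≤ 1 := by
        rw [hs, div_le_one (by positivity)]
        nlinarith
      nlinarith
    have e2 : (g * Real.sqrt n + ‖X‖ + s * Real.sqrt n) / s
        ≤ 16 * (k : ℝ) ^ 2 * (2 * Real.sqrt n + ‖X‖) := by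
      rw [div_le_iff₀ hs0]
      have : 16 * (k : ℝ) ^ 2 * (2 * Real.sqrt n + ‖X‖) * s = 2 * Real.sqrt n + ‖X‖ := by
        rw [hs]; field_simp
      rw [this]; exact e1
    calc _ ≤ ε * (2 * (k : ℝ) ^ 2 * (16 * (k : ℝ) ^ 2 * (2 * Real.sqrt n + ‖X‖))) := by
          apply mul_le_mul_of_nonneg_left _ hε
          apply mul_le_mul_of_nonneg_left e2 (by positivity)
      _ = _ := by field_simp; ring
  have h3 : |dl2 u r μ₀ g X v| ≤ (64 * (k : ℝ) ^ 4 * ε + 32 * (k : ℝ) ^ 4 * (ε / Real.sqrt n) * ‖X‖)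
      + (R0 + C0) * E1 + 12 * (k : ℝ) ^ 3 / c * (2 * C0 * q + C1 * k * ε) := by
    apply le_of_mul_le_mul_left _ hsn
    calc _ ≤ _ := h1
      _ ≤ _ := by nlinarith
  refine h3.trans ?_
  rw [hE1]
  have hX0 : 0 ≤ ‖X‖ := norm_nonneg _
  have k34 : (k : ℝ) ^ 3 ≤ (k : ℝ) ^ 4 := pow_le_pow_right₀ hkr (by norm_num)
  have he8 : 0 < Real.exp 8 := Real.exp_pos _
  have b1 : (R0 + C0) * (64 * (k : ℝ) ^ 3 * (1 + k * ‖X‖) * (Real.exp 8 * q))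
      ≤ 64 * (R0 + C0) * Real.exp 8 * (k : ℝ) ^ 4 * (q + q * ‖X‖) := by
    have e1 : (k : ℝ) ^ 3 * (1 + k * ‖X‖) ≤ (k : ℝ) ^ 4 * (1 + ‖X‖) := by
      have : (k : ℝ) ^ 3 * (1 + k * ‖X‖) = (k : ℝ) ^ 3 + (k : ℝ) ^ 4 * ‖X‖ := by ring
      rw [this]; nlinarith
    have e2 : 0 ≤ 64 * (R0 + C0) * Real.exp 8 * q := by positivity
    calc _ = 64 * (R0 + C0) * Real.exp 8 * q * ((k : ℝ) ^ 3 * (1 + k * ‖X‖)) := by ring
      _ ≤ 64 * (R0 + C0) * Real.exp 8 * q * ((k : ℝ) ^ 4 * (1 + ‖X‖)) :=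
          mul_le_mul_of_nonneg_left e1 e2
      _ = _ := by ring
  have b2 : 12 * (k : ℝ) ^ 3 / c * (2 * C0 * q + C1 * k * ε)
      ≤ 12 / c * (2 * C0 + C1) * (k : ℝ) ^ 4 * (ε + q) := by
    have e1 : (k : ℝ) ^ 3 * (2 * C0 * q + C1 * k * ε) ≤ (k : ℝ) ^ 4 * ((2 * C0 + C1) * (ε + q)) := by
      have e2 : (k : ℝ) ^ 3 * (2 * C0 * q + C1 * k * ε)
          = (k : ℝ) ^ 3 * (2 * C0 * q) + (k : ℝ) ^ 4 * (C1 * ε) := by ring
      rw [e2]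
      have e3 : (k : ℝ) ^ 3 * (2 * C0 * q) ≤ (k : ℝ) ^ 4 * (2 * C0 * q) :=
        mul_le_mul_of_nonneg_right k34 (by positivity)
      have e4 : (k : ℝ) ^ 4 * ((2 * C0 + C1) * (ε + q))
          = (k : ℝ) ^ 4 * (2 * C0 * q) + (k : ℝ) ^ 4 * (C1 * ε) + (k : ℝ) ^ 4 * (2 * C0 * ε + C1 * q) := by
        ring
      rw [e4]
      have : 0 ≤ (k : ℝ) ^ 4 * (2 * C0 * ε + C1 * q) := by positivity
      linarith
    calc _ = 12 / c * ((k : ℝ) ^ 3 * (2 * C0 * q + C1 * k * ε)) := by ring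
      _ ≤ 12 / c * ((k : ℝ) ^ 4 * ((2 * C0 + C1) * (ε + q))) :=
          mul_le_mul_of_nonneg_left e1 (by positivity)
      _ = _ := by ring
  -- final comparison
  obtain ⟨α, hα⟩ : ∃ α : ℝ, α = (k : ℝ) ^ 4 := ⟨_, rfl⟩
  obtain ⟨θ, hθ⟩ : ∃ θ : ℝ, θ = ε / Real.sqrt n * ‖X‖ := ⟨_, rfl⟩
  have hα0 : 0 ≤ α := by rw [hα]; positivity
  have hθ0 : 0 ≤ θ := by rw [hθ]; positivity
  obtain ⟨k2, hk2⟩ : ∃ k2 : ℝ, k2 = 64 * (R0 + C0) * Real.exp 8 := ⟨_, rfl⟩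
  obtain ⟨k3, hk3⟩ : ∃ k3 : ℝ, k3 = 12 / c * (2 * C0 + C1) := ⟨_, rfl⟩
  have hk20 : 0 ≤ k2 := by rw [hk2]; positivity
  have hk30 : 0 ≤ k3 := by rw [hk3]; positivity
  rw [← hα, ← hk2] at b1
  rw [← hα, ← hk3] at b2
  rw [← hα, ← hk2, ← hk3]
  have b0 : 64 * α * ε + 32 * α * (ε / Real.sqrt n) * ‖X‖ = 64 * (α * ε) + 32 * (α * θ) := by
    rw [hθ]; ring
  have b4 : (64 + k2 + k3) * α * (ε + q + (ε / Real.sqrt n + q) * ‖X‖)
      = (64 + k2 + k3) * (α * ε + α * q + α * θ + α * (q * ‖X‖)) := by rw [hθ]; ring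
  rw [b0, b4]
  have c1 : 0 ≤ α * ε := by positivity
  have c2 : 0 ≤ α * q := by positivity
  have c3 : 0 ≤ α * θ := by positivity
  have c4 : 0 ≤ α * (q * ‖X‖) := by positivity
  have b5 : k2 * α * (q + q * ‖X‖) = k2 * (α * q) + k2 * (α * (q * ‖X‖)) := by ring
  have b6 : k3 * α * (ε + q) = k3 * (α * ε) + k3 * (α * q) := by ring
  rw [b5] at b1
  rw [b6] at b2
  have d1 := mul_nonneg hk20 c1
  have d2 := mul_nonneg hk20 c3
  have d3 := mul_nonneg hk30 c3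
  have d4 := mul_nonneg hk30 c4
  have b7 : (64 + k2 + k3) * (α * ε + α * q + α * θ + α * (q * ‖X‖))
      = 64 * (α * ε) + 64 * (α * q) + 64 * (α * θ) + 64 * (α * (q * ‖X‖))
        + (k2 * (α * ε) + k2 * (α * q) + k2 * (α * θ) + k2 * (α * (q * ‖X‖)))
        + (k3 * (α * ε) + k3 * (α * q) + k3 * (α * θ) + k3 * (α * (q * ‖X‖))) := by ring
  rw [b7]
  linarith

end Pool.Agent.E8helper29.Zn
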