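import Pool.Agent.E8helper29.Zn.As3

set_option autoImplicit false

namespace Pool.Agent.E8helper29.Zn

open MeasureTheory ProbabilityTheory Pool.Agent.Helper649.Zono
open scoped RealInnerProductSpace Nat NNReal Polynomial

variable {n N : ℕ} {ε C0 : ℝ} {u : Fin N → E n} {r : Fin N → ℝ} {μ₀ : Measure (E n)}

lemma dl2_smul (g : ℝ) (X : E n) (c : ℝ) (v : E n) :
    dl2 u r μ₀ g X (c • v) = c * dl2 u r μ₀ g X v := by
  unfold dl2
  simp only [real_inner_smul_left]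
  rw [mul_sub, Finset.mul_sum, ← integral_const_mul]
  congr 1
  · refine Finset.sum_congr rfl fun j _ => by ring
  · refine integral_congr_ae (Filter.Eventually.of_forall fun z => ?_)
    simp only; ring

lemma dl2_le (D : Data n N 0 ε C0 u r μ₀) (g : ℝ) (X : E n) (B : ℝ)
    (hB : ∀ v : E n, ‖v‖ = 1 → |dl2 u r μ₀ g X v| ≤ B) (v : E n) :
    |dl2 u r μ₀ g X v| ≤ B * ‖v‖ := by
  obtain ⟨y, hy, hv⟩ := exists_unit D.hn v
  rw [hv, dl2_smul, norm_smul, hy, mul_one, norm_norm, mul_comm B, abs_mul, abs_norm]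
  exact mul_le_mul_of_nonneg_left (hB y hy) (norm_nonneg _)

/-- the key inequality for the sum `S` -/
theorem S_bound (h21 : Stm21) (h22 : Stm22) (h23 : Stm23) (h24 : Stm24) (h26 : Stm26)
    (C0 : ℝ) (hC0 : 0 ≤ C0) :
    ∃ K : ℝ, 0 ≤ K ∧ ∀ (n N : ℕ) (ε : ℝ) (u : Fin N → E n) (r : Fin N → ℝ) (μ₀ : Measure (E n)),
      Data n N 0 ε C0 u r μ₀ → ε ≤ 1 →
      (∀ (m : ℕ) (v : E n), ‖v‖ = 1 →
        ∫ z, (Real.sqrt n * ⟪v, z⟫) ^ (2 * m) ∂μ₀ ≤ C0 * Real.sqrt n * ((2 * m - 1)‼ : ℕ)) →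
      ∀ k : ℕ, 1 ≤ k →
      ∑ i, ∑ j, r i * r j * ⟪u i, u j⟫ ^ (2 * k)
        ≤ 2 * (∑ i, r i * ∫ z, ⟪u i, z⟫ ^ (2 * k) ∂μ₀)
          + K * (k : ℝ) ^ 10 * (ε + Real.sqrt n * (1 / 4 : ℝ) ^ k) ^ 2 := by
  obtain ⟨hphic, hphi1, C24, hC24, h24'⟩ := h24
  obtain ⟨K, hK, hdl⟩ := dl2_bound h21 h22 h23 hphic hphi1 C0 hC0
  refine ⟨16 * C24 * K ^ 2, by positivity, ?_⟩
  intro n N ε u r μ₀ D hε1 hmom k hk
  haveI := D.fin
  have hsn := sqrt_pos D.hn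
  have hn0 : (0 : ℝ) < n := by exact_mod_cast D.hn
  have hε := D.hε
  have hkr : (1 : ℝ) ≤ k := by exact_mod_cast hk
  have hk00 : (0 : ℝ) < k := by linarith
  obtain ⟨g, hg⟩ : ∃ g : ℝ, g = 1 / (k : ℝ) := ⟨_, rfl⟩
  have hg0 : 0 < g := by rw [hg]; positivity
  obtain ⟨f, hf⟩ : ∃ f : ℝ → ℝ, f = fun a => phi (a / g) := ⟨_, rfl⟩
  have hfc : Continuous f := by rw [hf]; fun_prop
  have hf1 : ∀ a, |f a| ≤ 1 := by intro a; rw [hf]; exact hphi1 _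
  obtain ⟨d, hd⟩ : ∃ d : ℕ, d = 2 * k - 1 := ⟨_, rfl⟩
  have hd1 : d + 1 = 2 * k := by omega
  obtain ⟨hQ2, hQsq, hp1, hp2, hi1, hi2⟩ := h26 n N d u r f μ₀ D.hu hfc hf1 D.fin D.unit
  obtain ⟨ck, hck⟩ : ∃ ck : ℝ, ck = ∫ a, f a * He d a ∂(gaussianReal 0 1) := ⟨_, rfl⟩
  obtain ⟨S, hS⟩ : ∃ S : ℝ, S = ∑ i, ∑ j, r i * r j * ⟪u i, u j⟫ ^ (d + 1) := ⟨_, rfl⟩
  obtain ⟨Mk, hMk⟩ : ∃ Mk : ℝ, Mk = ∑ i, r i * ∫ z, ⟪u i, z⟫ ^ (d + 1) ∂μ₀ := ⟨_, rfl⟩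
  rw [← hS] at hQsq hp1
  rw [← hck] at hp1 hp2
  rw [← hMk] at hp2
  rw [hd1] at hS hMk
  rw [← hS, ← hMk]
  have hev : Even (2 * k) := ⟨k, by ring⟩
  have hS0 : 0 ≤ S := by
    rw [hS]
    exact Finset.sum_nonneg fun i _ => Finset.sum_nonneg fun j _ =>
      mul_nonneg (mul_nonneg (D.hr i) (D.hr j)) (hev.pow_nonneg _)
  have hMk0 : 0 ≤ Mk := by
    rw [hMk]
    exact Finset.sum_nonneg fun i _ => mul_nonneg (D.hr i)
      (integral_nonneg fun z => hev.pow_nonneg _)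
  -- coefficient
  have hgk : g ^ 2 * k ≤ 1 := by
    rw [hg, div_pow, one_pow, div_mul_eq_mul_div, one_mul, div_le_one (by positivity)]
    nlinarith
  have h24k := h24' k g hk hg0 hgk
  have hck' : ∫ a, phi (a / g) * He (2 * k - 1) a ∂(gaussianReal 0 1) = ck := by
    rw [hck, hf, hd]
  rw [hck', ← hd] at h24k
  have hfact : (0 : ℝ) < (d ! : ℝ) := by exact_mod_cast Nat.factorial_pos d
  -- the functional along QX
  have hdlQ : ∀ X : E n, dl2 u r μ₀ g X (QX d u r X)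
      = ∑ i, r i * (f ⟪X, u i⟫ * ⟪QX d u r X, u i⟫) - ∫ z, f ⟪X, z⟫ * ⟪QX d u r X, z⟫ ∂μ₀ := by
    intro X
    unfold dl2
    rw [hf]
  have hint : ∫ X, dl2 u r μ₀ g X (QX d u r X) ∂(stdGaussian (E n)) = ck * (S - Mk) := by
    simp only [hdlQ]
    rw [integral_sub hi1 hi2, hp1, hp2]; ring
  have hdi : Integrable (fun X => dl2 u r μ₀ g X (QX d u r X)) (stdGaussian (E n)) := by
    simp only [hdlQ]
    exact hi1.sub hi2
  -- the bound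
  obtain ⟨q, hq⟩ : ∃ q : ℝ, q = (1 / 4 : ℝ) ^ k := ⟨_, rfl⟩
  have hq0 : 0 ≤ q := by rw [hq]; positivity
  obtain ⟨a0, ha0⟩ : ∃ a0 : ℝ, a0 = K * (k : ℝ) ^ 4 * (ε + q) := ⟨_, rfl⟩
  obtain ⟨a1, ha1⟩ : ∃ a1 : ℝ, a1 = K * (k : ℝ) ^ 4 * (ε / Real.sqrt n + q) := ⟨_, rfl⟩
  have ha00 : 0 ≤ a0 := by rw [ha0]; positivity
  have ha10 : 0 ≤ a1 := by rw [ha1]; positivity
  have hB : ∀ X : E n, |dl2 u r μ₀ g X (QX d u r X)| ≤ (a0 + a1 * ‖X‖) * ‖QX d u r X‖ := by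
    intro X
    apply dl2_le D
    intro v hv
    have := hdl n N ε u r μ₀ D hε1 hmom k hk X v hv
    rw [← hg, ← hq] at this
    refine this.trans (le_of_eq ?_)
    rw [ha0, ha1]; ring
  have hB2 : MemLp (fun X : E n => a0 + a1 * ‖X‖) 2 (stdGaussian (E n)) :=
    (memLp_const a0).add (memLp_norm833.const_mul a1)
  have hBsq : ∫ X : E n, (a0 + a1 * ‖X‖) ^ 2 ∂(stdGaussian (E n)) ≤ 2 * a0 ^ 2 + 2 * a1 ^ 2 * n := by
    have hni : Integrable (fun X : E n => ‖X‖ ^ 2) (stdGaussian (E n)) := memLp_norm833.integrable_sq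
    calc _ ≤ ∫ X : E n, (2 * a0 ^ 2 + 2 * a1 ^ 2 * ‖X‖ ^ 2) ∂(stdGaussian (E n)) := by
          apply integral_mono hB2.integrable_sq ((integrable_const _).add (hni.const_mul _))
          intro X
          simp only [Pi.add_apply]
          nlinarith [sq_nonneg (a0 - a1 * ‖X‖)]
      _ = _ := by
          rw [integral_add (integrable_const _) (hni.const_mul _), integral_const,
            integral_const_mul (2 * a1 ^ 2), norm_sq_int]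
          simp
  have hcs := cs833 (stdGaussian (E n)) _ _ hB2 hQ2
  have hub : |ck * (S - Mk)| ≤ Real.sqrt (2 * a0 ^ 2 + 2 * a1 ^ 2 * n) *
      Real.sqrt ((d ! : ℝ) * S) := by
    rw [← hint]
    calc _ ≤ ∫ X, |dl2 u r μ₀ g X (QX d u r X)| ∂(stdGaussian (E n)) := abs_integral_le_integral_abs
      _ ≤ ∫ X, (a0 + a1 * ‖X‖) * ‖QX d u r X‖ ∂(stdGaussian (E n)) := by
          apply integral_mono hdi.abs (hB2.integrable_mul hQ2)
          intro X; exact hB X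
      _ ≤ _ := hcs
      _ ≤ _ := by
          rw [hQsq]
          apply mul_le_mul_of_nonneg_right _ (Real.sqrt_nonneg _)
          exact Real.sqrt_le_sqrt hBsq
  have hsq : (ck * (S - Mk)) ^ 2 ≤ (2 * a0 ^ 2 + 2 * a1 ^ 2 * n) * ((d ! : ℝ) * S) := by
    have h1 := pow_le_pow_left₀ (abs_nonneg _) hub 2
    have h2 : (Real.sqrt (2 * a0 ^ 2 + 2 * a1 ^ 2 * n) * Real.sqrt ((d ! : ℝ) * S)) ^ 2
        = (2 * a0 ^ 2 + 2 * a1 ^ 2 * n) * ((d ! : ℝ) * S) := by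
      rw [mul_pow, Real.sq_sqrt (by positivity), Real.sq_sqrt (by positivity)]
    rw [sq_abs, h2] at h1
    exact h1
  obtain ⟨W, hW⟩ : ∃ W : ℝ, W = 2 * a0 ^ 2 + 2 * a1 ^ 2 * n := ⟨_, rfl⟩
  rw [← hW] at hsq
  have hW0 : 0 ≤ W := by rw [hW]; positivity
  -- remove the coefficient
  have hck2 : 0 < ck ^ 2 := by
    have : 0 < C24 * (k : ℝ) ^ 2 * ck ^ 2 := lt_of_lt_of_le hfact h24k
    by_contra hcon
    have h0 : ck ^ 2 = 0 := le_antisymm (not_lt.mp hcon) (sq_nonneg _)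
    rw [h0] at this; simp at this
  have hmain : (S - Mk) ^ 2 ≤ W * (C24 * (k : ℝ) ^ 2) * S := by
    have h1 : ck ^ 2 * (S - Mk) ^ 2 ≤ W * ((C24 * (k : ℝ) ^ 2 * ck ^ 2) * S) := by
      calc ck ^ 2 * (S - Mk) ^ 2 = (ck * (S - Mk)) ^ 2 := by ring
        _ ≤ W * ((d ! : ℝ) * S) := hsq
        _ ≤ _ := by
            apply mul_le_mul_of_nonneg_left _ hW0
            exact mul_le_mul_of_nonneg_right h24k hS0
    have h2 : W * ((C24 * (k : ℝ) ^ 2 * ck ^ 2) * S) = ck ^ 2 * (W * (C24 * (k : ℝ) ^ 2) * S) := by ring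
    rw [h2] at h1
    exact le_of_mul_le_mul_left h1 hck2
  have hfin : S ≤ 2 * Mk + 4 * (W * (C24 * (k : ℝ) ^ 2)) := by
    have hV0 : 0 ≤ W * (C24 * (k : ℝ) ^ 2) := by positivity
    rcases le_total S (2 * Mk) with h | h
    · linarith
    · by_contra hcon
      rw [not_le] at hcon
      have hSpos : 0 < S := by linarith
      have h1 : S / 2 ≤ S - Mk := by linarith
      have h2 : (S / 2) ^ 2 ≤ (S - Mk) ^ 2 := pow_le_pow_left₀ (by linarith) h1 2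
      have h3 : S * S ≤ 4 * (W * (C24 * (k : ℝ) ^ 2)) * S := by nlinarith
      have h4 := le_of_mul_le_mul_right h3 hSpos
      linarith
  refine hfin.trans ?_
  -- bound W
  have hn1 : (1 : ℝ) ≤ Real.sqrt n := by
    rw [show (1 : ℝ) = Real.sqrt 1 by simp]
    exact Real.sqrt_le_sqrt (by exact_mod_cast D.hn)
  have hWb : W ≤ 4 * (K * (k : ℝ) ^ 4) ^ 2 * (ε + Real.sqrt n * q) ^ 2 := by
    have e1 : a0 ≤ K * (k : ℝ) ^ 4 * (ε + Real.sqrt n * q) := by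
      rw [ha0]
      apply mul_le_mul_of_nonneg_left _ (by positivity)
      nlinarith
    have e2 : a1 ^ 2 * n = (K * (k : ℝ) ^ 4 * (ε + Real.sqrt n * q)) ^ 2 := by
      have : a1 * Real.sqrt n = K * (k : ℝ) ^ 4 * (ε + Real.sqrt n * q) := by
        rw [ha1]; field_simp
      rw [← this, mul_pow, Real.sq_sqrt hn0.le]
    have e3 := pow_le_pow_left₀ ha00 e1 2
    rw [hW]
    have e4 : 2 * a1 ^ 2 * n = 2 * (a1 ^ 2 * n) := by ring
    rw [e4, e2]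
    calc _ ≤ 2 * (K * (k : ℝ) ^ 4 * (ε + Real.sqrt n * q)) ^ 2
          + 2 * (K * (k : ℝ) ^ 4 * (ε + Real.sqrt n * q)) ^ 2 := by linarith
      _ = _ := by ring
  rw [← hq]
  have : 4 * (W * (C24 * (k : ℝ) ^ 2))
      ≤ 4 * ((4 * (K * (k : ℝ) ^ 4) ^ 2 * (ε + Real.sqrt n * q) ^ 2) * (C24 * (k : ℝ) ^ 2)) := by
    apply mul_le_mul_of_nonneg_left _ (by norm_num)
    exact mul_le_mul_of_nonneg_right hWb (by positivity)
  calc 2 * Mk + 4 * (W * (C24 * (k : ℝ) ^ 2))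
      ≤ 2 * Mk + 4 * ((4 * (K * (k : ℝ) ^ 4) ^ 2 * (ε + Real.sqrt n * q) ^ 2) * (C24 * (k : ℝ) ^ 2)) := by
        linarith
    _ = _ := by ring

end Pool.Agent.E8helper29.Zn
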