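import Pool.Agent.E8helper29.Zn.Stm

/-! Piece 1 of project ZN (written by helper23). -/

set_option autoImplicit false

namespace Pool.Agent.E8helper29.Zn

open MeasureTheory ProbabilityTheory Set

private lemma p1_pdf (x : ℝ) :
    gaussianPDFReal 0 1 x = Real.exp (-(x ^ 2) / 2) / Real.sqrt (2 * Real.pi) := by
  rw [gaussianPDFReal_def]
  simp only [NNReal.coe_one, mul_one, sub_zero]
  exact (div_eq_inv_mul _ _).symm

private lemma p1_int_id : Integrable (fun x : ℝ => x) (gaussianReal 0 1) := by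
  have h := (memLp_id_gaussianReal' (μ := 0) (v := 1) 1 (by simp)).integrable le_rfl
  exact h

private lemma p1_int_abs (t : ℝ) : Integrable (fun x : ℝ => |t + x|) (gaussianReal 0 1) := by
  have h : Integrable (fun x : ℝ => t + x) (gaussianReal 0 1) :=
    (integrable_const t).add p1_int_id
  exact h.abs

private lemma p1_int_abs' (t : ℝ) : Integrable (fun x : ℝ => |t - x|) (gaussianReal 0 1) := by
  have h : Integrable (fun x : ℝ => t - x) (gaussianReal 0 1) :=
    (integrable_const t).sub p1_int_id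
  exact h.abs

private lemma p1_neg (f : ℝ → ℝ) :
    ∫ x, f (-x) ∂(gaussianReal 0 1) = ∫ x, f x ∂(gaussianReal 0 1) := by
  have h : (gaussianReal 0 1).map (fun x ↦ -x) = gaussianReal 0 1 := by
    rw [gaussianReal_map_neg, neg_zero]
  have h2 : ∫ x, f x ∂((gaussianReal 0 1).map (fun x ↦ -x)) = ∫ x, f (-x) ∂(gaussianReal 0 1) :=
    (MeasurableEquiv.neg ℝ).measurableEmbedding.integral_map f
  rw [← h2, h]

private lemma p1_symm (t : ℝ) : kap t = ∫ x, |t - x| ∂(gaussianReal 0 1) := by
  unfold kap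
  rw [← p1_neg (fun x => |t + x|)]
  simp only [sub_eq_add_neg]

private lemma p1_pt (t x : ℝ) : |t + x| + |t - x| = 2 * |0 + x| + 2 * max (|t| - |x|) 0 := by
  rw [zero_add]
  rcases le_total (|t| - |x|) 0 with h | h
  · rw [max_eq_right h]
    rcases abs_cases t with ⟨h1, h1'⟩ | ⟨h1, h1'⟩ <;> rcases abs_cases x with ⟨h2, h2'⟩ | ⟨h2, h2'⟩ <;>
      rcases abs_cases (t + x) with ⟨h3, h3'⟩ | ⟨h3, h3'⟩ <;>
      rcases abs_cases (t - x) with ⟨h4, h4'⟩ | ⟨h4, h4'⟩ <;> rw [h1, h2] at h <;> rw [h2, h3, h4] <;>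
      linarith
  · rw [max_eq_left h]
    rcases abs_cases t with ⟨h1, h1'⟩ | ⟨h1, h1'⟩ <;> rcases abs_cases x with ⟨h2, h2'⟩ | ⟨h2, h2'⟩ <;>
      rcases abs_cases (t + x) with ⟨h3, h3'⟩ | ⟨h3, h3'⟩ <;>
      rcases abs_cases (t - x) with ⟨h4, h4'⟩ | ⟨h4, h4'⟩ <;> rw [h1, h2] at h <;>
      rw [h1, h2, h3, h4] <;>
      linarith

private lemma p1_kap (t : ℝ) :
    kap t = kap 0 + ∫ x, max (|t| - |x|) 0 ∂(gaussianReal 0 1) := by
  have h1 : kap t + kap t = ∫ x, (|t + x| + |t - x|) ∂(gaussianReal 0 1) := by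
    rw [integral_add (p1_int_abs t) (p1_int_abs' t)]
    rw [← p1_symm t]; rfl
  have hmax : Integrable (fun x : ℝ => max (|t| - |x|) 0) (gaussianReal 0 1) := by
    have hc : Integrable (fun x : ℝ => |t| - |x|) (gaussianReal 0 1) :=
      (integrable_const |t|).sub p1_int_id.abs
    exact hc.pos_part
  have h2 : ∫ x, (|t + x| + |t - x|) ∂(gaussianReal 0 1)
      = 2 * kap 0 + 2 * ∫ x, max (|t| - |x|) 0 ∂(gaussianReal 0 1) := by
    rw [← integral_const_mul, kap, ← integral_const_mul,
      ← integral_add ((p1_int_abs 0).const_mul 2) (hmax.const_mul 2)]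
    exact integral_congr_ae (Filter.Eventually.of_forall fun x => p1_pt t x)
  linarith

private lemma p1_main (t : ℝ) :
    ∫ x, max (|t| - |x|) 0 ∂(gaussianReal 0 1)
      = 2 * ∫ s in (0 : ℝ)..|t|, (|t| - s) * (Real.exp (-(s ^ 2) / 2) / Real.sqrt (2 * Real.pi)) := by
  rw [integral_gaussianReal_eq_integral_smul (by norm_num)]
  have h1 : ∀ x : ℝ, gaussianPDFReal 0 1 x • max (|t| - |x|) 0
      = (fun y : ℝ => max (|t| - y) 0 * (Real.exp (-(y ^ 2) / 2) / Real.sqrt (2 * Real.pi))) |x| := by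
    intro x
    simp only [smul_eq_mul]
    rw [p1_pdf, sq_abs, mul_comm]
  simp only [h1]
  rw [integral_comp_abs
    (f := fun y : ℝ => max (|t| - y) 0 * (Real.exp (-(y ^ 2) / 2) / Real.sqrt (2 * Real.pi)))]
  congr 1
  rw [intervalIntegral.integral_of_le (abs_nonneg t)]
  have h2 : ∫ (x : ℝ) in Ioi 0, max (|t| - x) 0 * (Real.exp (-(x ^ 2) / 2) / Real.sqrt (2 * Real.pi))
      = ∫ (x : ℝ) in Ioc 0 |t|,
        max (|t| - x) 0 * (Real.exp (-(x ^ 2) / 2) / Real.sqrt (2 * Real.pi)) := by
    apply setIntegral_eq_of_subset_of_forall_sdiff_eq_zero measurableSet_Ioi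
      (fun x hx => hx.1)
    intro x hx
    have hx1 : (0 : ℝ) < x := hx.1
    have hx2 : |t| < x := by
      by_contra hc
      exact hx.2 ⟨hx1, not_lt.1 hc⟩
    rw [max_eq_right (by linarith), zero_mul]
  rw [h2]
  apply setIntegral_congr_fun measurableSet_Ioc
  intro x hx
  have : 0 ≤ |t| - x := by linarith [hx.2]
  simp only [max_eq_left this]

/-- PIECE 1 of project ZN. -/
theorem p1 : Stm1 := by
  refine ⟨?_, ?_⟩
  · intro t
    rw [p1_kap t, p1_main t]
    rcases le_total 0 t with h | h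
    · rw [abs_of_nonneg h]
    · rw [abs_of_nonpos h]
      congr 2
      have h1 := intervalIntegral.integral_comp_neg (a := 0) (b := -t)
        (fun s : ℝ => (t - s) * (Real.exp (-(s ^ 2) / 2) / Real.sqrt (2 * Real.pi)))
      rw [neg_neg, neg_zero] at h1
      rw [intervalIntegral.integral_symm t 0, ← h1, ← intervalIntegral.integral_neg]
      apply intervalIntegral.integral_congr
      intro s _
      simp only [neg_sq]
      ring
  · intro t
    refine ⟨integral_nonneg fun x => abs_nonneg _, ?_⟩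
    have hsq : Integrable (fun x : ℝ => x ^ 2) (gaussianReal 0 1) := by
      have h := (memLp_id_gaussianReal' (μ := 0) (v := 1) 2 (by simp)).integrable_sq
      exact h
    have hv : ∫ x, x ^ 2 ∂(gaussianReal 0 1) = 1 := by
      have h1 := variance_fun_id_gaussianReal (μ := 0) (v := 1)
      rw [variance_eq_integral (by fun_prop), integral_id_gaussianReal] at h1
      simpa using h1
    have hle : kap t ≤ ∫ x, (|t| + (x ^ 2 + 1) / 2) ∂(gaussianReal 0 1) := by
      apply integral_mono (p1_int_abs t)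
      · exact (integrable_const _).add ((hsq.add (integrable_const _)).div_const _)
      · intro x
        have h1 : |t + x| ≤ |t| + |x| := abs_add_le t x
        have h2 : |x| ≤ (x ^ 2 + 1) / 2 := by
          rw [← sq_abs]
          nlinarith [sq_nonneg (|x| - 1)]
        exact h1.trans (by linarith)
    have he : ∫ x, (|t| + (x ^ 2 + 1) / 2) ∂(gaussianReal 0 1) = |t| + 1 := by
      have hi : Integrable (fun x : ℝ => (x ^ 2 + 1) / 2) (gaussianReal 0 1) :=
        (hsq.add (integrable_const _)).div_const _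
      rw [integral_add (integrable_const _) hi,
        integral_div, integral_add hsq (integrable_const _), hv]
      simp
    rw [he] at hle
    exact hle

end Pool.Agent.E8helper29.Zn
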