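import Pool.Agent.E8helper29.Zn.Stm

set_option autoImplicit false

namespace Pool.Agent.E8helper29.Zn

open MeasureTheory ProbabilityTheory Pool.Agent.Helper649.Zono
open scoped RealInnerProductSpace Nat NNReal

lemma p8_sg_sq (b : Bool) : sg b * sg b = 1 := by
  cases b <;> simp [sg]

lemma p8_sg_not (b : Bool) : sg (!b) = - sg b := by
  cases b <;> simp [sg]

lemma p8_orth (n : ℕ) (i j : Fin n) :
    ∑ σ : Fin n → Bool, sg (σ i) * sg (σ j) = if i = j then (2 : ℝ) ^ n else 0 := by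
  by_cases h : i = j
  · subst h
    simp [p8_sg_sq]
  · rw [if_neg h]
    set F : (Fin n → Bool) → (Fin n → Bool) := fun σ => Function.update σ i (!(σ i)) with hF
    have hinv : Function.Involutive F := by
      intro σ
      simp only [hF]
      funext k
      by_cases hk : k = i
      · subst hk; simp
      · simp [Function.update_of_ne hk]
    have h1 := Equiv.sum_comp (Function.Involutive.toPerm F hinv) (fun σ : Fin n → Bool => sg (σ i) * sg (σ j))
    have h2 : ∀ σ : Fin n → Bool, sg ((Function.Involutive.toPerm F hinv σ) i)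
        * sg ((Function.Involutive.toPerm F hinv σ) j) = - (sg (σ i) * sg (σ j)) := by
      intro σ
      have e1 : (Function.Involutive.toPerm F hinv σ) i = !(σ i) := by
        simp [Function.Involutive.toPerm, hF]
      have e2 : (Function.Involutive.toPerm F hinv σ) j = σ j := by
        simp [Function.Involutive.toPerm, hF, Function.update_of_ne (Ne.symm h)]
      rw [e1, e2, p8_sg_not]
      ring
    rw [Finset.sum_congr rfl (fun σ _ => h2 σ), Finset.sum_neg_distrib] at h1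
    linarith

lemma p8_one (n : ℕ) (u w : E n) :
    ∑ σ : Fin n → Bool, ⟪u, sgv σ⟫ * ⟪w, sgv σ⟫ = 2 ^ n * ⟪u, w⟫ := by
  have h1 : ∀ σ : Fin n → Bool, ⟪u, sgv σ⟫ * ⟪w, sgv σ⟫
      = ∑ i, ∑ j, (u i * w j) * (sg (σ i) * sg (σ j)) := by
    intro σ
    rw [inner_sgv, inner_sgv, Finset.sum_mul_sum]
    refine Finset.sum_congr rfl fun i _ => Finset.sum_congr rfl fun j _ => ?_
    ring
  rw [Finset.sum_congr rfl (fun σ _ => h1 σ), Finset.sum_comm]
  have h2 : ∀ i : Fin n, ∑ σ : Fin n → Bool, ∑ j, (u i * w j) * (sg (σ i) * sg (σ j))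
      = 2 ^ n * (u i * w i) := by
    intro i
    rw [Finset.sum_comm]
    have h3 : ∀ j : Fin n, ∑ σ : Fin n → Bool, (u i * w j) * (sg (σ i) * sg (σ j))
        = if i = j then 2 ^ n * (u i * w j) else 0 := by
      intro j
      rw [← Finset.mul_sum, p8_orth]
      split_ifs <;> ring
    rw [Finset.sum_congr rfl (fun j _ => h3 j)]
    simp
  rw [Finset.sum_congr rfl (fun i _ => h2 i), ← Finset.mul_sum]
  congr 1
  rw [PiLp.inner_apply]
  refine Finset.sum_congr rfl fun i _ => ?_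
  simp [mul_comm]

lemma p8_two (n p : ℕ) (u w : E n) : ∑ σ : Fin p → Fin n → Bool,
      (∏ i, ⟪u, sgv (σ i)⟫) * (∏ i, ⟪w, sgv (σ i)⟫) = (2 ^ n) ^ p * ⟪u, w⟫ ^ p := by
  have h1 : ∀ σ : Fin p → Fin n → Bool,
      (∏ i, ⟪u, sgv (σ i)⟫) * (∏ i, ⟪w, sgv (σ i)⟫)
        = ∏ i, (fun τ : Fin n → Bool => ⟪u, sgv τ⟫ * ⟪w, sgv τ⟫) (σ i) := by
    intro σ
    rw [← Finset.prod_mul_distrib]
  rw [Finset.sum_congr rfl (fun σ _ => h1 σ),
    ← Fintype.sum_pow (fun τ : Fin n → Bool => ⟪u, sgv τ⟫ * ⟪w, sgv τ⟫) p, p8_one, mul_pow]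

lemma p8_coord (n p : ℕ) (i : Fin p) (f : (Fin n → Bool) → ℝ) (hf : ∀ τ, 0 ≤ f τ) (D : ℝ)
    (hD : 1 ≤ D) (h : ∑ τ, f τ ≤ 2 ^ n * D) :
    ∑ σ : Fin p → Fin n → Bool, f (σ i) ≤ (2 ^ n) ^ p * D ^ p := by
  have h1 : ∀ σ : Fin p → Fin n → Bool, f (σ i)
      = ∏ k, (if k = i then f (σ k) else 1) := by
    intro σ
    rw [Finset.prod_ite_eq' Finset.univ i (fun k => f (σ k))]
    simp
  rw [Finset.sum_congr rfl (fun σ _ => h1 σ)]
  have h2 := Finset.prod_univ_sum (fun _ : Fin p => (Finset.univ : Finset (Fin n → Bool)))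
    (fun k τ => if k = i then f τ else 1)
  rw [Fintype.piFinset_univ] at h2
  rw [← h2, ← mul_pow]
  calc ∏ k : Fin p, ∑ τ : Fin n → Bool, (if k = i then f τ else 1)
      ≤ ∏ _k : Fin p, (2 ^ n * D) := by
        refine Finset.prod_le_prod (fun k _ => ?_) (fun k _ => ?_)
        · refine Finset.sum_nonneg fun τ _ => ?_
          split_ifs
          · exact hf τ
          · exact zero_le_one
        · by_cases hk : k = i
          · simpa [hk] using h
          · simp only [hk, if_false]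
            have : ∑ _τ : Fin n → Bool, (1 : ℝ) = 2 ^ n := by simp
            rw [this]
            have : (0 : ℝ) < 2 ^ n := by positivity
            nlinarith
    _ = (2 ^ n * D) ^ p := by simp

lemma p8_three (p m : ℕ) : ∃ C : ℝ, 0 ≤ C ∧ ∀ (n : ℕ) (u : E n), ‖u‖ = 1 →
      ∑ σ : Fin p → Fin n → Bool, (∑ i, |⟪u, sgv (σ i)⟫|) ^ m ≤ C * (2 ^ n) ^ p := by
  set D : ℝ := (((2 * m - 1)‼ : ℕ) : ℝ) with hDdef
  have hD : 1 ≤ D := by
    have : 0 < (2 * m - 1)‼ := Nat.doubleFactorial_pos _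
    rw [hDdef]
    exact_mod_cast this
  refine ⟨1 + (p : ℝ) ^ (2 * m) * (p * D ^ p), by positivity, ?_⟩
  intro n u hu
  have h0 : ∀ σ : Fin p → Fin n → Bool, (∑ i, |⟪u, sgv (σ i)⟫|) ^ m
      ≤ 1 + (p : ℝ) ^ (2 * m) * ∑ i, ⟪u, sgv (σ i)⟫ ^ (2 * m) := by
    intro σ
    rcases Nat.eq_zero_or_pos m with hm | hm
    · subst hm
      simp only [pow_zero, mul_zero, one_mul]
      have : (0 : ℝ) ≤ ∑ _i : Fin p, (1 : ℝ) := by positivity
      linarith
    have ha : ∀ x : ℝ, x ^ m ≤ 1 + x ^ (2 * m) := by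
      intro x
      have e : x ^ (2 * m) = (x ^ m) ^ 2 := by rw [mul_comm, pow_mul]
      rw [e]
      nlinarith [sq_nonneg (x ^ m - 1), sq_nonneg (x ^ m + 1)]
    refine (ha _).trans ?_
    have hb : (∑ i, |⟪u, sgv (σ i)⟫|) ^ (2 * m)
        ≤ (p : ℝ) ^ (2 * m) * ∑ i, ⟪u, sgv (σ i)⟫ ^ (2 * m) := by
      rcases Nat.eq_zero_or_pos p with hp | hp
      · subst hp
        simp [hm.ne']
      · have : Nonempty (Fin p) := ⟨⟨0, hp⟩⟩
        obtain ⟨i0, hi0⟩ := Finite.exists_max (fun i : Fin p => |⟪u, sgv (σ i)⟫|)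
        have h1 : ∑ i, |⟪u, sgv (σ i)⟫| ≤ p * |⟪u, sgv (σ i0)⟫| := by
          calc ∑ i, |⟪u, sgv (σ i)⟫| ≤ ∑ _i : Fin p, |⟪u, sgv (σ i0)⟫| :=
                Finset.sum_le_sum fun i _ => hi0 i
            _ = p * |⟪u, sgv (σ i0)⟫| := by simp
        calc (∑ i, |⟪u, sgv (σ i)⟫|) ^ (2 * m)
            ≤ (p * |⟪u, sgv (σ i0)⟫|) ^ (2 * m) :=
              pow_le_pow_left₀ (Finset.sum_nonneg fun i _ => abs_nonneg _) h1 _
          _ = (p : ℝ) ^ (2 * m) * ⟪u, sgv (σ i0)⟫ ^ (2 * m) := by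
              rw [mul_pow, pow_mul |⟪u, sgv (σ i0)⟫|, sq_abs, ← pow_mul]
          _ ≤ _ := by
              apply mul_le_mul_of_nonneg_left _ (by positivity)
              exact Finset.single_le_sum (f := fun i : Fin p => ⟪u, sgv (σ i)⟫ ^ (2 * m))
                (fun i _ => (even_two_mul m).pow_nonneg _) (Finset.mem_univ i0)
    linarith
  calc ∑ σ : Fin p → Fin n → Bool, (∑ i, |⟪u, sgv (σ i)⟫|) ^ m
      ≤ ∑ σ : Fin p → Fin n → Bool,
          (1 + (p : ℝ) ^ (2 * m) * ∑ i, ⟪u, sgv (σ i)⟫ ^ (2 * m)) :=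
        Finset.sum_le_sum fun σ _ => h0 σ
    _ = (2 ^ n) ^ p + (p : ℝ) ^ (2 * m) *
          ∑ i : Fin p, ∑ σ : Fin p → Fin n → Bool, ⟪u, sgv (σ i)⟫ ^ (2 * m) := by
        rw [Finset.sum_add_distrib, ← Finset.mul_sum, Finset.sum_comm]
        simp
    _ ≤ (2 ^ n) ^ p + (p : ℝ) ^ (2 * m) * ∑ _i : Fin p, (2 ^ n) ^ p * D ^ p := by
        gcongr with i _
        exact p8_coord n p i (fun τ => ⟪u, sgv τ⟫ ^ (2 * m))
          (fun τ => (even_two_mul m).pow_nonneg _) D hD (khin_unit m u hu)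
    _ = (1 + (p : ℝ) ^ (2 * m) * (p * D ^ p)) * (2 ^ n) ^ p := by
        simp
        ring

theorem p8 : Stm8 := ⟨p8_one, p8_two, p8_three⟩

end Pool.Agent.E8helper29.Zn
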