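import Pool.Agent.E8helper29.Zn.Core6
import Pool.Agent.E8helper29.Zn.P1
import Pool.Agent.E8helper29.Zn.P7
import Pool.Agent.E8helper29.Zn.P8
import Pool.Agent.E8helper99.Zn.P2
import Pool.Agent.E8helper44.Zn.P3
import Pool.Agent.E8helper98.Zn.P5
import Pool.Agent.E8helper7.Zn.P4

set_option autoImplicit false

namespace Pool.Agent.E8helper29.Zn

open MeasureTheory ProbabilityTheory Pool.Agent.Helper649.Zono
open scoped RealInnerProductSpace Nat NNReal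

/-- there are `N` vectors `x_j` with `(1-ε)|v| ≤ ∑ |⟨v,x_j⟩| ≤ (1+ε)|v|` for all `v` -/
def Approx (n N : ℕ) (ε : ℝ) : Prop :=
  ∃ x : Fin N → EuclideanSpace ℝ (Fin n), ∀ v : EuclideanSpace ℝ (Fin n),
    (1 - ε) * ‖v‖ ≤ ∑ j, |⟪v, x j⟫| ∧ ∑ j, |⟪v, x j⟫| ≤ (1 + ε) * ‖v‖

theorem approx_pos {n N : ℕ} {ε : ℝ} (hn : 1 ≤ n) (hε1 : ε ≤ 1 / 2) (h : Approx n N ε) : 0 < N := by
  rcases Nat.eq_zero_or_pos N with h0 | h0
  · exfalso
    subst h0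
    obtain ⟨x, hx⟩ := h
    obtain ⟨y, hy, -⟩ := exists_unit hn (0 : E n)
    have := (hx y).1
    rw [hy] at this
    simp at this
    linarith
  · exact h0

/-- the inequality behind everything -/
theorem main_ineq (k M P : ℕ) (hk : 1 ≤ k) (hM : k ≤ M) (hP : 2 * k - 1 ≤ 2 * P) :
    ∃ C : ℝ, 0 ≤ C ∧ ∀ (n N : ℕ) (ε : ℝ), 1 ≤ n → 0 < ε → ε ≤ 1 / 2 → Approx n N ε →
      ∀ η : ℝ, 0 < η → η ≤ 1 → (N : ℝ) * η ^ (2 * P) ≤ 1 →
      (n : ℝ) / N ≤ C * ((ε + η ^ (2 * M + 2)) ^ 2 / (η ^ (2 * k)) ^ 2 + n / (n : ℝ) ^ k) := by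
  obtain ⟨C0, hC0, h7⟩ := p7 (2 * M + 2 + (2 * k - 1))
  obtain ⟨C, hC, hfb⟩ := final_bound (Pool.Agent.E8helper99.Zn.p2 p1) (Pool.Agent.E8helper44.Zn.p3 p1)
    (Pool.Agent.E8helper98.Zn.p5 Pool.Agent.E8helper7.Zn.p4) p8 k M P hk hM hP C0 hC0
  refine ⟨4 * C, by positivity, ?_⟩
  intro n N ε hn hε hε1 hA η hη hη1 hNη
  have hN := approx_pos hn hε1 hA
  obtain ⟨x, hx⟩ := hA
  obtain ⟨μ₀, hfin, hunit, hnorm, hmom⟩ := h7 n hn
  choose u hu hxu using fun j => exists_unit hn (x j)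
  have hap : ∀ v : E n, |∑ j, |⟪v, x j⟫| - ‖v‖| ≤ ε * ‖v‖ := by
    intro v
    rw [abs_le]
    constructor
    · linarith [(hx v).1]
    · linarith [(hx v).2]
  have D : Data n N (2 * M + 2 + (2 * k - 1)) ε C0 u (fun j => ‖x j‖) μ₀ :=
    { hn := hn
      hu := hu
      hr := fun j => norm_nonneg _
      hε := hε.le
      hC := hC0
      fin := hfin
      unit := hunit
      star := fun W => star x u (fun j => ‖x j‖) hu (fun j => norm_nonneg _) hxu ε hap hε.le μ₀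
        hnorm W
      mom := hmom }
  have h := hfb n N ε u (fun j => ‖x j‖) μ₀ D (by linarith) hN η hη hη1 hNη
  have hR : (1 - ε) * Real.sqrt n ≤ ∑ j, ‖x j‖ := by
    apply R_low u (fun j => ‖x j‖) hu (fun j => norm_nonneg _) ε
    intro v
    have h1 := (hx v).1
    refine h1.trans (le_of_eq ?_)
    refine Finset.sum_congr rfl fun j _ => ?_
    conv_lhs => rw [hxu j]
    rw [real_inner_smul_right, abs_mul, abs_norm, real_inner_comm]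
  have hs := sqrt_pos hn
  have hn0 : (0 : ℝ) < n := by exact_mod_cast hn
  have hNr : (0 : ℝ) < N := by exact_mod_cast hN
  have hR2 : (n : ℝ) / 4 ≤ (∑ j, ‖x j‖) ^ 2 := by
    have h1 : Real.sqrt n / 2 ≤ ∑ j, ‖x j‖ := by nlinarith
    have h2 := pow_le_pow_left₀ (by positivity) h1 2
    rw [div_pow, Real.sq_sqrt hn0.le] at h2
    linarith
  have h3 : (n : ℝ) / 4 / N ≤ (∑ j, ‖x j‖) ^ 2 / N := div_le_div_of_nonneg_right hR2 hNr.le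
  have h4 : (n : ℝ) / N = 4 * ((n : ℝ) / 4 / N) := by ring
  rw [h4]
  linarith

theorem main_one (K : ℕ) (hK : 1 ≤ K) (δ : ℝ) (hδ : 0 < δ) (hδ1 : δ ≤ 1) :
    ∃ c : ℝ, 0 < c ∧ c ≤ 1 ∧ ∀ (n N : ℕ) (ε : ℝ), 1 ≤ n → 0 < ε → ε ≤ 1 / 2 → Approx n N ε →
      c * min ((n : ℝ) ^ K) ((n : ℝ) ^ (1 - δ) * (1 / ε) ^ 2) ≤ N := by
  obtain ⟨a, ha⟩ : ∃ a : ℝ, a = δ / (4 * K) := ⟨_, rfl⟩
  have hKr : (1 : ℝ) ≤ K := by exact_mod_cast hK
  have ha0 : 0 < a := by rw [ha]; positivity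
  have ha1 : a ≤ 1 := by
    rw [ha, div_le_one (by positivity)]; nlinarith
  obtain ⟨M, hM⟩ : ∃ M : ℕ, M = ⌈(K : ℝ) / a⌉₊ := ⟨_, rfl⟩
  have hM1 : (K : ℝ) / a ≤ M := by rw [hM]; exact Nat.le_ceil _
  have hM2 : (K : ℝ) ≤ M * a := by
    rwa [div_le_iff₀ ha0] at hM1
  have hKM : K ≤ M := by
    have : (K : ℝ) ≤ M := by nlinarith [Nat.cast_nonneg (α := ℝ) M]
    exact_mod_cast this
  obtain ⟨C, hC, hmain⟩ := main_ineq K M M hK hKM (by omega)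
  refine ⟨1 / (6 * (C + 1)), by positivity, ?_, ?_⟩
  · rw [div_le_one (by positivity)]; linarith
  intro n N ε hn hε hε1 hA
  have hN := approx_pos hn hε1 hA
  have hn0 : (0 : ℝ) < n := by exact_mod_cast hn
  have hn1 : (1 : ℝ) ≤ n := by exact_mod_cast hn
  have hNr : (0 : ℝ) < N := by exact_mod_cast hN
  rcases lt_or_ge ((n : ℝ) ^ K) N with hlt | hle
  · have h1 : min ((n : ℝ) ^ K) ((n : ℝ) ^ (1 - δ) * (1 / ε) ^ 2) ≤ (n : ℝ) ^ K := min_le_left _ _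
    have h2 : 1 / (6 * (C + 1)) ≤ 1 := by rw [div_le_one (by positivity)]; linarith
    have h3 : 0 ≤ min ((n : ℝ) ^ K) ((n : ℝ) ^ (1 - δ) * (1 / ε) ^ 2) := by positivity
    calc _ ≤ 1 * min ((n : ℝ) ^ K) ((n : ℝ) ^ (1 - δ) * (1 / ε) ^ 2) :=
          mul_le_mul_of_nonneg_right h2 h3
      _ ≤ N := by linarith
  -- the parameter
  obtain ⟨η, hη⟩ : ∃ η : ℝ, η = (n : ℝ) ^ (-a) := ⟨_, rfl⟩
  have hη0 : 0 < η := by rw [hη]; positivity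
  have hη1 : η ≤ 1 := by
    rw [hη]; exact Real.rpow_le_one_of_one_le_of_nonpos hn1 (by linarith)
  have hpow : ∀ m : ℕ, η ^ m = (n : ℝ) ^ (-(a * m)) := by
    intro m
    rw [hη, ← Real.rpow_natCast, ← Real.rpow_mul hn0.le]
    congr 1; ring
  have h1 : (N : ℝ) * η ^ (2 * M) ≤ 1 := by
    rw [hpow]
    have h2 : (n : ℝ) ^ (-(a * ((2 * M : ℕ) : ℝ))) ≤ (n : ℝ) ^ (-(K : ℝ)) := by
      apply Real.rpow_le_rpow_of_exponent_le hn1
      push_cast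
      nlinarith
    rw [Real.rpow_neg hn0.le (K : ℝ), Real.rpow_natCast] at h2
    calc (N : ℝ) * (n : ℝ) ^ (-(a * ((2 * M : ℕ) : ℝ))) ≤ (n : ℝ) ^ K * ((n : ℝ) ^ K)⁻¹ :=
          mul_le_mul hle h2 (by positivity) (by positivity)
      _ = 1 := mul_inv_cancel₀ (by positivity)
  have h2 : η ^ (2 * M + 2) ≤ ((n : ℝ) ^ K)⁻¹ := by
    rw [hpow, ← Real.rpow_natCast (n : ℝ) K, ← Real.rpow_neg hn0.le]
    apply Real.rpow_le_rpow_of_exponent_le hn1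
    push_cast
    nlinarith
  have h3 : (η ^ (2 * K)) ^ 2 = ((n : ℝ) ^ δ)⁻¹ := by
    rw [← pow_mul, hpow, ← Real.rpow_neg hn0.le]
    congr 1
    rw [ha]; push_cast; field_simp; ring
  have h := hmain n N ε hn hε hε1 hA η hη0 hη1 h1
  rw [h3] at h
  obtain ⟨b, hb⟩ : ∃ b : ℝ, b = ((n : ℝ) ^ K)⁻¹ := ⟨_, rfl⟩
  rw [← hb] at h2
  have hb0 : 0 < b := by rw [hb]; positivity
  have hD0 : 0 < (n : ℝ) ^ δ := by positivity
  have h4 : (ε + η ^ (2 * M + 2)) ^ 2 ≤ 2 * ε ^ 2 + 2 * b ^ 2 := by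
    have : 0 ≤ η ^ (2 * M + 2) := by positivity
    nlinarith [sq_nonneg (ε - b), sq_nonneg (ε - η ^ (2 * M + 2)), mul_self_le_mul_self this h2]
  have h5 : (n : ℝ) ^ δ * b ^ 2 ≤ n * b := by
    have e1 : (n : ℝ) ^ δ ≤ n := by
      calc (n : ℝ) ^ δ ≤ (n : ℝ) ^ (1 : ℝ) := Real.rpow_le_rpow_of_exponent_le hn1 hδ1
        _ = n := Real.rpow_one _
    have e2 : b ≤ 1 := by
      rw [hb]; exact inv_le_one_of_one_le₀ (one_le_pow₀ hn1)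
    have e3 : b ^ 2 ≤ b := by nlinarith
    exact mul_le_mul e1 e3 (by positivity) hn0.le
  have h6 : (n : ℝ) / N ≤ (C + 1) * (3 * (ε ^ 2 * (n : ℝ) ^ δ + n * b)) := by
    have e1 : (ε + η ^ (2 * M + 2)) ^ 2 / ((n : ℝ) ^ δ)⁻¹ + n / (n : ℝ) ^ K
        ≤ 3 * (ε ^ 2 * (n : ℝ) ^ δ + n * b) := by
      rw [div_inv_eq_mul, div_eq_mul_inv (n : ℝ) ((n : ℝ) ^ K), ← hb]
      have := mul_le_mul_of_nonneg_right h4 hD0.le
      have e2 : 0 ≤ ε ^ 2 * (n : ℝ) ^ δ := by positivity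
      nlinarith
    calc (n : ℝ) / N ≤ _ := h
      _ ≤ C * (3 * (ε ^ 2 * (n : ℝ) ^ δ + n * b)) := mul_le_mul_of_nonneg_left e1 hC
      _ ≤ _ := by
          apply mul_le_mul_of_nonneg_right (by linarith)
          positivity
  -- divide by n
  obtain ⟨A, hAd⟩ : ∃ A : ℝ, A = (n : ℝ) ^ (1 - δ) * (1 / ε) ^ 2 := ⟨_, rfl⟩
  have hA0 : 0 < A := by rw [hAd]; positivity
  have hAn : ε ^ 2 * (n : ℝ) ^ δ = n / A := by
    rw [hAd, Real.rpow_sub hn0, Real.rpow_one]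
    field_simp
  have hbn : (n : ℝ) * b = n / (n : ℝ) ^ K := by rw [hb, div_eq_mul_inv]
  rw [hAn, hbn] at h6
  obtain ⟨m, hm⟩ : ∃ m : ℝ, m = min ((n : ℝ) ^ K) A := ⟨_, rfl⟩
  have hm0 : 0 < m := by rw [hm]; positivity
  have h7 : (n : ℝ) / A ≤ n / m := by
    apply div_le_div_of_nonneg_left hn0.le hm0
    rw [hm]; exact min_le_right _ _
  have h8 : (n : ℝ) / (n : ℝ) ^ K ≤ n / m := by
    apply div_le_div_of_nonneg_left hn0.le hm0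
    rw [hm]; exact min_le_left _ _
  have h9 : (n : ℝ) / N ≤ (6 * (C + 1)) * (n / m) := by
    refine h6.trans ?_
    nlinarith
  rw [← hAd, ← hm]
  rw [div_le_iff₀ hNr] at h9
  have h10 : (6 * (C + 1)) * (n / m) * N = n * ((6 * (C + 1)) * N / m) := by ring
  rw [h10] at h9
  have h11 : 1 ≤ (6 * (C + 1)) * N / m := by
    by_contra hcon
    rw [not_le] at hcon
    nlinarith
  rw [le_div_iff₀ hm0] at h11
  rw [one_div, inv_mul_le_iff₀ (by positivity)]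
  linarith

/-- **Lower bound**: `N(n,ε) ≥ c min(n^K, n^(1-δ) ε^(-2))`. -/
theorem main_two (K : ℕ) (δ : ℝ) (hδ : 0 < δ) :
    ∃ c : ℝ, 0 < c ∧ ∀ (n N : ℕ) (ε : ℝ), 1 ≤ n → 0 < ε → ε ≤ 1 / 2 → Approx n N ε →
      c * min ((n : ℝ) ^ K) ((n : ℝ) ^ (1 - δ) * (1 / ε) ^ 2) ≤ N := by
  obtain ⟨c, hc, -, h⟩ := main_one (K + 1) (by omega) (min δ 1) (by positivity) (min_le_right _ _)
  refine ⟨c, hc, ?_⟩
  intro n N ε hn hε hε1 hA
  have hn1 : (1 : ℝ) ≤ n := by exact_mod_cast hn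
  refine le_trans ?_ (h n N ε hn hε hε1 hA)
  apply mul_le_mul_of_nonneg_left _ hc.le
  apply min_le_min
  · exact pow_le_pow_right₀ hn1 (by omega)
  · apply mul_le_mul_of_nonneg_right _ (by positivity)
    apply Real.rpow_le_rpow_of_exponent_le hn1
    linarith [min_le_left δ 1]

end Pool.Agent.E8helper29.Zn
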