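import Pool.Agent.E8helper29.Zn.As4
import Pool.Agent.E8helper29.Zn.Main

set_option autoImplicit false

namespace Pool.Agent.E8helper29.Zn

open MeasureTheory ProbabilityTheory Pool.Agent.Helper649.Zono
open scoped RealInnerProductSpace Nat NNReal Polynomial

/-- the `2k`-th moment of a coordinate on the unit sphere of `n`-space -/
noncomputable def sph (n k : ℕ) : ℝ := ∏ i ∈ Finset.range k, ((2 * (i : ℝ) + 1) / (n + 2 * i))

lemma sph_nonneg (n k : ℕ) : 0 ≤ sph n k := by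
  unfold sph
  exact Finset.prod_nonneg fun i _ => by positivity

lemma dfact_prod (k : ℕ) :
    (((2 * k - 1)‼ : ℕ) : ℝ) = ∏ i ∈ Finset.range k, (2 * (i : ℝ) + 1) := by
  induction k with
  | zero => simp
  | succ k ih =>
    rw [Finset.prod_range_succ, ← ih, show 2 * (k + 1) - 1 = 2 * k + 1 by omega]
    rcases k with _ | k
    · simp
    · rw [show 2 * (k + 1) + 1 = (2 * (k + 1) - 1) + 2 by omega, Nat.doubleFactorial_add_two]
      push_cast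
      rw [show 2 * (k + 1) - 1 = 2 * k + 1 by omega]
      push_cast
      ring

lemma sph_le (n k : ℕ) (hn : 1 ≤ n) : (n : ℝ) ^ k * sph n k ≤ (((2 * k - 1)‼ : ℕ) : ℝ) := by
  have hn0 : (0 : ℝ) < n := by exact_mod_cast hn
  rw [dfact_prod, sph, ← Finset.card_range k, ← Finset.prod_const, Finset.card_range,
    ← Finset.prod_mul_distrib]
  refine Finset.prod_le_prod (fun i _ => by positivity) fun i _ => ?_
  rw [mul_div_assoc', div_le_iff₀ (by positivity)]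
  have : (0 : ℝ) ≤ i := by positivity
  nlinarith

/-- main measure with the exact moments. -/
def Stm25b : Prop :=
  ∃ C : ℝ, 0 ≤ C ∧ ∀ n : ℕ, 1 ≤ n → ∃ μ₀ : Measure (E n), IsFiniteMeasure μ₀ ∧
    (∀ᵐ u ∂μ₀, ‖u‖ = 1) ∧
    (∀ W : E n, ∫ Y, ‖Y + W‖ ∂(stdGaussian (E n)) = ∫ u, kap ⟪W, u⟫ ∂μ₀) ∧
    (∀ (m : ℕ) (v : E n), ‖v‖ = 1 → ∫ u, ⟪v, u⟫ ^ (2 * m) ∂μ₀ ≤ C * Real.sqrt n * sph n m)

lemma low_S {n N : ℕ} {ε C0 : ℝ} {u : Fin N → E n} {r : Fin N → ℝ} {μ₀ : Measure (E n)}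
    (D : Data n N 0 ε C0 u r μ₀) (hN : 0 < N) (k : ℕ) :
    (∑ j, r j) ^ 2 / N ≤ ∑ j, ∑ j', r j * r j' * ⟪u j, u j'⟫ ^ (2 * k) := by
  have hNr : (0 : ℝ) < N := by exact_mod_cast hN
  have hev : Even (2 * k) := ⟨k, by omega⟩
  have h5 : ∑ j, r j ^ 2 ≤ ∑ j, ∑ j', r j * r j' * ⟪u j, u j'⟫ ^ (2 * k) := by
    refine Finset.sum_le_sum fun j _ => ?_
    have h6 : r j * r j * ⟪u j, u j⟫ ^ (2 * k) ≤ ∑ j', r j * r j' * ⟪u j, u j'⟫ ^ (2 * k) := by
      refine Finset.single_le_sum (f := fun j' => r j * r j' * ⟪u j, u j'⟫ ^ (2 * k))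
        (fun j' _ => ?_) (Finset.mem_univ j)
      exact mul_nonneg (mul_nonneg (D.hr j) (D.hr j')) (hev.pow_nonneg _)
    rw [real_inner_self_eq_norm_sq, D.hu j] at h6
    simp only [one_pow, mul_one] at h6
    rw [sq]; exact h6
  refine le_trans ?_ h5
  rw [div_le_iff₀ hNr]
  have := sq_sum_le_card_mul_sum_sq (s := Finset.univ) (f := r)
  simp only [Finset.card_univ, Fintype.card_fin] at this
  linarith

/-- **the inequality for every `k`** -/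
theorem core_k (h21 : Stm21) (h22 : Stm22) (h23 : Stm23) (h24 : Stm24) (h26 : Stm26)
    (h25 : Stm25b) :
    ∃ C : ℝ, 0 ≤ C ∧ ∀ (n N : ℕ) (ε : ℝ) (k : ℕ), 1 ≤ n → 0 < ε → ε ≤ 1 / 2 → Approx n N ε →
      1 ≤ k → (n : ℝ) / N ≤ C * (n * sph n k
        + (k : ℝ) ^ 10 * (ε + Real.sqrt n * (1 / 4 : ℝ) ^ k) ^ 2) := by
  obtain ⟨C0, hC0, h7⟩ := h25
  obtain ⟨K, hK, hS⟩ := S_bound h21 h22 h23 h24 h26 C0 hC0
  have hkp := kap_zero_pos
  obtain ⟨R0, hR0⟩ : ∃ R0 : ℝ, R0 = C0 + 1 / kap 0 := ⟨_, rfl⟩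
  have hR00 : 0 ≤ R0 := by rw [hR0]; positivity
  refine ⟨4 * (2 * (R0 * C0) + K), by positivity, ?_⟩
  intro n N ε k hn hε hε1 hA hk
  have hN := approx_pos hn hε1 hA
  obtain ⟨x, hx⟩ := hA
  obtain ⟨μ₀, hfin, hunit, hnorm, hmom⟩ := h7 n hn
  choose u hu hxu using fun j => exists_unit hn (x j)
  have hs := sqrt_pos hn
  have hn0 : (0 : ℝ) < n := by exact_mod_cast hn
  have hNr : (0 : ℝ) < N := by exact_mod_cast hN
  have hap : ∀ v : E n, |∑ j, |⟪v, x j⟫| - ‖v‖| ≤ ε * ‖v‖ := by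
    intro v
    rw [abs_le]
    constructor
    · linarith [(hx v).1]
    · linarith [(hx v).2]
  have D : Data n N 0 ε C0 u (fun j => ‖x j‖) μ₀ :=
    { hn := hn
      hu := hu
      hr := fun j => norm_nonneg _
      hε := hε.le
      hC := hC0
      fin := hfin
      unit := hunit
      star := fun W => star x u (fun j => ‖x j‖) hu (fun j => norm_nonneg _) hxu ε hap hε.le μ₀
        hnorm W
      mom := by
        intro p hp y
        obtain rfl : p = 0 := by omega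
        obtain ⟨e, he, -⟩ := exists_unit hn y
        have := hmom 0 e he
        simpa [sph] using this }
  have hmom2 : ∀ (m : ℕ) (v : E n), ‖v‖ = 1 →
      ∫ z, (Real.sqrt n * ⟪v, z⟫) ^ (2 * m) ∂μ₀ ≤ C0 * Real.sqrt n * ((2 * m - 1)‼ : ℕ) := by
    intro m v hv
    have e1 : ∀ z : E n, (Real.sqrt n * ⟪v, z⟫) ^ (2 * m) = (n : ℝ) ^ m * ⟪v, z⟫ ^ (2 * m) := by
      intro z
      rw [mul_pow, pow_mul (Real.sqrt n), Real.sq_sqrt hn0.le]
    simp only [e1]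
    rw [integral_const_mul]
    calc (n : ℝ) ^ m * ∫ z, ⟪v, z⟫ ^ (2 * m) ∂μ₀ ≤ (n : ℝ) ^ m * (C0 * Real.sqrt n * sph n m) :=
          mul_le_mul_of_nonneg_left (hmom m v hv) (by positivity)
      _ = C0 * Real.sqrt n * ((n : ℝ) ^ m * sph n m) := by ring
      _ ≤ _ := mul_le_mul_of_nonneg_left (sph_le n m hn) (by positivity)
  have h1 := hS n N ε u (fun j => ‖x j‖) μ₀ D (by linarith) hmom2 k hk
  have h2 := low_S D hN k
  have hM : ∑ i, ‖x i‖ * ∫ z, ⟪u i, z⟫ ^ (2 * k) ∂μ₀ ≤ R0 * C0 * (n * sph n k) := by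
    have hmass := D.mass (by linarith : ε ≤ 1)
    rw [← hR0] at hmass
    calc ∑ i, ‖x i‖ * ∫ z, ⟪u i, z⟫ ^ (2 * k) ∂μ₀
        ≤ ∑ i, ‖x i‖ * (C0 * Real.sqrt n * sph n k) :=
          Finset.sum_le_sum fun i _ => mul_le_mul_of_nonneg_left (hmom k (u i) (hu i))
            (norm_nonneg _)
      _ = (∑ i, ‖x i‖) * (C0 * Real.sqrt n * sph n k) := by rw [Finset.sum_mul]
      _ ≤ (R0 * Real.sqrt n) * (C0 * Real.sqrt n * sph n k) := by
          apply mul_le_mul_of_nonneg_right hmass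
          have := sph_nonneg n k
          positivity
      _ = R0 * C0 * ((Real.sqrt n * Real.sqrt n) * sph n k) := by ring
      _ = _ := by rw [Real.mul_self_sqrt hn0.le]
  have hR : (1 - ε) * Real.sqrt n ≤ ∑ j, ‖x j‖ := by
    apply R_low u (fun j => ‖x j‖) hu (fun j => norm_nonneg _) ε
    intro v
    have h1 := (hx v).1
    refine h1.trans (le_of_eq ?_)
    refine Finset.sum_congr rfl fun j _ => ?_
    conv_lhs => rw [hxu j]
    rw [real_inner_smul_right, abs_mul, abs_norm, real_inner_comm]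
  have hR2 : (n : ℝ) / 4 ≤ (∑ j, ‖x j‖) ^ 2 := by
    have h1 : Real.sqrt n / 2 ≤ ∑ j, ‖x j‖ := by nlinarith
    have h2 := pow_le_pow_left₀ (by positivity) h1 2
    rw [div_pow, Real.sq_sqrt hn0.le] at h2
    linarith
  have h3 : (n : ℝ) / 4 / N ≤ (∑ j, ‖x j‖) ^ 2 / N := div_le_div_of_nonneg_right hR2 hNr.le
  have h4 : (n : ℝ) / N = 4 * ((n : ℝ) / 4 / N) := by ring
  rw [h4]
  obtain ⟨a, ha⟩ : ∃ a : ℝ, a = n * sph n k := ⟨_, rfl⟩
  obtain ⟨b, hb⟩ : ∃ b : ℝ, b = (k : ℝ) ^ 10 * (ε + Real.sqrt n * (1 / 4 : ℝ) ^ k) ^ 2 := ⟨_, rfl⟩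
  have ha0 : 0 ≤ a := by rw [ha]; exact mul_nonneg hn0.le (sph_nonneg n k)
  have hb0 : 0 ≤ b := by rw [hb]; positivity
  rw [← ha] at hM
  rw [← ha, ← hb]
  have h5 : K * (k : ℝ) ^ 10 * (ε + Real.sqrt n * (1 / 4 : ℝ) ^ k) ^ 2 = K * b := by rw [hb]; ring
  rw [h5] at h1
  have h6 : (n : ℝ) / 4 / N ≤ 2 * (R0 * C0 * a) + K * b := by linarith
  have h7 : 0 ≤ 2 * (R0 * C0) * b := by positivity
  have h8 : 0 ≤ K * a := by positivity
  have h9 : 4 * (2 * (R0 * C0) + K) * (a + b)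
      = 4 * (2 * (R0 * C0 * a) + K * b) + 4 * (2 * (R0 * C0) * b + K * a) := by ring
  rw [h9]
  linarith

end Pool.Agent.E8helper29.Zn
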