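import Pool.Agent.E8helper29.Zn.P25b

set_option autoImplicit false

namespace Pool.Agent.E8helper29.Zn

open MeasureTheory ProbabilityTheory Pool.Agent.Helper649.Zono
open scoped RealInnerProductSpace Nat NNReal Polynomial

lemma sph_le_exp (n k : ℕ) (hn : 1 ≤ n) (h16 : 16 * k ≤ n) :
    sph n k ≤ Real.exp (-(2 * k)) := by
  have hn0 : (0 : ℝ) < n := by exact_mod_cast hn
  have h1 : sph n k ≤ ∏ _i ∈ Finset.range k, Real.exp (-2) := by
    unfold sph
    refine Finset.prod_le_prod (fun i _ => by positivity) fun i hi => ?_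
    have hik : i < k := Finset.mem_range.mp hi
    have h2 : (16 * ((i : ℝ) + 1)) ≤ n := by
      have : 16 * (i + 1) ≤ n := by omega
      exact_mod_cast this
    have h3 : (2 * (i : ℝ) + 1) / (n + 2 * i) ≤ 1 / 8 := by
      rw [div_le_iff₀ (by positivity)]
      have : (0 : ℝ) ≤ i := by positivity
      nlinarith
    refine h3.trans ?_
    rw [Real.exp_neg, one_div]
    apply inv_anti₀ (Real.exp_pos _)
    have h4 : Real.exp 2 = Real.exp 1 * Real.exp 1 := by rw [← Real.exp_add]; norm_num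
    have h5 := Real.exp_one_lt_d9
    have h6 : 0 < Real.exp 1 := Real.exp_pos _
    rw [h4]
    nlinarith
  refine h1.trans (le_of_eq ?_)
  rw [Finset.prod_const, Finset.card_range, ← Real.exp_nat_mul]
  congr 1; ring

/-- the parameter `k = ⌈log (n/ε)⌉` -/
lemma par_k (n : ℕ) (ε : ℝ) (hn : 1 ≤ n) (hε : 0 < ε) (hε1 : ε ≤ 1 / 2) :
    ∃ k : ℕ, 1 ≤ k ∧ Real.log (n / ε) ≤ k ∧ (k : ℝ) ≤ Real.log (n / ε) + 1 := by
  have hn1 : (1 : ℝ) ≤ n := by exact_mod_cast hn
  have h1 : (1 : ℝ) < n / ε := by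
    rw [lt_div_iff₀ hε]; linarith
  have h2 : 0 < Real.log (n / ε) := Real.log_pos h1
  refine ⟨⌈Real.log (n / ε)⌉₊, ?_, Nat.le_ceil _, (Nat.ceil_lt_add_one h2.le).le⟩
  exact Nat.one_le_iff_ne_zero.mpr (by
    rw [Ne, Nat.ceil_eq_zero, not_le]; exact h2)

lemma log_ge (n : ℕ) (ε : ℝ) (hn : 1 ≤ n) (hε : 0 < ε) (hε1 : ε ≤ 1 / 2) :
    1 / 2 ≤ Real.log (n / ε) := by
  have hn1 : (1 : ℝ) ≤ n := by exact_mod_cast hn
  have h1 : (2 : ℝ) ≤ n / ε := by
    rw [le_div_iff₀ hε]; linarith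
  have h2 := Real.log_le_log (by norm_num) h1
  have h3 := Real.log_two_gt_d9
  linarith

/-- the lower bound in the range `ε ≥ e^(-n/32)` -/
theorem low_log (h21 : Stm21) (h22 : Stm22) (h23 : Stm23) (h24 : Stm24) (h26 : Stm26) :
    ∃ C : ℝ, 0 < C ∧ ∀ (n N : ℕ) (ε : ℝ), 1 ≤ n → 0 < ε → ε ≤ 1 / 2 →
      32 * Real.log (1 / ε) ≤ n → Approx n N ε →
      n * (1 / ε) ^ 2 ≤ C * Real.log (n / ε) ^ 10 * N := by
  obtain ⟨C, hC, h⟩ := core_k h21 h22 h23 h24 h26 p25b
  obtain ⟨C1, hC1⟩ : ∃ C1 : ℝ, C1 = 5 * C * 3 ^ 10 := ⟨_, rfl⟩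
  obtain ⟨C2, hC2⟩ : ∃ C2 : ℝ, C2 = 256 * Real.exp 16 * 2 ^ 10 := ⟨_, rfl⟩
  refine ⟨C1 + C2, by rw [hC1, hC2]; positivity, ?_⟩
  have hC10 : 0 ≤ C1 := by rw [hC1]; positivity
  have hC20 : 0 ≤ C2 := by rw [hC2]; positivity
  intro n N ε hn hε hε1 hr hA
  have hN := approx_pos hn hε1 hA
  have hn0 : (0 : ℝ) < n := by exact_mod_cast hn
  have hn1 : (1 : ℝ) ≤ n := by exact_mod_cast hn
  have hNr : (0 : ℝ) < N := by exact_mod_cast hN
  have hN1 : (1 : ℝ) ≤ N := by exact_mod_cast hN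
  have hL := log_ge n ε hn hε hε1
  obtain ⟨L, hLd⟩ : ∃ L : ℝ, L = Real.log (n / ε) := ⟨_, rfl⟩
  rw [← hLd] at hL ⊢
  have hL0 : 0 < L := by linarith
  have hlog : L = Real.log n + Real.log (1 / ε) := by
    rw [hLd, ← Real.log_mul (by positivity) (by positivity)]
    congr 1; ring
  rcases lt_or_ge n 256 with hlt | hge
  · -- small `n`
    have hltr : (n : ℝ) < 256 := by exact_mod_cast hlt
    have h1 : Real.log (1 / ε) ≤ 8 := by linarith
    have h2 : 1 / ε ≤ Real.exp 8 := by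
      rw [← Real.exp_log (by positivity : 0 < 1 / ε)]
      exact Real.exp_le_exp.mpr h1
    have h3 : (1 / ε) ^ 2 ≤ Real.exp 16 := by
      have := pow_le_pow_left₀ (by positivity) h2 2
      rwa [← Real.exp_nat_mul, show ((2 : ℕ) : ℝ) * 8 = 16 by norm_num] at this
    have h4 : 1 ≤ 2 ^ 10 * L ^ 10 := by
      have := pow_le_pow_left₀ (by norm_num : (0 : ℝ) ≤ 1 / 2) hL 10
      have h5 : (1 / 2 : ℝ) ^ 10 = 1 / 2 ^ 10 := by norm_num
      rw [h5, div_le_iff₀ (by positivity)] at this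
      linarith
    calc (n : ℝ) * (1 / ε) ^ 2 ≤ 256 * Real.exp 16 :=
          mul_le_mul hltr.le h3 (by positivity) (by norm_num)
      _ ≤ 256 * Real.exp 16 * (2 ^ 10 * L ^ 10) := le_mul_of_one_le_right (by positivity) h4
      _ = C2 * L ^ 10 * 1 := by rw [hC2]; ring
      _ ≤ C2 * L ^ 10 * N := mul_le_mul_of_nonneg_left hN1 (by positivity)
      _ ≤ _ := by
          have : 0 ≤ C1 * L ^ 10 * N := by positivity
          nlinarith
  · -- large `n`
    obtain ⟨k, hk1, hkL, hkU⟩ := par_k n ε hn hε hε1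
    rw [← hLd] at hkL hkU
    have hger : (256 : ℝ) ≤ n := by exact_mod_cast hge
    have h16 : 16 * k ≤ n := by
      have h1 : Real.log n ≤ Real.log 256 + (n / 256 - 1) := by
        have h2 : Real.log (n / 256) ≤ n / 256 - 1 := Real.log_le_sub_one_of_pos (by positivity)
        rw [Real.log_div (by positivity) (by norm_num)] at h2
        linarith
      have h3 : Real.log 256 ≤ 5.6 := by
        have : (256 : ℝ) = 2 ^ 8 := by norm_num
        rw [this, Real.log_pow]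
        have := Real.log_two_lt_d9
        push_cast
        linarith
      have h4 : (16 * k : ℝ) ≤ n := by
        have : (k : ℝ) ≤ 5.6 + (n / 256 - 1) + n / 32 + 1 := by linarith
        linarith
      exact_mod_cast h4
    have hkr : (1 : ℝ) ≤ k := by exact_mod_cast hk1
    have h1 := h n N ε k hn hε hε1 hA hk1
    have h2 := sph_le_exp n k hn h16
    have hexp : Real.exp (-(k : ℝ)) ≤ ε / n := by
      have e1 : Real.exp (-(k : ℝ)) ≤ Real.exp (-L) := Real.exp_le_exp.mpr (by linarith)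
      have e2 : Real.exp (-L) = ε / n := by
        rw [hLd, Real.exp_neg, Real.exp_log (by positivity), inv_div]
      rwa [e2] at e1
    have h3 : Real.exp (-(2 * k : ℝ)) ≤ (ε / n) ^ 2 := by
      have e1 : Real.exp (-(2 * k : ℝ)) = Real.exp (-(k : ℝ)) ^ 2 := by
        rw [← Real.exp_nat_mul]; congr 1; push_cast; ring
      rw [e1]
      exact pow_le_pow_left₀ (Real.exp_pos _).le hexp 2
    have h4 : (1 / 4 : ℝ) ^ k ≤ ε / n := by
      refine le_trans ?_ hexp
      have e1 : Real.exp (-(k : ℝ)) = Real.exp (-1) ^ k := by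
        rw [← Real.exp_nat_mul]; congr 1; ring
      rw [e1]
      apply pow_le_pow_left₀ (by norm_num)
      rw [Real.exp_neg, one_div]
      apply inv_anti₀ (Real.exp_pos _)
      have := Real.exp_one_lt_d9
      linarith
    have hsq : Real.sqrt n ≤ n := by
      have e1 := Real.sq_sqrt hn0.le
      have e2 : 1 ≤ Real.sqrt n := by
        rw [show (1 : ℝ) = Real.sqrt 1 by simp]
        exact Real.sqrt_le_sqrt hn1
      nlinarith
    have h5 : ε + Real.sqrt n * (1 / 4 : ℝ) ^ k ≤ 2 * ε := by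
      have e1 : Real.sqrt n * (1 / 4 : ℝ) ^ k ≤ n * (ε / n) :=
        mul_le_mul hsq h4 (by positivity) hn0.le
      have e2 : (n : ℝ) * (ε / n) = ε := by field_simp
      linarith
    have h6 : (ε + Real.sqrt n * (1 / 4 : ℝ) ^ k) ^ 2 ≤ 4 * ε ^ 2 := by
      have := pow_le_pow_left₀ (by positivity) h5 2
      nlinarith
    have h7 : n * sph n k ≤ ε ^ 2 := by
      calc (n : ℝ) * sph n k ≤ n * (ε / n) ^ 2 := mul_le_mul_of_nonneg_left (h2.trans h3) hn0.le
        _ = ε ^ 2 / n := by field_simp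
        _ ≤ ε ^ 2 := div_le_self (by positivity) hn1
    have hk10 : (1 : ℝ) ≤ (k : ℝ) ^ 10 := one_le_pow₀ hkr
    have h8 : (n : ℝ) / N ≤ C * (5 * (k : ℝ) ^ 10 * ε ^ 2) := by
      refine h1.trans (mul_le_mul_of_nonneg_left ?_ hC)
      have e1 : (k : ℝ) ^ 10 * (ε + Real.sqrt n * (1 / 4 : ℝ) ^ k) ^ 2 ≤ (k : ℝ) ^ 10 * (4 * ε ^ 2) :=
        mul_le_mul_of_nonneg_left h6 (by positivity)
      have e2 : ε ^ 2 ≤ (k : ℝ) ^ 10 * ε ^ 2 := le_mul_of_one_le_left (by positivity) hk10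
      nlinarith
    have h9 : (k : ℝ) ^ 10 ≤ 3 ^ 10 * L ^ 10 := by
      have e1 : (k : ℝ) ≤ 3 * L := by linarith
      have := pow_le_pow_left₀ (by positivity) e1 10
      rwa [mul_pow] at this
    have h10 : (n : ℝ) / N ≤ C1 * L ^ 10 * ε ^ 2 := by
      refine h8.trans ?_
      calc C * (5 * (k : ℝ) ^ 10 * ε ^ 2) ≤ C * (5 * (3 ^ 10 * L ^ 10) * ε ^ 2) := by
            apply mul_le_mul_of_nonneg_left _ hC
            apply mul_le_mul_of_nonneg_right _ (by positivity)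
            exact mul_le_mul_of_nonneg_left h9 (by norm_num)
        _ = _ := by rw [hC1]; ring
    rw [div_le_iff₀ hNr] at h10
    have h11 : (n : ℝ) * (1 / ε) ^ 2 ≤ C1 * L ^ 10 * N := by
      have e1 := mul_le_mul_of_nonneg_right h10 (by positivity : (0 : ℝ) ≤ (1 / ε) ^ 2)
      have e2 : C1 * L ^ 10 * ε ^ 2 * N * (1 / ε) ^ 2 = C1 * L ^ 10 * N := by
        field_simp
      rwa [e2] at e1
    have : 0 ≤ C2 * L ^ 10 * N := by positivity
    nlinarith

end Pool.Agent.E8helper29.Zn
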