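import Pool.Agent.E8helper29.Zn.Stm

set_option autoImplicit false

namespace Pool.Agent.E8helper29.Zn

open MeasureTheory ProbabilityTheory Pool.Agent.Helper649.Zono
open scoped RealInnerProductSpace Nat NNReal

lemma p6 : Stm6 := by
  intro n u W hu
  have hmap := map_inner u
  have hm : Measurable (fun g : E n => ⟪u, g⟫) := by fun_prop
  have hf : AEStronglyMeasurable (fun a : ℝ => |⟪u, W⟫ + a|)
      ((stdGaussian (E n)).map (fun g => ⟪u, g⟫)) := by
    apply Continuous.aestronglyMeasurable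
    fun_prop
  have h := integral_map (μ := stdGaussian (E n)) hm.aemeasurable hf
  rw [hmap] at h
  have hn : (‖u‖₊ ^ 2 : ℝ≥0) = 1 := by
    have : ‖u‖₊ = 1 := by
      apply NNReal.eq
      simpa using hu
    rw [this]; simp
  rw [hn] at h
  unfold kap
  rw [real_inner_comm u W]
  rw [h]
  refine integral_congr_ae (Filter.Eventually.of_forall fun g => ?_)
  simp only [inner_add_right]
  rw [add_comm]

lemma norm_int (n : ℕ) : Integrable (fun Y : E n => ‖Y‖) (stdGaussian (E n)) := by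
  have h := IsGaussian.memLp_id (stdGaussian (E n)) 1 (by simp)
  exact (memLp_one_iff_integrable.mp h).norm

lemma norm_int_shift (n : ℕ) (W : E n) :
    Integrable (fun Y : E n => ‖Y + W‖) (stdGaussian (E n)) := by
  refine ((norm_int n).add (integrable_const ‖W‖)).mono' ?_ ?_
  · apply Continuous.aestronglyMeasurable
    fun_prop
  · refine Filter.Eventually.of_forall fun Y => ?_
    simp only [norm_norm, Pi.add_apply]
    exact norm_add_le _ _

lemma norm_int_le (n : ℕ) : ∫ Y, ‖Y‖ ∂(stdGaussian (E n)) ≤ Real.sqrt n := by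
  have h := cs833 (stdGaussian (E n)) (fun g => ‖g‖) (fun _ => (1 : ℝ)) memLp_norm833
    (memLp_const 1)
  simp only [mul_one, one_pow] at h
  rw [norm_sq_int] at h
  simpa using h

lemma norm_int_shift_le (n : ℕ) (W : E n) :
    ∫ Y, ‖Y + W‖ ∂(stdGaussian (E n)) ≤ Real.sqrt n + ‖W‖ := by
  have h1 : ∫ Y, ‖Y + W‖ ∂(stdGaussian (E n)) ≤ ∫ Y, (‖Y‖ + ‖W‖) ∂(stdGaussian (E n)) := by
    apply integral_mono (norm_int_shift n W) ((norm_int n).add (integrable_const ‖W‖))
    intro Y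
    exact norm_add_le _ _
  rw [integral_add (norm_int n) (integrable_const _)] at h1
  simp at h1
  linarith [norm_int_le n]

/-- the basic comparison -/
lemma star {n N : ℕ} (x u : Fin N → E n) (r : Fin N → ℝ) (hu : ∀ j, ‖u j‖ = 1)
    (hr : ∀ j, 0 ≤ r j) (hx : ∀ j, x j = r j • u j) (ε : ℝ) 
    (hap : ∀ v : E n, |∑ j, |⟪v, x j⟫| - ‖v‖| ≤ ε * ‖v‖) (hε : 0 ≤ ε)
    (μ₀ : Measure (E n)) 
    (hμ : ∀ W : E n, ∫ Y, ‖Y + W‖ ∂(stdGaussian (E n)) = ∫ u, kap ⟪W, u⟫ ∂μ₀) (W : E n) :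
    |∑ j, r j * kap ⟪W, u j⟫ - ∫ u, kap ⟪W, u⟫ ∂μ₀| ≤ ε * (Real.sqrt n + ‖W‖) := by
  have hi : ∀ j, Integrable (fun Y : E n => |⟪Y + W, x j⟫|) (stdGaussian (E n)) := by
    intro j
    refine ((norm_int_shift n W).mul_const ‖x j‖).mono' ?_ ?_
    · apply Continuous.aestronglyMeasurable
      fun_prop
    · refine Filter.Eventually.of_forall fun Y => ?_
      simp only [Real.norm_eq_abs, abs_abs]
      exact abs_real_inner_le_norm _ _
  have h1 : ∀ j, r j * kap ⟪W, u j⟫ = ∫ Y, |⟪Y + W, x j⟫| ∂(stdGaussian (E n)) := by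
    intro j
    rw [← p6 n (u j) W (hu j), ← integral_const_mul]
    refine integral_congr_ae (Filter.Eventually.of_forall fun Y => ?_)
    simp only
    rw [hx j, real_inner_smul_right, abs_mul, abs_of_nonneg (hr j), real_inner_comm]
  rw [← hμ W, Finset.sum_congr rfl (fun j _ => h1 j), ← integral_finsetSum _ (fun j _ => hi j),
    ← integral_sub (integrable_finsetSum _ (fun j _ => hi j)) (norm_int_shift n W)]
  calc |∫ Y, (∑ j, |⟪Y + W, x j⟫| - ‖Y + W‖) ∂(stdGaussian (E n))|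
      ≤ ∫ Y, |∑ j, |⟪Y + W, x j⟫| - ‖Y + W‖| ∂(stdGaussian (E n)) := abs_integral_le_integral_abs
    _ ≤ ∫ Y, ε * ‖Y + W‖ ∂(stdGaussian (E n)) := by
        apply integral_mono
        · exact ((integrable_finsetSum _ (fun j _ => hi j)).sub (norm_int_shift n W)).abs
        · exact (norm_int_shift n W).const_mul _
        · intro Y
          exact hap (Y + W)
    _ = ε * ∫ Y, ‖Y + W‖ ∂(stdGaussian (E n)) := integral_const_mul _ _
    _ ≤ ε * (Real.sqrt n + ‖W‖) := mul_le_mul_of_nonneg_left (norm_int_shift_le n W) hε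

end Pool.Agent.E8helper29.Zn
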