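import Pool.Agent.E8helper29.Zn.Core1

set_option autoImplicit false

namespace Pool.Agent.E8helper29.Zn

open MeasureTheory ProbabilityTheory Pool.Agent.Helper649.Zono
open scoped RealInnerProductSpace Nat NNReal

lemma abs_int (t : ℝ) : Integrable (fun x : ℝ => |t + x|) (gaussianReal 0 1) := by
  have h : Integrable (fun x : ℝ => x) (gaussianReal 0 1) := by
    have := memLp_id_gaussianReal (μ := 0) (v := 1) 1
    exact memLp_one_iff_integrable.mp this
  exact ((integrable_const t).add h).abs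

lemma kap_lip (s t : ℝ) : |kap s - kap t| ≤ |s - t| := by
  unfold kap
  rw [← integral_sub (abs_int s) (abs_int t)]
  calc |∫ x, (|s + x| - |t + x|) ∂(gaussianReal 0 1)|
      ≤ ∫ x, |(|s + x| - |t + x|)| ∂(gaussianReal 0 1) := abs_integral_le_integral_abs
    _ ≤ ∫ _x, |s - t| ∂(gaussianReal 0 1) := by
        apply integral_mono
        · exact ((abs_int s).sub (abs_int t)).abs
        · exact integrable_const _
        · intro x
          have := abs_abs_sub_abs_le (s + x) (t + x)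
          simpa using this
    _ = |s - t| := by simp

lemma kap_cont : Continuous kap := by
  have : LipschitzWith 1 kap := by
    apply LipschitzWith.of_dist_le_mul
    intro s t
    rw [Real.dist_eq, Real.dist_eq]
    simpa using kap_lip s t
  exact this.continuous

/-- the data -/
structure Data (n N Q : ℕ) (ε C0 : ℝ) (u : Fin N → E n) (r : Fin N → ℝ)
    (μ₀ : Measure (E n)) : Prop where
  hn : 1 ≤ n
  hu : ∀ j, ‖u j‖ = 1
  hr : ∀ j, 0 ≤ r j
  hε : 0 ≤ ε
  hC : 0 ≤ C0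
  fin : IsFiniteMeasure μ₀
  unit : ∀ᵐ w ∂μ₀, ‖w‖ = 1
  star : ∀ W : E n, |∑ j, r j * kap ⟪W, u j⟫ - ∫ w, kap ⟪W, w⟫ ∂μ₀| ≤ ε * (Real.sqrt n + ‖W‖)
  mom : ∀ p : ℕ, p ≤ Q → ∀ y : E n, ∫ w, |⟪y, w⟫| ^ p ∂μ₀ ≤ C0 * Real.sqrt n * (‖y‖ / Real.sqrt n) ^ p

variable {n N Q : ℕ} {ε C0 : ℝ} {u : Fin N → E n} {r : Fin N → ℝ} {μ₀ : Measure (E n)}

lemma Data.int (D : Data n N Q ε C0 u r μ₀) (f : E n → ℝ) (hf : Continuous f) :
    Integrable f μ₀ := by
  haveI := D.fin
  obtain ⟨C, hC⟩ := (isCompact_closedBall (0 : E n) 1).exists_bound_of_continuousOn hf.continuousOn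
  refine Integrable.of_bound hf.aestronglyMeasurable C ?_
  filter_upwards [D.unit] with w hw
  apply hC
  simp [hw]

/-- comparison for finite combinations -/
lemma Data.combo (D : Data n N Q ε C0 u r μ₀) {ι : Type*} [Fintype ι] (w : ι → ℝ) (V : ι → E n) :
    |∑ j, r j * (∑ a, w a * kap ⟪V a, u j⟫) - ∫ z, (∑ a, w a * kap ⟪V a, z⟫) ∂μ₀|
      ≤ ε * ∑ a, |w a| * (Real.sqrt n + ‖V a‖) := by
  have hi : ∀ a, Integrable (fun z => w a * kap ⟪V a, z⟫) μ₀ := by
    intro a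
    apply D.int
    have := kap_cont
    fun_prop
  rw [integral_finsetSum _ (fun a _ => hi a)]
  have e1 : ∑ j, r j * (∑ a, w a * kap ⟪V a, u j⟫) = ∑ a, w a * ∑ j, r j * kap ⟪V a, u j⟫ := by
    simp only [Finset.mul_sum]
    rw [Finset.sum_comm]
    refine Finset.sum_congr rfl fun a _ => Finset.sum_congr rfl fun j _ => by ring
  rw [e1, ← Finset.sum_sub_distrib]
  calc |∑ a, (w a * ∑ j, r j * kap ⟪V a, u j⟫ - ∫ z, w a * kap ⟪V a, z⟫ ∂μ₀)|
      ≤ ∑ a, |w a * ∑ j, r j * kap ⟪V a, u j⟫ - ∫ z, w a * kap ⟪V a, z⟫ ∂μ₀| :=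
        Finset.abs_sum_le_sum_abs _ _
    _ ≤ ∑ a, ε * (|w a| * (Real.sqrt n + ‖V a‖)) := by
        refine Finset.sum_le_sum fun a _ => ?_
        rw [integral_const_mul, ← mul_sub, abs_mul]
        have := mul_le_mul_of_nonneg_left (D.star (V a)) (abs_nonneg (w a))
        linarith
    _ = ε * ∑ a, |w a| * (Real.sqrt n + ‖V a‖) := by rw [Finset.mul_sum]

/-- the flat nonnegative combination -/
noncomputable def kk {M : ℕ} (ρ β : Fin (M + 1) → ℝ) (t : ℝ) : ℝ :=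
  ∑ i, ρ i * (kap (β i * t) - kap 0)

lemma kk_cont {M : ℕ} (ρ β : Fin (M + 1) → ℝ) : Continuous (kk ρ β) := by
  unfold kk
  have := kap_cont
  fun_prop

lemma sqrt_pos (hn : 1 ≤ n) : 0 < Real.sqrt n := Real.sqrt_pos.mpr (by exact_mod_cast hn)

/-- the tail bound -/
lemma Data.tail (D : Data n N Q ε C0 u r μ₀) {M : ℕ} (hQ : 2 * M + 2 ≤ Q)
    (ρ β : Fin (M + 1) → ℝ) (C : ℝ) (hC : 0 ≤ C) (hβ : ∀ i, 0 ≤ β i)
    (hup : ∀ t : ℝ, kk ρ β t ≤ C * t ^ (2 * M + 2))
    (v : E n) (hv : ‖v‖ = 1) (η : ℝ) (hη : 0 < η) (hη1 : η ≤ 1) :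
    ∑ j, r j * kk ρ β (η * Real.sqrt n * ⟪v, u j⟫)
      ≤ Real.sqrt n * ((C * C0) * η ^ (2 * M + 2) + (∑ i, |ρ i| * (2 + β i)) * ε) := by
  have hs := sqrt_pos D.hn
  let w : Fin (M + 1) × Bool → ℝ := fun a => if a.2 then ρ a.1 else -ρ a.1
  let V : Fin (M + 1) × Bool → E n := fun a => if a.2 then (β a.1 * (η * Real.sqrt n)) • v else 0
  have hk : ∀ z : E n, kk ρ β (η * Real.sqrt n * ⟪v, z⟫) = ∑ a, w a * kap ⟪V a, z⟫ := by
    intro z
    unfold kk
    rw [Fintype.sum_prod_type]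
    refine Finset.sum_congr rfl fun i _ => ?_
    rw [Fintype.sum_bool]
    simp only [w, V, if_true, Bool.false_eq_true, if_false, real_inner_smul_left, inner_zero_left]
    rw [← mul_assoc (β i) (η * Real.sqrt n)]
    ring
  have h := D.combo w V
  have e : ∑ a, |w a| * (Real.sqrt n + ‖V a‖) ≤ Real.sqrt n * ∑ i, |ρ i| * (2 + β i) := by
    rw [Fintype.sum_prod_type, Finset.mul_sum]
    refine Finset.sum_le_sum fun i _ => ?_
    rw [Fintype.sum_bool]
    simp only [w, V, if_true, Bool.false_eq_true, if_false, abs_neg, norm_zero, add_zero,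
      norm_smul, hv, mul_one, Real.norm_eq_abs]
    rw [abs_of_nonneg (mul_nonneg (hβ i) (mul_nonneg hη.le hs.le))]
    have h1 : β i * (η * Real.sqrt n) ≤ β i * Real.sqrt n := by
      apply mul_le_mul_of_nonneg_left _ (hβ i)
      nlinarith
    have := mul_le_mul_of_nonneg_left h1 (abs_nonneg (ρ i))
    nlinarith
  have hint : ∫ z, (∑ a, w a * kap ⟪V a, z⟫) ∂μ₀ ≤ C * (C0 * Real.sqrt n * η ^ (2 * M + 2)) := by
    have h1 : ∫ z, (∑ a, w a * kap ⟪V a, z⟫) ∂μ₀
        ≤ ∫ z, C * |⟪(η * Real.sqrt n) • v, z⟫| ^ (2 * M + 2) ∂μ₀ := by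
      apply integral_mono
      · apply D.int
        have := kap_cont
        fun_prop
      · apply D.int
        fun_prop
      · intro z
        have := hup (η * Real.sqrt n * ⟪v, z⟫)
        rw [hk] at this
        simp only [real_inner_smul_left]
        rw [Even.pow_abs ⟨M + 1, by ring⟩]
        exact this
    rw [integral_const_mul] at h1
    have h2 := D.mom (2 * M + 2) hQ ((η * Real.sqrt n) • v)
    have h3 : ‖(η * Real.sqrt n) • v‖ / Real.sqrt n = η := by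
      rw [norm_smul, hv, mul_one, Real.norm_eq_abs, abs_of_nonneg (mul_nonneg hη.le hs.le)]
      field_simp
    rw [h3] at h2
    exact h1.trans (mul_le_mul_of_nonneg_left h2 hC)
  have h5 : ∑ j, r j * kk ρ β (η * Real.sqrt n * ⟪v, u j⟫)
      = ∑ j, r j * (∑ a, w a * kap ⟪V a, u j⟫) := by
    refine Finset.sum_congr rfl fun j _ => ?_
    rw [hk]
  rw [h5]
  have h6 := (abs_le.mp h).2
  have h7 := mul_le_mul_of_nonneg_left e D.hε
  nlinarith

end Pool.Agent.E8helper29.Zn
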