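import Pool.Agent.E8helper29.Zn.Core2

set_option autoImplicit false

namespace Pool.Agent.E8helper29.Zn

open MeasureTheory ProbabilityTheory Pool.Agent.Helper649.Zono
open scoped RealInnerProductSpace Nat NNReal

variable {n N Q : ℕ} {ε C0 : ℝ} {u : Fin N → E n} {r : Fin N → ℝ} {μ₀ : Measure (E n)}

lemma abs_sg (b : Bool) : |sg b| = 1 := by
  cases b <;> simp [sg]

/-- comparison for the signed kernel -/
lemma Data.ker (D : Data n N Q ε C0 u r μ₀) {M p : ℕ} (ω : Fin (M + 1) → ℝ)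
    (X : Fin p → E n) (hX : ∀ i, ‖X i‖ = Real.sqrt n) (v : E n) (hv : ‖v‖ = 1)
    (η : ℝ) (hη : 0 < η) (hη1 : η ≤ 1) (Ker : E n → ℝ)
    (hKer : ∀ z, Ker z = ∑ σ : Fin p → Bool, ∑ b : Bool, (∏ i, sg (σ i)) * sg b *
      (∑ l, ω l * kap ((l : ℕ) * (∑ i, sg (σ i) * (η * ⟪X i, z⟫) + sg b * (η * Real.sqrt n * ⟪v, z⟫))))) :
    |∑ j, r j * Ker (u j) - ∫ z, Ker z ∂μ₀|
      ≤ ε * (Real.sqrt n * (2 ^ (p + 1) * ((1 + M * (p + 1)) * ∑ l, |ω l|))) := by
  have hs := sqrt_pos D.hn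
  let w : (Fin p → Bool) × Bool × Fin (M + 1) → ℝ := fun a => (∏ i, sg (a.1 i)) * sg a.2.1 * ω a.2.2
  let V : (Fin p → Bool) × Bool × Fin (M + 1) → E n := fun a =>
    ((a.2.2 : ℕ) * η : ℝ) • (∑ i, sg (a.1 i) • X i + (sg a.2.1 * Real.sqrt n) • v)
  have hk : ∀ z : E n, Ker z = ∑ a, w a * kap ⟪V a, z⟫ := by
    intro z
    rw [hKer, Fintype.sum_prod_type]
    refine Finset.sum_congr rfl fun σ _ => ?_
    rw [Fintype.sum_prod_type]
    refine Finset.sum_congr rfl fun b _ => ?_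
    rw [Finset.mul_sum]
    refine Finset.sum_congr rfl fun l _ => ?_
    have e : ((l : ℕ) : ℝ) * (∑ i, sg (σ i) * (η * ⟪X i, z⟫) + sg b * (η * Real.sqrt n * ⟪v, z⟫))
        = ⟪V (σ, b, l), z⟫ := by
      simp only [V, real_inner_smul_left, inner_add_left, sum_inner]
      rw [mul_assoc (l : ℝ) η, mul_add η, Finset.mul_sum]
      congr 2
      · refine Finset.sum_congr rfl fun i _ => by ring
      · ring
    rw [e]
    simp only [w]
    ring
  have h := D.combo w V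
  have hV : ∀ a, Real.sqrt n + ‖V a‖ ≤ Real.sqrt n * (1 + M * (p + 1)) := by
    intro a
    have h1 : ‖∑ i, sg (a.1 i) • X i + (sg a.2.1 * Real.sqrt n) • v‖ ≤ (p + 1) * Real.sqrt n := by
      calc _ ≤ ‖∑ i, sg (a.1 i) • X i‖ + ‖(sg a.2.1 * Real.sqrt n) • v‖ := norm_add_le _ _
        _ ≤ ∑ i, ‖sg (a.1 i) • X i‖ + ‖(sg a.2.1 * Real.sqrt n) • v‖ := by
            gcongr
            exact norm_sum_le _ _
        _ = (p + 1) * Real.sqrt n := by
            simp only [norm_smul, Real.norm_eq_abs, abs_mul, abs_sg, hX, hv, one_mul, mul_one,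
              Finset.sum_const, Finset.card_univ, Fintype.card_fin, nsmul_eq_mul]
            rw [abs_of_nonneg hs.le]
            ring
    have h2 : (((a.2.2 : ℕ) : ℝ) * η) ≤ M := by
      have : ((a.2.2 : ℕ) : ℝ) ≤ M := by exact_mod_cast Nat.lt_succ_iff.mp a.2.2.2
      have h0 : (0 : ℝ) ≤ ((a.2.2 : ℕ) : ℝ) := by positivity
      nlinarith
    have h3 : ‖V a‖ ≤ M * ((p + 1) * Real.sqrt n) := by
      simp only [V]
      rw [norm_smul, Real.norm_eq_abs, abs_of_nonneg (by positivity)]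
      exact mul_le_mul h2 h1 (norm_nonneg _) (by positivity)
    nlinarith
  have hw : ∑ a, |w a| = 2 ^ (p + 1) * ∑ l, |ω l| := by
    rw [Fintype.sum_prod_type]
    have : ∀ σ : Fin p → Bool, ∑ y : Bool × Fin (M + 1), |w (σ, y)| = 2 * ∑ l, |ω l| := by
      intro σ
      rw [Fintype.sum_prod_type, Fintype.sum_bool]
      simp only [w, abs_mul, Finset.abs_prod, abs_sg, Finset.prod_const_one, one_mul]
      ring
    rw [Finset.sum_congr rfl (fun σ _ => this σ)]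
    simp only [Finset.sum_const, Finset.card_univ, Fintype.card_pi, Fintype.card_bool,
      Finset.prod_const, Fintype.card_fin, nsmul_eq_mul]
    push_cast
    ring
  have e1 : ∑ a, |w a| * (Real.sqrt n + ‖V a‖)
      ≤ Real.sqrt n * (2 ^ (p + 1) * ((1 + M * (p + 1)) * ∑ l, |ω l|)) := by
    calc _ ≤ ∑ a, |w a| * (Real.sqrt n * (1 + M * (p + 1))) :=
          Finset.sum_le_sum fun a _ => mul_le_mul_of_nonneg_left (hV a) (abs_nonneg _)
      _ = _ := by
          rw [← Finset.sum_mul, hw]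
          ring
  have e2 : ∑ j, r j * Ker (u j) = ∑ j, r j * (∑ a, w a * kap ⟪V a, u j⟫) :=
    Finset.sum_congr rfl fun j _ => by rw [hk]
  have e3 : ∫ z, Ker z ∂μ₀ = ∫ z, (∑ a, w a * kap ⟪V a, z⟫) ∂μ₀ :=
    integral_congr_ae (Filter.Eventually.of_forall fun z => hk z)
  rw [e2, e3]
  exact h.trans (mul_le_mul_of_nonneg_left e1 D.hε)

lemma pow_sum_le (p m : ℕ) (hm : 1 ≤ m) (a : Fin p → ℝ) (ha : ∀ i, 0 ≤ a i) :
    (∑ i, a i) ^ m ≤ (p : ℝ) ^ m * ∑ i, a i ^ m := by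
  rcases Nat.eq_zero_or_pos p with hp | hp
  · subst hp
    simp only [Finset.univ_eq_empty, Finset.sum_empty, mul_zero]
    rw [zero_pow (by omega)]
  · obtain ⟨m, rfl⟩ : ∃ m', m = m' + 1 := ⟨m - 1, by omega⟩
    have h := pow_sum_div_card_le_sum_pow (s := Finset.univ) (f := a) (fun i _ => ha i) m
    simp only [Finset.card_univ, Fintype.card_fin] at h
    have hp1 : (1 : ℝ) ≤ p := by exact_mod_cast hp
    rw [div_le_iff₀ (by positivity)] at h
    have h0 : 0 ≤ ∑ i, a i ^ (m + 1) := Finset.sum_nonneg fun i _ => pow_nonneg (ha i) _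
    calc _ ≤ (∑ i, a i ^ (m + 1)) * (p : ℝ) ^ m := h
      _ ≤ (∑ i, a i ^ (m + 1)) * (p : ℝ) ^ (m + 1) := by
          apply mul_le_mul_of_nonneg_left _ h0
          exact pow_le_pow_right₀ hp1 (by omega)
      _ = _ := by ring

lemma mix_le (p m : ℕ) (A τ : ℝ) (hA : 0 ≤ A) (hτ : 0 ≤ τ) :
    A ^ p * τ ^ m ≤ A ^ (m + p) + τ ^ (m + p) := by
  rcases le_total A τ with h | h
  · have h1 : A ^ p * τ ^ m ≤ τ ^ p * τ ^ m :=
      mul_le_mul_of_nonneg_right (pow_le_pow_left₀ hA h p) (by positivity)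
    have h2 : τ ^ p * τ ^ m = τ ^ (m + p) := by ring
    have h3 : 0 ≤ A ^ (m + p) := by positivity
    linarith
  · have h1 : A ^ p * τ ^ m ≤ A ^ p * A ^ m :=
      mul_le_mul_of_nonneg_left (pow_le_pow_left₀ hτ h m) (by positivity)
    have h2 : A ^ p * A ^ m = A ^ (m + p) := by ring
    have h3 : 0 ≤ τ ^ (m + p) := by positivity
    linarith

/-- moments of the sum of coordinates -/
lemma Data.momA (D : Data n N Q ε C0 u r μ₀) {p m : ℕ} (hm : 1 ≤ m) (hmQ : m ≤ Q)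
    (X : Fin p → E n) (hX : ∀ i, ‖X i‖ = Real.sqrt n) (η : ℝ) (hη : 0 < η) :
    ∫ z, (∑ i, |η * ⟪X i, z⟫|) ^ m ∂μ₀ ≤ (p : ℝ) ^ (m + 1) * (C0 * Real.sqrt n * η ^ m) := by
  have hs := sqrt_pos D.hn
  calc ∫ z, (∑ i, |η * ⟪X i, z⟫|) ^ m ∂μ₀
      ≤ ∫ z, (p : ℝ) ^ m * ∑ i, |⟪η • X i, z⟫| ^ m ∂μ₀ := by
        apply integral_mono
        · apply D.int; fun_prop
        · apply D.int; fun_prop
        · intro z
          have := pow_sum_le p m hm (fun i => |η * ⟪X i, z⟫|) (fun i => abs_nonneg _)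
          simpa only [real_inner_smul_left] using this
    _ = (p : ℝ) ^ m * ∑ i, ∫ z, |⟪η • X i, z⟫| ^ m ∂μ₀ := by
        rw [integral_const_mul, integral_finsetSum]
        intro i _
        apply D.int; fun_prop
    _ ≤ (p : ℝ) ^ m * ∑ _i : Fin p, (C0 * Real.sqrt n * η ^ m) := by
        apply mul_le_mul_of_nonneg_left _ (by positivity)
        refine Finset.sum_le_sum fun i _ => ?_
        have := D.mom m hmQ (η • X i)
        rw [norm_smul, hX, Real.norm_eq_abs, abs_of_pos hη, mul_div_assoc, div_self hs.ne',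
          mul_one] at this
        exact this
    _ = _ := by
        simp only [Finset.sum_const, Finset.card_univ, Fintype.card_fin, nsmul_eq_mul]
        ring

lemma Data.momT (D : Data n N Q ε C0 u r μ₀) {m : ℕ} (hmQ : m ≤ Q)
    (v : E n) (hv : ‖v‖ = 1) (η : ℝ) (hη : 0 < η) :
    ∫ z, |η * Real.sqrt n * ⟪v, z⟫| ^ m ∂μ₀ ≤ C0 * Real.sqrt n * η ^ m := by
  have hs := sqrt_pos D.hn
  have := D.mom m hmQ ((η * Real.sqrt n) • v)
  rw [norm_smul, hv, Real.norm_eq_abs, abs_of_pos (mul_pos hη hs), mul_one, mul_div_assoc,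
    div_self hs.ne', mul_one] at this
  simpa only [real_inner_smul_left] using this

end Pool.Agent.E8helper29.Zn
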