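import Pool.Agent.E8helper29.Zn.Core3

set_option autoImplicit false

namespace Pool.Agent.E8helper29.Zn

open MeasureTheory ProbabilityTheory Pool.Agent.Helper649.Zono
open scoped RealInnerProductSpace Nat NNReal

theorem sup_aux {n N M p K : ℕ} {ε C0 : ℝ} {u : Fin N → E n} {r : Fin N → ℝ}
    {μ₀ : Measure (E n)} (hKp : K = p + 1)
    (D : Data n N (2 * M + 2 + p) ε C0 u r μ₀)
    (ω ρ β : Fin (M + 1) → ℝ) (C3 C5 cm : ℝ) (hC3 : 0 ≤ C3) (hC5 : 0 ≤ C5) (hcm : cm ≠ 0)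
    (hβ : ∀ i, 0 ≤ β i) (hk0 : ∀ t : ℝ, 0 ≤ kk ρ β t)
    (hkup : ∀ t : ℝ, kk ρ β t ≤ C3 * t ^ (2 * M + 2))
    (hker : ∀ (s : Fin p → ℝ) (τ : ℝ),
      |∑ σ : Fin p → Bool, ∑ b : Bool, (∏ i, sg (σ i)) * sg b *
          (∑ l, ω l * kap ((l : ℕ) * (∑ i, sg (σ i) * s i + sg b * τ)))
        - cm * (∏ i, s i) * τ|
      ≤ C5 * ((∑ i, |s i|) ^ (2 * M + 2) + (1 + (∑ i, |s i|) ^ p) * kk ρ β τ))
    (X : Fin p → E n) (hX : ∀ i, ‖X i‖ = Real.sqrt n) (v : E n) (hv : ‖v‖ = 1)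
    (η : ℝ) (hη : 0 < η) (hη1 : η ≤ 1) (S : ℝ) (hS0 : 0 ≤ S)
    (hS : ∀ j, (∑ i, |η * ⟪X i, u j⟫|) ^ p ≤ S) :
    |cm| * (η ^ K * |∑ j, r j * ((∏ i, ⟪X i, u j⟫) * ⟪v, u j⟫)
          - ∫ z, (∏ i, ⟪X i, z⟫) * ⟪v, z⟫ ∂μ₀|)
      ≤ (2 ^ (p + 1) * ((1 + M * (p + 1)) * ∑ l, |ω l|)) * ε
        + C5 * (∑ j, (r j / Real.sqrt n) * (∑ i, |η * ⟪X i, u j⟫|) ^ (2 * M + 2)
          + (1 + S) * ((C3 * C0) * η ^ (2 * M + 2) + (∑ i, |ρ i| * (2 + β i)) * ε))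
        + C5 * ((p : ℝ) ^ (2 * M + 3) * C0
          + C3 * (C0 + ((p : ℝ) ^ (2 * M + 2 + p + 1) * C0 + C0))) * η ^ (2 * M + 2) := by
  have hs := sqrt_pos D.hn
  set A : E n → ℝ := fun z => ∑ i, |η * ⟪X i, z⟫| with hA
  set τ : E n → ℝ := fun z => η * Real.sqrt n * ⟪v, z⟫ with hτ
  set Ker : E n → ℝ := fun z => ∑ σ : Fin p → Bool, ∑ b : Bool, (∏ i, sg (σ i)) * sg b *
      (∑ l, ω l * kap ((l : ℕ) * (∑ i, sg (σ i) * (η * ⟪X i, z⟫) + sg b * (η * Real.sqrt n * ⟪v, z⟫))))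
      with hKer
  set Mn : E n → ℝ := fun z => cm * (∏ i, (η * ⟪X i, z⟫)) * τ z with hMn
  have hkc := kap_cont
  have hkkc := kk_cont ρ β
  have hAc : Continuous A := by fun_prop
  have hτc : Continuous τ := by fun_prop
  have hKc : Continuous Ker := by fun_prop
  have hMc : Continuous Mn := by fun_prop
  have hA0 : ∀ z, 0 ≤ A z := fun z => Finset.sum_nonneg fun _ _ => abs_nonneg _
  have hT1 := D.ker ω X hX v hv η hη hη1 Ker (fun z => rfl)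
  have hdiff : ∀ z, |Ker z - Mn z| ≤ C5 * (A z ^ (2 * M + 2) + (1 + A z ^ p) * kk ρ β (τ z)) :=
    fun z => hker (fun i => η * ⟪X i, z⟫) (τ z)
  -- discrete part
  have hd1 : |∑ j, r j * Ker (u j) - ∑ j, r j * Mn (u j)|
      ≤ C5 * (∑ j, r j * A (u j) ^ (2 * M + 2) + (1 + S) * ∑ j, r j * kk ρ β (τ (u j))) := by
    rw [← Finset.sum_sub_distrib]
    calc |∑ j, (r j * Ker (u j) - r j * Mn (u j))|
        ≤ ∑ j, |r j * Ker (u j) - r j * Mn (u j)| := Finset.abs_sum_le_sum_abs _ _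
      _ ≤ ∑ j, (C5 * (r j * A (u j) ^ (2 * M + 2)) + C5 * ((1 + S) * (r j * kk ρ β (τ (u j))))) := by
          refine Finset.sum_le_sum fun j _ => ?_
          rw [← mul_sub, abs_mul, abs_of_nonneg (D.hr j)]
          have h1 := mul_le_mul_of_nonneg_left (hdiff (u j)) (D.hr j)
          have h2 : A (u j) ^ p ≤ S := hS j
          have h3 := mul_nonneg (mul_nonneg hC5 (D.hr j)) (hk0 (τ (u j)))
          have h4 := mul_le_mul_of_nonneg_left h2 h3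
          nlinarith
      _ = _ := by
          rw [Finset.sum_add_distrib, ← Finset.mul_sum, ← Finset.mul_sum, ← Finset.mul_sum]
          ring
  have hd2 : ∑ j, r j * kk ρ β (τ (u j))
      ≤ Real.sqrt n * ((C3 * C0) * η ^ (2 * M + 2) + (∑ i, |ρ i| * (2 + β i)) * ε) :=
    D.tail (by omega) ρ β C3 hC3 hβ hkup v hv η hη hη1
  -- continuous part
  have hc1 : |∫ z, Ker z ∂μ₀ - ∫ z, Mn z ∂μ₀|
      ≤ Real.sqrt n * (C5 * ((p : ℝ) ^ (2 * M + 3) * C0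
          + C3 * (C0 + ((p : ℝ) ^ (2 * M + 2 + p + 1) * C0 + C0))) * η ^ (2 * M + 2)) := by
    rw [← integral_sub (D.int _ hKc) (D.int _ hMc)]
    have hηQ : η ^ (2 * M + 2 + p) ≤ η ^ (2 * M + 2) := pow_le_pow_of_le_one hη.le hη1 (by omega)
    have i1 := D.momA (p := p) (m := 2 * M + 2) (by omega) (by omega) X hX η hη
    have i2 := D.momA (p := p) (m := 2 * M + 2 + p) (by omega) le_rfl X hX η hη
    have i3 := D.momT (m := 2 * M + 2) (by omega) v hv η hη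
    have i4 := D.momT (m := 2 * M + 2 + p) le_rfl v hv η hη
    calc |∫ z, (Ker z - Mn z) ∂μ₀| ≤ ∫ z, |Ker z - Mn z| ∂μ₀ := abs_integral_le_integral_abs
      _ ≤ ∫ z, (C5 * (A z ^ (2 * M + 2)) + C5 * C3 * (|τ z| ^ (2 * M + 2)
            + (A z ^ (2 * M + 2 + p) + |τ z| ^ (2 * M + 2 + p)))) ∂μ₀ := by
          apply integral_mono
          · apply D.int; fun_prop
          · apply D.int; fun_prop
          · intro z
            have h1 := hdiff z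
            have h2 := hkup (τ z)
            rw [← Even.pow_abs ⟨M + 1, by ring⟩] at h2
            have h3 := mix_le p (2 * M + 2) (A z) |τ z| (hA0 z) (abs_nonneg _)
            have h4 : 0 ≤ A z ^ p := pow_nonneg (hA0 z) _
            have h5 : (1 + A z ^ p) * kk ρ β (τ z) ≤ (1 + A z ^ p) * (C3 * |τ z| ^ (2 * M + 2)) :=
              mul_le_mul_of_nonneg_left h2 (by linarith)
            have h6 : (1 + A z ^ p) * kk ρ β (τ z) ≤ C3 * (|τ z| ^ (2 * M + 2)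
                + (A z ^ (2 * M + 2 + p) + |τ z| ^ (2 * M + 2 + p))) := by
              have := mul_le_mul_of_nonneg_left h3 hC3
              nlinarith
            have := mul_le_mul_of_nonneg_left h6 hC5
            simp only
            nlinarith
      _ = C5 * ∫ z, A z ^ (2 * M + 2) ∂μ₀ + C5 * C3 * (∫ z, |τ z| ^ (2 * M + 2) ∂μ₀
            + (∫ z, A z ^ (2 * M + 2 + p) ∂μ₀ + ∫ z, |τ z| ^ (2 * M + 2 + p) ∂μ₀)) := by
          rw [integral_add (by apply D.int; fun_prop) (by apply D.int; fun_prop),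
            integral_const_mul, integral_const_mul,
            integral_add (by apply D.int; fun_prop) (by apply D.int; fun_prop),
            integral_add (by apply D.int; fun_prop) (by apply D.int; fun_prop)]
      _ ≤ C5 * ((p : ℝ) ^ (2 * M + 2 + 1) * (C0 * Real.sqrt n * η ^ (2 * M + 2)))
          + C5 * C3 * (C0 * Real.sqrt n * η ^ (2 * M + 2)
            + ((p : ℝ) ^ (2 * M + 2 + p + 1) * (C0 * Real.sqrt n * η ^ (2 * M + 2))
              + C0 * Real.sqrt n * η ^ (2 * M + 2))) := by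
          have hcs : 0 ≤ C0 * Real.sqrt n := mul_nonneg D.hC hs.le
          have j2 : (p : ℝ) ^ (2 * M + 2 + p + 1) * (C0 * Real.sqrt n * η ^ (2 * M + 2 + p))
              ≤ (p : ℝ) ^ (2 * M + 2 + p + 1) * (C0 * Real.sqrt n * η ^ (2 * M + 2)) :=
            mul_le_mul_of_nonneg_left (mul_le_mul_of_nonneg_left hηQ hcs) (by positivity)
          have j4 : C0 * Real.sqrt n * η ^ (2 * M + 2 + p) ≤ C0 * Real.sqrt n * η ^ (2 * M + 2) :=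
            mul_le_mul_of_nonneg_left hηQ hcs
          have k1 : ∫ z, |τ z| ^ (2 * M + 2) ∂μ₀
              + (∫ z, A z ^ (2 * M + 2 + p) ∂μ₀ + ∫ z, |τ z| ^ (2 * M + 2 + p) ∂μ₀)
              ≤ C0 * Real.sqrt n * η ^ (2 * M + 2)
            + ((p : ℝ) ^ (2 * M + 2 + p + 1) * (C0 * Real.sqrt n * η ^ (2 * M + 2))
              + C0 * Real.sqrt n * η ^ (2 * M + 2)) := by
            linarith
          exact add_le_add (mul_le_mul_of_nonneg_left i1 hC5)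
            (mul_le_mul_of_nonneg_left k1 (mul_nonneg hC5 hC3))
      _ = _ := by ring
  -- main terms
  have hm1 : ∑ j, r j * Mn (u j)
      = cm * η ^ K * Real.sqrt n * ∑ j, r j * ((∏ i, ⟪X i, u j⟫) * ⟪v, u j⟫) := by
    rw [Finset.mul_sum]
    refine Finset.sum_congr rfl fun j _ => ?_
    simp only [hMn, hτ, Finset.prod_mul_distrib, Finset.prod_const, Finset.card_univ,
      Fintype.card_fin]
    rw [hKp, pow_succ]
    ring
  have hm2 : ∫ z, Mn z ∂μ₀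
      = cm * η ^ K * Real.sqrt n * ∫ z, (∏ i, ⟪X i, z⟫) * ⟪v, z⟫ ∂μ₀ := by
    rw [← integral_const_mul]
    refine integral_congr_ae (Filter.Eventually.of_forall fun z => ?_)
    simp only [hMn, hτ, Finset.prod_mul_distrib, Finset.prod_const, Finset.card_univ,
      Fintype.card_fin]
    rw [hKp, pow_succ]
    ring
  have hfin : |∑ j, r j * Mn (u j) - ∫ z, Mn z ∂μ₀|
      ≤ |∑ j, r j * Ker (u j) - ∫ z, Ker z ∂μ₀| + |∑ j, r j * Ker (u j) - ∑ j, r j * Mn (u j)|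
        + |∫ z, Ker z ∂μ₀ - ∫ z, Mn z ∂μ₀| := by
    have := abs_add_three (∑ j, r j * Ker (u j) - ∫ z, Ker z ∂μ₀)
      (-(∑ j, r j * Ker (u j) - ∑ j, r j * Mn (u j))) (∫ z, Ker z ∂μ₀ - ∫ z, Mn z ∂μ₀)
    rw [abs_neg] at this
    refine le_trans (le_of_eq ?_) this
    congr 1; ring
  rw [hm1, hm2, ← mul_sub, abs_mul, abs_mul, abs_mul, abs_of_pos hs,
    abs_of_pos (pow_pos hη K)] at hfin
  have hsum : ∑ j, r j * A (u j) ^ (2 * M + 2)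
      = Real.sqrt n * ∑ j, (r j / Real.sqrt n) * A (u j) ^ (2 * M + 2) := by
    rw [Finset.mul_sum]
    refine Finset.sum_congr rfl fun j _ => ?_
    field_simp
  have hd3 : (1 + S) * ∑ j, r j * kk ρ β (τ (u j)) ≤ (1 + S) * (Real.sqrt n *
      ((C3 * C0) * η ^ (2 * M + 2) + (∑ i, |ρ i| * (2 + β i)) * ε)) :=
    mul_le_mul_of_nonneg_left hd2 (by linarith)
  have hd4 : |∑ j, r j * Ker (u j) - ∑ j, r j * Mn (u j)|
      ≤ Real.sqrt n * (C5 * (∑ j, (r j / Real.sqrt n) * A (u j) ^ (2 * M + 2)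
        + (1 + S) * ((C3 * C0) * η ^ (2 * M + 2) + (∑ i, |ρ i| * (2 + β i)) * ε))) := by
    refine hd1.trans ?_
    rw [hsum]
    have := mul_le_mul_of_nonneg_left hd3 hC5
    nlinarith
  rw [hm1] at hd4
  rw [hm2] at hc1
  have hall : Real.sqrt n * (|cm| * (η ^ K * |∑ j, r j * ((∏ i, ⟪X i, u j⟫) * ⟪v, u j⟫)
          - ∫ z, (∏ i, ⟪X i, z⟫) * ⟪v, z⟫ ∂μ₀|))
      ≤ Real.sqrt n * ((2 ^ (p + 1) * ((1 + M * (p + 1)) * ∑ l, |ω l|)) * ε
        + C5 * (∑ j, (r j / Real.sqrt n) * A (u j) ^ (2 * M + 2)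
          + (1 + S) * ((C3 * C0) * η ^ (2 * M + 2) + (∑ i, |ρ i| * (2 + β i)) * ε))
        + C5 * ((p : ℝ) ^ (2 * M + 3) * C0
          + C3 * (C0 + ((p : ℝ) ^ (2 * M + 2 + p + 1) * C0 + C0))) * η ^ (2 * M + 2)) := by
    linarith
  exact le_of_mul_le_mul_left hall hs

theorem sup_bound (h2 : Stm2) (h3 : Stm3) (h5 : Stm5) (k M : ℕ) (hk : 1 ≤ k) (hM : k ≤ M)
    (C0 : ℝ) (hC0 : 0 ≤ C0) :
    ∃ C : ℝ, 0 ≤ C ∧ ∀ (n N : ℕ) (ε : ℝ) (u : Fin N → E n) (r : Fin N → ℝ) (μ₀ : Measure (E n)),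
      Data n N (2 * M + 2 + (2 * k - 1)) ε C0 u r μ₀ →
      ∀ (X : Fin (2 * k - 1) → E n), (∀ i, ‖X i‖ = Real.sqrt n) → ∀ v : E n, ‖v‖ = 1 →
      ∀ η : ℝ, 0 < η → η ≤ 1 → ∀ S : ℝ, 0 ≤ S →
      (∀ j, (∑ i, |η * ⟪X i, u j⟫|) ^ (2 * k - 1) ≤ S) →
      η ^ (2 * k) * |∑ j, r j * ((∏ i, ⟪X i, u j⟫) * ⟪v, u j⟫)
          - ∫ z, (∏ i, ⟪X i, z⟫) * ⟪v, z⟫ ∂μ₀|
        ≤ C * ((1 + S) * (ε + η ^ (2 * M + 2))
          + ∑ j, (r j / Real.sqrt n) * (∑ i, |η * ⟪X i, u j⟫|) ^ (2 * M + 2)) := by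
  obtain ⟨ω, a, C2, ha, hC2, hG1, hG2⟩ := h2 k M hk hM
  obtain ⟨ρ, β, c3, C3, hc3, hC3, hβ, hk0, hkup, hkl, hkl2⟩ := h3 M
  obtain ⟨C5, hC5, hker⟩ := h5 k M hk hM (fun θ => ∑ l, ω l * kap ((l : ℕ) * θ)) (kk ρ β) a C2 c3
    hc3 hC2 hG1 hG2 hk0 hkl hkl2
  obtain ⟨cm, hcm⟩ : ∃ cm : ℝ, cm = 2 ^ (2 * k) * ((2 * k)! : ℝ) * a := ⟨_, rfl⟩
  have hcm0 : cm ≠ 0 := by
    rw [hcm]
    have : ((2 * k)! : ℝ) ≠ 0 := by exact_mod_cast (Nat.factorial_pos _).ne'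
    have h2 : (2 : ℝ) ^ (2 * k) ≠ 0 := by positivity
    exact mul_ne_zero (mul_ne_zero h2 this) ha
  rw [← hcm] at hker
  have hcp : 0 < |cm| := abs_pos.mpr hcm0
  obtain ⟨K1, hK1⟩ : ∃ K1 : ℝ, K1 = 2 ^ (2 * k - 1 + 1) *
      ((1 + M * (((2 * k - 1 : ℕ) : ℝ) + 1)) * ∑ l, |ω l|) := ⟨_, rfl⟩
  obtain ⟨K3, hK3⟩ : ∃ K3 : ℝ, K3 = ∑ i, |ρ i| * (2 + β i) := ⟨_, rfl⟩
  obtain ⟨K4, hK4⟩ : ∃ K4 : ℝ, K4 = C5 * (((2 * k - 1 : ℕ) : ℝ) ^ (2 * M + 3) * C0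
      + C3 * (C0 + (((2 * k - 1 : ℕ) : ℝ) ^ (2 * M + 2 + (2 * k - 1) + 1) * C0 + C0))) := ⟨_, rfl⟩
  have hK10 : 0 ≤ K1 := by
    rw [hK1]
    have : 0 ≤ ∑ l, |ω l| := Finset.sum_nonneg fun _ _ => abs_nonneg _
    positivity
  have hK30 : 0 ≤ K3 := by
    rw [hK3]
    exact Finset.sum_nonneg fun i _ => mul_nonneg (abs_nonneg _) (by linarith [hβ i])
  have hK40 : 0 ≤ K4 := by
    rw [hK4]; positivity
  refine ⟨(K1 + C5 * (1 + (C3 * C0 + K3)) + K4) / |cm|, by positivity, ?_⟩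
  intro n N ε u r μ₀ D X hX v hv η hη hη1 S hS0 hS
  have h := sup_aux (K := 2 * k) (by omega) D ω ρ β C3 C5 cm hC3 hC5 hcm0 hβ hk0 hkup hker X hX v hv
    η hη hη1 S hS0 hS
  rw [← hK1, ← hK3, ← hK4] at h
  have hT : 0 ≤ ∑ j, (r j / Real.sqrt n) * (∑ i, |η * ⟪X i, u j⟫|) ^ (2 * M + 2) := by
    refine Finset.sum_nonneg fun j _ => ?_
    have := D.hr j
    positivity
  have hε := D.hε
  have hη2 : 0 ≤ η ^ (2 * M + 2) := by positivity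
  rw [div_mul_eq_mul_div, le_div_iff₀ hcp, mul_comm _ |cm|]
  refine h.trans ?_
  generalize (∑ j, (r j / Real.sqrt n) * (∑ i, |η * ⟪X i, u j⟫|) ^ (2 * M + 2)) = T at hT ⊢
  generalize η ^ (2 * M + 2) = e at hη2 ⊢
  have a1 : K1 * ε ≤ K1 * ((1 + S) * (ε + e) + T) := by
    apply mul_le_mul_of_nonneg_left _ hK10
    nlinarith
  have a2 : (C3 * C0) * e + K3 * ε ≤ (C3 * C0 + K3) * (ε + e) := by
    have : 0 ≤ C3 * C0 := mul_nonneg hC3 hC0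
    nlinarith
  have a3 : C5 * (T + (1 + S) * ((C3 * C0) * e + K3 * ε))
      ≤ C5 * (1 + (C3 * C0 + K3)) * ((1 + S) * (ε + e) + T) := by
    rw [mul_assoc C5]
    apply mul_le_mul_of_nonneg_left _ hC5
    have b0 : 0 ≤ C3 * C0 + K3 := by
      have : 0 ≤ C3 * C0 := mul_nonneg hC3 hC0
      linarith
    have b1 := mul_le_mul_of_nonneg_left a2 (by linarith : (0 : ℝ) ≤ 1 + S)
    have b2 : 0 ≤ (1 + S) * (ε + e) := by positivity
    have b3 : 0 ≤ (C3 * C0 + K3) * T := mul_nonneg b0 hT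
    nlinarith
  have a4 : K4 * e ≤ K4 * ((1 + S) * (ε + e) + T) := by
    apply mul_le_mul_of_nonneg_left _ hK40
    nlinarith
  linarith

end Pool.Agent.E8helper29.Zn
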