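import Pool.Agent.E8helper29.Zn.Core4

set_option autoImplicit false

namespace Pool.Agent.E8helper29.Zn

open MeasureTheory ProbabilityTheory Pool.Agent.Helper649.Zono
open scoped RealInnerProductSpace Nat NNReal

variable {n N Q : ℕ} {ε C0 : ℝ} {u : Fin N → E n} {r : Fin N → ℝ} {μ₀ : Measure (E n)}

lemma kap_zero_pos : 0 < kap 0 := by
  unfold kap
  have hi := abs_int 0
  rw [integral_pos_iff_support_of_nonneg (fun x => abs_nonneg _) hi]
  have : Function.support (fun x : ℝ => |0 + x|) = {0}ᶜ := by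
    ext x; simp
  rw [this]
  have := nullSingletonClass_gaussianReal (μ := 0) (v := 1) one_ne_zero
  rw [prob_compl_eq_one_sub (measurableSet_singleton _), measure_singleton]
  simp

lemma Data.mass (D : Data n N Q ε C0 u r μ₀) (hε1 : ε ≤ 1) :
    ∑ j, r j ≤ (C0 + 1 / kap 0) * Real.sqrt n := by
  have hk := kap_zero_pos
  have hs := sqrt_pos D.hn
  have h := D.star 0
  simp only [inner_zero_left, norm_zero, add_zero] at h
  have h2 : ∫ _w : E n, kap 0 ∂μ₀ ≤ kap 0 * (C0 * Real.sqrt n) := by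
    have h3 := D.mom 0 (Nat.zero_le _) 0
    simp only [pow_zero, mul_one] at h3
    have h4 : ∫ _w : E n, kap 0 ∂μ₀ = kap 0 * ∫ _w : E n, (1 : ℝ) ∂μ₀ := by
      rw [← integral_const_mul]; simp
    rw [h4]
    exact mul_le_mul_of_nonneg_left h3 hk.le
  have h5 := (abs_le.mp h).2
  rw [← Finset.sum_mul] at h5
  have h6 : (∑ j, r j) * kap 0 ≤ kap 0 * (C0 * Real.sqrt n) + Real.sqrt n := by nlinarith
  rw [← mul_le_mul_iff_left₀ hk]
  refine h6.trans (le_of_eq ?_)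
  field_simp

/-- the vector attached to sign vectors -/
noncomputable def bv {p : ℕ} (u : Fin N → E n) (r : Fin N → ℝ) (σ : Fin p → Fin n → Bool) : E n :=
  ∑ j, (r j * ∏ i, ⟪sgv (σ i), u j⟫) • u j

/-- the linear functional -/
noncomputable def dl {p : ℕ} (u : Fin N → E n) (r : Fin N → ℝ) (μ₀ : Measure (E n))
    (σ : Fin p → Fin n → Bool) (v : E n) : ℝ :=
  ∑ j, r j * ((∏ i, ⟪sgv (σ i), u j⟫) * ⟪v, u j⟫) - ∫ z, (∏ i, ⟪sgv (σ i), z⟫) * ⟪v, z⟫ ∂μ₀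

lemma dl_smul {p : ℕ} (σ : Fin p → Fin n → Bool) (c : ℝ) (v : E n) :
    dl u r μ₀ σ (c • v) = c * dl u r μ₀ σ v := by
  unfold dl
  simp only [real_inner_smul_left]
  rw [mul_sub, Finset.mul_sum, ← integral_const_mul]
  congr 1
  · refine Finset.sum_congr rfl fun j _ => by ring
  · refine integral_congr_ae (Filter.Eventually.of_forall fun z => ?_)
    simp only; ring

lemma dl_le (D : Data n N Q ε C0 u r μ₀) {p : ℕ} (σ : Fin p → Fin n → Bool) (B : ℝ)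
    (hB : ∀ v : E n, ‖v‖ = 1 → |dl u r μ₀ σ v| ≤ B) (v : E n) :
    dl u r μ₀ σ v ≤ B * ‖v‖ := by
  obtain ⟨y, hy, hv⟩ := exists_unit D.hn v
  rw [hv, dl_smul, norm_smul, hy, mul_one, norm_norm, mul_comm B]
  exact mul_le_mul_of_nonneg_left ((le_abs_self _).trans (hB y hy)) (norm_nonneg _)

/-- sum of squares of the vectors -/
lemma bv_sq (h8 : Stm8) {p : ℕ} :
    ∑ σ : Fin p → Fin n → Bool, ‖bv u r σ‖ ^ 2
      = (2 ^ n) ^ p * ∑ j, ∑ j', r j * r j' * ⟪u j, u j'⟫ ^ (p + 1) := by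
  have h1 : ∀ σ : Fin p → Fin n → Bool, ‖bv u r σ‖ ^ 2 = ∑ j, ∑ j', (r j * r j' * ⟪u j, u j'⟫) *
      ((∏ i, ⟪u j, sgv (σ i)⟫) * (∏ i, ⟪u j', sgv (σ i)⟫)) := by
    intro σ
    rw [← real_inner_self_eq_norm_sq]
    unfold bv
    rw [sum_inner]
    refine Finset.sum_congr rfl fun j _ => ?_
    rw [inner_sum]
    refine Finset.sum_congr rfl fun j' _ => ?_
    rw [real_inner_smul_left, real_inner_smul_right]
    have e1 : ∀ j, ∏ i, ⟪sgv (σ i), u j⟫ = ∏ i, ⟪u j, sgv (σ i)⟫ := fun j =>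
      Finset.prod_congr rfl fun i _ => real_inner_comm _ _
    rw [e1, e1]
    ring
  simp only [h1]
  rw [Finset.sum_comm, Finset.mul_sum]
  refine Finset.sum_congr rfl fun j _ => ?_
  rw [Finset.sum_comm, Finset.mul_sum]
  refine Finset.sum_congr rfl fun j' _ => ?_
  rw [← Finset.mul_sum, h8.2.1]
  ring

/-- the pairing -/
lemma dl_bv (h8 : Stm8) (D : Data n N Q ε C0 u r μ₀) {p : ℕ} :
    ∑ σ : Fin p → Fin n → Bool, dl u r μ₀ σ (bv u r σ)
      = ∑ σ : Fin p → Fin n → Bool, ‖bv u r σ‖ ^ 2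
        - (2 ^ n) ^ p * ∑ j, r j * ∫ z, ⟪u j, z⟫ ^ (p + 1) ∂μ₀ := by
  have h1 : ∀ σ : Fin p → Fin n → Bool, dl u r μ₀ σ (bv u r σ) = ‖bv u r σ‖ ^ 2
      - ∫ z, ∑ j, (r j * ⟪u j, z⟫) * ((∏ i, ⟪z, sgv (σ i)⟫) * (∏ i, ⟪u j, sgv (σ i)⟫)) ∂μ₀ := by
    intro σ
    unfold dl
    congr 1
    · have e0 : ∀ w : E n, ⟪bv u r σ, w⟫ = ∑ j, (r j * ∏ i, ⟪sgv (σ i), u j⟫) * ⟪u j, w⟫ := by
        intro w
        unfold bv
        rw [sum_inner]
        simp only [real_inner_smul_left]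
      rw [← real_inner_self_eq_norm_sq, e0 (bv u r σ)]
      refine Finset.sum_congr rfl fun j _ => ?_
      rw [real_inner_comm (u j) (bv u r σ)]
      ring
    · refine integral_congr_ae (Filter.Eventually.of_forall fun z => ?_)
      simp only
      unfold bv
      rw [sum_inner, Finset.mul_sum]
      refine Finset.sum_congr rfl fun j _ => ?_
      rw [real_inner_smul_left]
      have e1 : ∀ w : E n, ∏ i, ⟪sgv (σ i), w⟫ = ∏ i, ⟪w, sgv (σ i)⟫ := fun w =>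
        Finset.prod_congr rfl fun i _ => real_inner_comm _ _
      rw [e1, e1]
      ring
  simp only [h1]
  rw [Finset.sum_sub_distrib, ← integral_finsetSum]
  · congr 1
    have h2 : ∀ z : E n, ∑ σ : Fin p → Fin n → Bool, ∑ j, (r j * ⟪u j, z⟫) *
        ((∏ i, ⟪z, sgv (σ i)⟫) * (∏ i, ⟪u j, sgv (σ i)⟫))
        = ∑ j, ((2 ^ n) ^ p * r j) * ⟪u j, z⟫ ^ (p + 1) := by
      intro z
      rw [Finset.sum_comm]
      refine Finset.sum_congr rfl fun j _ => ?_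
      rw [← Finset.mul_sum, h8.2.1, real_inner_comm (u j) z]
      ring
    simp only [h2]
    rw [integral_finsetSum, Finset.mul_sum]
    · refine Finset.sum_congr rfl fun j _ => ?_
      rw [integral_const_mul]; ring
    · intro j _
      apply D.int; fun_prop
  · intro σ _
    apply D.int; fun_prop

/-- the averaged inequality -/
lemma avg_ineq (h8 : Stm8) (D : Data n N Q ε C0 u r μ₀) (hε1 : ε ≤ 1) {p k : ℕ}
    (hp : p + 1 = 2 * k) (hQ : p + 1 ≤ Q) (B : (Fin p → Fin n → Bool) → ℝ)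
    (hB : ∀ σ, ∀ v : E n, ‖v‖ = 1 → |dl u r μ₀ σ v| ≤ B σ) (hN : 0 < N) :
    (∑ j, r j) ^ 2 / N ≤ (∑ σ, B σ ^ 2) / (2 ^ n) ^ p
      + 2 * ((C0 + 1 / kap 0) * C0) * (n / (n : ℝ) ^ k) := by
  have hs := sqrt_pos D.hn
  have hT : (0 : ℝ) < (2 ^ n) ^ p := by positivity
  have hNr : (0 : ℝ) < N := by exact_mod_cast hN
  have hn0 : (0 : ℝ) < n := by exact_mod_cast D.hn
  obtain ⟨A, hA⟩ : ∃ A : ℝ, A = ∑ σ : Fin p → Fin n → Bool, ‖bv u r σ‖ ^ 2 := ⟨_, rfl⟩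
  obtain ⟨J, hJ⟩ : ∃ J : ℝ, J = ∑ j, r j * ∫ z, ⟪u j, z⟫ ^ (p + 1) ∂μ₀ := ⟨_, rfl⟩
  have h1 := dl_bv h8 D (p := p)
  rw [← hA, ← hJ] at h1
  have h2 : ∑ σ : Fin p → Fin n → Bool, dl u r μ₀ σ (bv u r σ) ≤ (∑ σ, B σ ^ 2 + A) / 2 := by
    rw [hA, ← Finset.sum_add_distrib, Finset.sum_div]
    refine Finset.sum_le_sum fun σ _ => ?_
    have := dl_le D σ (B σ) (hB σ) (bv u r σ)
    nlinarith [sq_nonneg (B σ - ‖bv u r σ‖)]
  have h3 : A = (2 ^ n) ^ p * ∑ j, ∑ j', r j * r j' * ⟪u j, u j'⟫ ^ (p + 1) := by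
    rw [hA, bv_sq h8]
  have hev : Even (p + 1) := ⟨k, by omega⟩
  have h4 : (∑ j, r j) ^ 2 / N ≤ ∑ j, ∑ j', r j * r j' * ⟪u j, u j'⟫ ^ (p + 1) := by
    have h5 : ∑ j, r j ^ 2 ≤ ∑ j, ∑ j', r j * r j' * ⟪u j, u j'⟫ ^ (p + 1) := by
      refine Finset.sum_le_sum fun j _ => ?_
      have h6 : r j * r j * ⟪u j, u j⟫ ^ (p + 1) ≤ ∑ j', r j * r j' * ⟪u j, u j'⟫ ^ (p + 1) := by
        refine Finset.single_le_sum (f := fun j' => r j * r j' * ⟪u j, u j'⟫ ^ (p + 1))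
          (fun j' _ => ?_) (Finset.mem_univ j)
        exact mul_nonneg (mul_nonneg (D.hr j) (D.hr j')) (hev.pow_nonneg _)
      rw [real_inner_self_eq_norm_sq, D.hu j] at h6
      simp only [one_pow, mul_one] at h6
      rw [sq]; exact h6
    refine le_trans ?_ h5
    rw [div_le_iff₀ hNr]
    have := sq_sum_le_card_mul_sum_sq (s := Finset.univ) (f := r)
    simp only [Finset.card_univ, Fintype.card_fin] at this
    linarith
  have h5 : J ≤ (C0 + 1 / kap 0) * C0 * (n / (n : ℝ) ^ k) := by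
    have h6 : ∀ j, ∫ z, ⟪u j, z⟫ ^ (p + 1) ∂μ₀ ≤ C0 * Real.sqrt n / (n : ℝ) ^ k := by
      intro j
      have := D.mom (p + 1) hQ (u j)
      simp only [hev.pow_abs] at this
      rw [D.hu j, div_pow, one_pow, hp, pow_mul (Real.sqrt n), Real.sq_sqrt hn0.le] at this
      rw [hp]
      calc _ ≤ _ := this
        _ = _ := by ring
    have hC := D.hC
    calc J ≤ ∑ j, r j * (C0 * Real.sqrt n / (n : ℝ) ^ k) := by
          rw [hJ]
          exact Finset.sum_le_sum fun j _ => mul_le_mul_of_nonneg_left (h6 j) (D.hr j)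
      _ = (∑ j, r j) * (C0 * Real.sqrt n / (n : ℝ) ^ k) := by rw [Finset.sum_mul]
      _ ≤ ((C0 + 1 / kap 0) * Real.sqrt n) * (C0 * Real.sqrt n / (n : ℝ) ^ k) := by
          apply mul_le_mul_of_nonneg_right (D.mass hε1)
          positivity
      _ = (C0 + 1 / kap 0) * C0 * ((Real.sqrt n * Real.sqrt n) / (n : ℝ) ^ k) := by ring
      _ = _ := by rw [Real.mul_self_sqrt hn0.le]
  have h6 : (2 ^ n) ^ p * ((∑ j, r j) ^ 2 / N) ≤ A := by
    rw [h3]; exact mul_le_mul_of_nonneg_left h4 hT.le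
  have h7 : (2 ^ n) ^ p * J ≤ (2 ^ n) ^ p * ((C0 + 1 / kap 0) * C0 * (n / (n : ℝ) ^ k)) :=
    mul_le_mul_of_nonneg_left h5 hT.le
  rw [← sub_le_iff_le_add, le_div_iff₀ hT]
  nlinarith

end Pool.Agent.E8helper29.Zn
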