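import Pool.Agent.E8helper29.Zn.Core5

set_option autoImplicit false

namespace Pool.Agent.E8helper29.Zn

open MeasureTheory ProbabilityTheory Pool.Agent.Helper649.Zono
open scoped RealInnerProductSpace Nat NNReal

lemma pow_le_one_add (p q : ℕ) (hpq : p ≤ q) (s : ℝ) (hs : 0 ≤ s) : s ^ p ≤ 1 + s ^ q := by
  rcases le_total s 1 with h | h
  · have := pow_le_one₀ (n := p) hs h
    have h2 : 0 ≤ s ^ q := by positivity
    linarith
  · have := pow_le_pow_right₀ h hpq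
    linarith

lemma weighted_cs {N : ℕ} (w x : Fin N → ℝ) (hw : ∀ j, 0 ≤ w j) :
    (∑ j, w j * x j) ^ 2 ≤ (∑ j, w j) * ∑ j, w j * x j ^ 2 := by
  have h := Finset.sum_mul_sq_le_sq_mul_sq Finset.univ (fun j => Real.sqrt (w j))
    (fun j => Real.sqrt (w j) * x j)
  have e1 : ∀ j, Real.sqrt (w j) * (Real.sqrt (w j) * x j) = w j * x j := by
    intro j
    rw [← mul_assoc, Real.mul_self_sqrt (hw j)]
  have e2 : ∀ j, Real.sqrt (w j) ^ 2 = w j := fun j => Real.sq_sqrt (hw j)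
  have e3 : ∀ j, (Real.sqrt (w j) * x j) ^ 2 = w j * x j ^ 2 := by
    intro j
    rw [mul_pow, e2]
  simp only [e1, e2, e3] at h
  exact h

theorem final_bound (h2 : Stm2) (h3 : Stm3) (h5 : Stm5) (h8 : Stm8) (k M P : ℕ) (hk : 1 ≤ k)
    (hM : k ≤ M) (hP : 2 * k - 1 ≤ 2 * P) (C0 : ℝ) (hC0 : 0 ≤ C0) :
    ∃ C : ℝ, 0 ≤ C ∧ ∀ (n N : ℕ) (ε : ℝ) (u : Fin N → E n) (r : Fin N → ℝ) (μ₀ : Measure (E n)),
      Data n N (2 * M + 2 + (2 * k - 1)) ε C0 u r μ₀ → ε ≤ 1 → 0 < N →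
      ∀ η : ℝ, 0 < η → η ≤ 1 → (N : ℝ) * η ^ (2 * P) ≤ 1 →
      (∑ j, r j) ^ 2 / N ≤ C * ((ε + η ^ (2 * M + 2)) ^ 2 / (η ^ (2 * k)) ^ 2
        + n / (n : ℝ) ^ k) := by
  obtain ⟨C1, hC1, hsup⟩ := sup_bound h2 h3 h5 k M hk hM C0 hC0
  obtain ⟨Ca, hCa, hma⟩ := h8.2.2 (2 * k - 1) (2 * (2 * P))
  obtain ⟨Cb, hCb, hmb⟩ := h8.2.2 (2 * k - 1) (2 * (2 * M + 2))
  have hk0 := kap_zero_pos
  obtain ⟨R0, hR0⟩ : ∃ R0 : ℝ, R0 = C0 + 1 / kap 0 := ⟨_, rfl⟩
  have hR00 : 0 ≤ R0 := by rw [hR0]; positivity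
  refine ⟨C1 ^ 2 * (16 + 4 * Ca + 2 * (R0 ^ 2 * Cb)) + 2 * (R0 * C0), by positivity, ?_⟩
  intro n N ε u r μ₀ D hε1 hN η hη hη1 hNη
  have hs := sqrt_pos D.hn
  have hε := D.hε
  have hNr : (0 : ℝ) < N := by exact_mod_cast hN
  have hn0 : (0 : ℝ) < n := by exact_mod_cast D.hn
  set T : ℝ := (2 ^ n) ^ (2 * k - 1) with hT
  have hTpos : 0 < T := by rw [hT]; positivity
  set e : ℝ := ε + η ^ (2 * M + 2) with he
  have he0 : 0 ≤ e := by positivity
  have hee : η ^ (2 * M + 2) ≤ e := by linarith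
  set s : (Fin (2 * k - 1) → Fin n → Bool) → Fin N → ℝ := fun σ j =>
    ∑ i, |η * ⟪sgv (σ i), u j⟫| with hsd
  have hs0 : ∀ σ j, 0 ≤ s σ j := fun σ j => Finset.sum_nonneg fun _ _ => abs_nonneg _
  set A : (Fin (2 * k - 1) → Fin n → Bool) → ℝ := fun σ => ∑ j, s σ j ^ (2 * P) with hA
  set Z : (Fin (2 * k - 1) → Fin n → Bool) → ℝ := fun σ =>
    ∑ j, (r j / Real.sqrt n) * s σ j ^ (2 * M + 2) with hZ
  have hA0 : ∀ σ, 0 ≤ A σ := fun σ => Finset.sum_nonneg fun j _ => pow_nonneg (hs0 σ j) _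
  have hw0 : ∀ j, 0 ≤ r j / Real.sqrt n := fun j => div_nonneg (D.hr j) hs.le
  have hZ0 : ∀ σ, 0 ≤ Z σ := fun σ => Finset.sum_nonneg fun j _ =>
    mul_nonneg (hw0 j) (pow_nonneg (hs0 σ j) _)
  have hW : ∑ j, r j / Real.sqrt n ≤ R0 := by
    rw [← Finset.sum_div, div_le_iff₀ hs, hR0]
    exact D.mass hε1
  set B : (Fin (2 * k - 1) → Fin n → Bool) → ℝ := fun σ =>
    C1 * ((2 + A σ) * e + Z σ) / η ^ (2 * k) with hB
  have hη2 : 0 < η ^ (2 * k) := by positivity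
  have hBd : ∀ σ, ∀ v : E n, ‖v‖ = 1 → |dl u r μ₀ σ v| ≤ B σ := by
    intro σ v hv
    have h := hsup n N ε u r μ₀ D (fun i => sgv (σ i)) (fun i => sgv_norm _) v hv η hη hη1
      (1 + A σ) (by linarith [hA0 σ]) (by
        intro j
        have h1 := pow_le_one_add (2 * k - 1) (2 * P) hP (s σ j) (hs0 σ j)
        have h2 : s σ j ^ (2 * P) ≤ A σ :=
          Finset.single_le_sum (f := fun j => s σ j ^ (2 * P))
            (fun j _ => pow_nonneg (hs0 σ j) _) (Finset.mem_univ j)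
        exact h1.trans (by linarith))
    rw [hB]
    simp only
    rw [le_div_iff₀ hη2, mul_comm _ (η ^ (2 * k))]
    refine le_trans h (le_of_eq ?_)
    rw [hZ]
    simp only
    ring
  have h := avg_ineq h8 D hε1 (p := 2 * k - 1) (k := k) (by omega) (by omega) B hBd hN
  rw [← hR0] at h
  -- moments of A
  have sums : ∀ j (m : ℕ), ∑ σ, s σ j ^ m
      = η ^ m * ∑ σ : Fin (2 * k - 1) → Fin n → Bool, (∑ i, |⟪u j, sgv (σ i)⟫|) ^ m := by
    intro j m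
    rw [Finset.mul_sum]
    refine Finset.sum_congr rfl fun σ _ => ?_
    rw [← mul_pow]
    congr 1
    rw [Finset.mul_sum]
    refine Finset.sum_congr rfl fun i _ => ?_
    rw [abs_mul, abs_of_pos hη, real_inner_comm]
  have hA2 : ∑ σ, A σ ^ 2 ≤ Ca * T := by
    have a1 : ∀ σ, A σ ^ 2 ≤ N * ∑ j, s σ j ^ (2 * (2 * P)) := by
      intro σ
      have := sq_sum_le_card_mul_sum_sq (s := Finset.univ) (f := fun j => s σ j ^ (2 * P))
      simp only [Finset.card_univ, Fintype.card_fin] at this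
      refine this.trans (le_of_eq ?_)
      congr 1
      refine Finset.sum_congr rfl fun j _ => ?_
      rw [← pow_mul]; congr 1; ring
    calc ∑ σ, A σ ^ 2 ≤ ∑ σ, N * ∑ j, s σ j ^ (2 * (2 * P)) := Finset.sum_le_sum fun σ _ => a1 σ
      _ = N * ∑ j, ∑ σ, s σ j ^ (2 * (2 * P)) := by
          rw [← Finset.mul_sum, Finset.sum_comm]
      _ ≤ N * ∑ _j : Fin N, (η ^ (2 * (2 * P)) * (Ca * T)) := by
          apply mul_le_mul_of_nonneg_left _ hNr.le
          refine Finset.sum_le_sum fun j _ => ?_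
          rw [sums]
          exact mul_le_mul_of_nonneg_left (hma n (u j) (D.hu j)) (by positivity)
      _ = (N * η ^ (2 * P)) ^ 2 * (Ca * T) := by
          simp only [Finset.sum_const, Finset.card_univ, Fintype.card_fin, nsmul_eq_mul]
          ring
      _ ≤ 1 * (Ca * T) := by
          apply mul_le_mul_of_nonneg_right _ (by positivity)
          exact pow_le_one₀ (by positivity) hNη
      _ = _ := one_mul _
  have hZ2 : ∑ σ, Z σ ^ 2 ≤ R0 ^ 2 * Cb * e ^ 2 * T := by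
    have a1 : ∀ σ, Z σ ^ 2 ≤ R0 * ∑ j, (r j / Real.sqrt n) * s σ j ^ (2 * (2 * M + 2)) := by
      intro σ
      have := weighted_cs (fun j => r j / Real.sqrt n) (fun j => s σ j ^ (2 * M + 2)) hw0
      have h2 : ∀ j, (s σ j ^ (2 * M + 2)) ^ 2 = s σ j ^ (2 * (2 * M + 2)) := by
        intro j; rw [← pow_mul]; congr 1; ring
      simp only [h2] at this
      refine this.trans ?_
      apply mul_le_mul_of_nonneg_right hW
      exact Finset.sum_nonneg fun j _ => mul_nonneg (hw0 j) (pow_nonneg (hs0 σ j) _)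
    calc ∑ σ, Z σ ^ 2 ≤ ∑ σ, R0 * ∑ j, (r j / Real.sqrt n) * s σ j ^ (2 * (2 * M + 2)) :=
          Finset.sum_le_sum fun σ _ => a1 σ
      _ = R0 * ∑ j, (r j / Real.sqrt n) * ∑ σ, s σ j ^ (2 * (2 * M + 2)) := by
          rw [← Finset.mul_sum, Finset.sum_comm]
          congr 1
          refine Finset.sum_congr rfl fun j _ => by rw [Finset.mul_sum]
      _ ≤ R0 * ∑ j, (r j / Real.sqrt n) * (η ^ (2 * (2 * M + 2)) * (Cb * T)) := by
          apply mul_le_mul_of_nonneg_left _ hR00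
          refine Finset.sum_le_sum fun j _ => ?_
          apply mul_le_mul_of_nonneg_left _ (hw0 j)
          rw [sums]
          exact mul_le_mul_of_nonneg_left (hmb n (u j) (D.hu j)) (by positivity)
      _ = R0 * ((∑ j, r j / Real.sqrt n) * (η ^ (2 * (2 * M + 2)) * (Cb * T))) := by
          rw [Finset.sum_mul]
      _ ≤ R0 * (R0 * (e ^ 2 * (Cb * T))) := by
          apply mul_le_mul_of_nonneg_left _ hR00
          apply mul_le_mul hW _ (by positivity) hR00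
          apply mul_le_mul_of_nonneg_right _ (by positivity)
          have : η ^ (2 * (2 * M + 2)) = (η ^ (2 * M + 2)) ^ 2 := by ring
          rw [this]
          exact pow_le_pow_left₀ (by positivity) hee 2
      _ = _ := by ring
  have hB2 : ∑ σ, B σ ^ 2 ≤ C1 ^ 2 / (η ^ (2 * k)) ^ 2 *
      (2 * e ^ 2 * (8 * T + 2 * (Ca * T)) + 2 * (R0 ^ 2 * Cb * e ^ 2 * T)) := by
    have a1 : ∀ σ, B σ ^ 2 ≤ C1 ^ 2 / (η ^ (2 * k)) ^ 2 *
        (2 * e ^ 2 * (8 + 2 * A σ ^ 2) + 2 * Z σ ^ 2) := by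
      intro σ
      have e1 : B σ ^ 2 = C1 ^ 2 / (η ^ (2 * k)) ^ 2 * ((2 + A σ) * e + Z σ) ^ 2 := by
        rw [hB]; simp only; rw [div_pow, mul_pow]; ring
      rw [e1]
      apply mul_le_mul_of_nonneg_left _ (by positivity)
      have i1 : ((2 + A σ) * e + Z σ) ^ 2 ≤ 2 * ((2 + A σ) * e) ^ 2 + 2 * Z σ ^ 2 := by
        nlinarith [sq_nonneg ((2 + A σ) * e - Z σ)]
      have i2 : (2 + A σ) ^ 2 ≤ 8 + 2 * A σ ^ 2 := by nlinarith [sq_nonneg (2 - A σ)]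
      have i3 : ((2 + A σ) * e) ^ 2 ≤ e ^ 2 * (8 + 2 * A σ ^ 2) := by
        rw [mul_pow, mul_comm]
        exact mul_le_mul_of_nonneg_left i2 (sq_nonneg e)
      linarith
    calc ∑ σ, B σ ^ 2 ≤ ∑ σ, C1 ^ 2 / (η ^ (2 * k)) ^ 2 *
          (2 * e ^ 2 * (8 + 2 * A σ ^ 2) + 2 * Z σ ^ 2) := Finset.sum_le_sum fun σ _ => a1 σ
      _ = C1 ^ 2 / (η ^ (2 * k)) ^ 2 *
          (2 * e ^ 2 * (8 * T + 2 * ∑ σ, A σ ^ 2) + 2 * ∑ σ, Z σ ^ 2) := by
          rw [← Finset.mul_sum, Finset.sum_add_distrib, ← Finset.mul_sum, ← Finset.mul_sum,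
            Finset.sum_add_distrib, ← Finset.mul_sum]
          congr 3
          simp only [Finset.sum_const, Finset.card_univ, Fintype.card_pi, Fintype.card_bool,
            Finset.prod_const, Fintype.card_fin, nsmul_eq_mul]
          rw [hT]
          push_cast
          ring
      _ ≤ _ := by
          apply mul_le_mul_of_nonneg_left _ (by positivity)
          have := mul_le_mul_of_nonneg_left hA2 (by positivity : (0 : ℝ) ≤ 2 * e ^ 2 * 2)
          nlinarith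
  have hfin : (∑ σ, B σ ^ 2) / T ≤ C1 ^ 2 * (16 + 4 * Ca + 2 * (R0 ^ 2 * Cb)) *
      (e ^ 2 / (η ^ (2 * k)) ^ 2) := by
    rw [div_le_iff₀ hTpos]
    refine hB2.trans (le_of_eq ?_)
    ring
  have hq : 0 ≤ e ^ 2 / (η ^ (2 * k)) ^ 2 := by positivity
  have hq2 : 0 ≤ (n : ℝ) / (n : ℝ) ^ k := by positivity
  have hx1 : 0 ≤ C1 ^ 2 * (16 + 4 * Ca + 2 * (R0 ^ 2 * Cb)) := by positivity
  have hx2 : 0 ≤ 2 * (R0 * C0) := by positivity
  calc (∑ j, r j) ^ 2 / N ≤ _ := h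
    _ ≤ C1 ^ 2 * (16 + 4 * Ca + 2 * (R0 ^ 2 * Cb)) * (e ^ 2 / (η ^ (2 * k)) ^ 2)
        + 2 * (R0 * C0) * (n / (n : ℝ) ^ k) := by linarith
    _ ≤ _ := by nlinarith [mul_nonneg hx1 hq2, mul_nonneg hx2 hq]

end Pool.Agent.E8helper29.Zn
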