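import Pool.Agent.E8helper29.Zn.Stm3

/-! ZU-9: size of the Hermite coefficients of `|x|`. -/

set_option autoImplicit false

namespace Pool.Agent.E8helper29.Zn.LC

open MeasureTheory ProbabilityTheory Pool.Agent.Helper649.Zono Pool.Agent.E8helper29.Zn
open scoped RealInnerProductSpace Nat NNReal

lemma upP (k : ℕ) : (k + 1) * ((2 * k - 1)‼) ^ 2 ≤ (2 ^ k * k !) ^ 2 := by
  induction k with
  | zero => decide
  | succ k ih =>
    rw [alpha_bound_rec, Nat.factorial_succ, pow_succ]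
    calc (k + 1 + 1) * ((2 * k + 1) * (2 * k - 1)‼) ^ 2
        = ((k + 2) * (2 * k + 1) ^ 2) * ((2 * k - 1)‼) ^ 2 := by ring
      _ ≤ (4 * (k + 1) ^ 2 * (k + 1)) * ((2 * k - 1)‼) ^ 2 := by
          apply Nat.mul_le_mul_right
          nlinarith
      _ = 4 * (k + 1) ^ 2 * ((k + 1) * ((2 * k - 1)‼) ^ 2) := by ring
      _ ≤ 4 * (k + 1) ^ 2 * (2 ^ k * k !) ^ 2 := Nat.mul_le_mul_left _ ih
      _ = (2 ^ k * 2 * ((k + 1) * k !)) ^ 2 := by ring

theorem l1 : StmL1 := by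
  refine ⟨1 / (4 * Real.pi), 1, by positivity, one_pos, ?_⟩
  intro k hk
  obtain ⟨k, rfl⟩ : ∃ m, k = m + 1 := ⟨k - 1, by omega⟩
  have hpi := Real.pi_pos
  have hx : (0 : ℝ) < (k : ℝ) + 1 := by positivity
  set D : ℝ := (((2 * k - 1)‼ : ℕ) : ℝ) with hD
  set E : ℝ := ((2 ^ k * k ! : ℕ) : ℝ) with hE
  have hD0 : 0 < D := by rw [hD]; exact_mod_cast Nat.doubleFactorial_pos _
  have hE0 : 0 < E := by rw [hE]; positivity
  have hfact : (((2 * k + 2)! : ℕ) : ℝ) = 2 * ((k : ℝ) + 1) * (2 * k + 1) * (D * E) := by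
    have h1 : (2 * k + 2)! = (2 * k + 2) * ((2 * k + 1) * ((2 * k - 1)‼ * (2 ^ k * k !))) := by
      rw [← alpha_bound_fact, ← Nat.factorial_succ, ← Nat.factorial_succ]
    rw [h1, hD, hE]
    push_cast
    ring
  have halc : alc (k + 1) ^ 2 = (Real.sqrt (2 / Real.pi) * D) ^ 2 := by
    have h0 : alc (k + 1) = Real.sqrt (2 / Real.pi) * He (2 * k) 0 := alpha_val k
    have h1 : ((-1 : ℝ) ^ k) ^ 2 = 1 := by rw [← pow_mul, mul_comm k 2, pow_mul]; norm_num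
    rw [h0, He_zero, ← hD, mul_pow, mul_pow, mul_pow, h1, one_mul]
  have hpow : ((k : ℝ) + 1) ^ (5 / 2 : ℝ) = ((k : ℝ) + 1) ^ 2 * Real.sqrt ((k : ℝ) + 1) := by
    rw [Real.sqrt_eq_rpow, ← Real.rpow_natCast, ← Real.rpow_add hx]
    norm_num
  have hs : Real.sqrt ((k : ℝ) + 1) ^ 2 = (k : ℝ) + 1 := Real.sq_sqrt hx.le
  have hs0 : 0 < Real.sqrt ((k : ℝ) + 1) := Real.sqrt_pos.2 hx
  have hF : (0 : ℝ) < ((2 * k + 2)! : ℕ) := by exact_mod_cast Nat.factorial_pos _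
  have hcast : ((k + 1 : ℕ) : ℝ) = (k : ℝ) + 1 := by push_cast; ring
  have h2k : 2 * (k + 1) = 2 * k + 2 := by ring
  rw [hcast, h2k, halc]
  constructor
  · have hb := alpha_bound k
    rw [hpow, ← hD] at hb
    rw [← mul_div_assoc, le_div_iff₀ hF, div_mul_eq_mul_div, one_mul, div_le_iff₀ (by positivity)]
    rw [one_div, inv_mul_le_iff₀ (by positivity)] at hb
    calc (((2 * k + 2)! : ℕ) : ℝ)
        ≤ 4 * Real.pi * (((k : ℝ) + 1) ^ 2 * Real.sqrt ((k : ℝ) + 1)) *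
          (Real.sqrt (2 / Real.pi) * D) ^ 2 := hb
      _ = _ := by ring
  · have hR : (Real.sqrt (2 / Real.pi) * D) ^ 2 = 2 / Real.pi * D ^ 2 := by
      rw [mul_pow, Real.sq_sqrt (by positivity)]
    have hup : Real.sqrt ((k : ℝ) + 1) * D ≤ E := by
      apply le_of_sq_le_sq _ hE0.le
      rw [mul_pow, hs]
      have := upP k
      rw [hD, hE]
      exact_mod_cast this
    rw [hR, hfact, ← mul_div_assoc, div_le_one (by positivity)]
    have hpi1 : 2 / Real.pi ≤ 1 := by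
      rw [div_le_one hpi]; linarith [Real.pi_gt_three]
    calc ((k : ℝ) + 1) ^ 2 * Real.sqrt ((k : ℝ) + 1) * (2 / Real.pi * D ^ 2)
        = (2 / Real.pi) * (((k : ℝ) + 1) ^ 2 * D * (Real.sqrt ((k : ℝ) + 1) * D)) := by ring
      _ ≤ 1 * (((k : ℝ) + 1) ^ 2 * D * E) := by
          apply mul_le_mul hpi1 _ (by positivity) (by norm_num)
          exact mul_le_mul_of_nonneg_left hup (by positivity)
      _ ≤ 2 * ((k : ℝ) + 1) * (2 * k + 1) * (D * E) := by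
          have hk0 : (0 : ℝ) ≤ k := Nat.cast_nonneg k
          have : ((k : ℝ) + 1) ^ 2 ≤ 2 * ((k : ℝ) + 1) * (2 * k + 1) := by nlinarith
          calc 1 * (((k : ℝ) + 1) ^ 2 * D * E) = ((k : ℝ) + 1) ^ 2 * (D * E) := by ring
            _ ≤ _ := mul_le_mul_of_nonneg_right this (by positivity)

end Pool.Agent.E8helper29.Zn.LC
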