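import Pool.Agent.E8helper29.Zn.Stm

/-!
Project ZU: the joint order `n ε^(-2(n-1)/(n+2))` of the number of segments of a zonotope
approximating the ball, for all `n ≥ 1` and all `0 < ε ≤ 1/2`, up to powers of `log (n/ε)`.
Statements of the pieces (upper bound U.., lower bound L..).
-/

set_option autoImplicit false

namespace Pool.Agent.E8helper29.Zn

open MeasureTheory ProbabilityTheory Pool.Agent.Helper649.Zono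
open scoped RealInnerProductSpace Nat NNReal

/-- U1: packing bound on the sphere, with exponent `n - 1`. -/
def StmPack : Prop :=
  ∀ (n : ℕ) (δ : ℝ) (s : Finset (E n)), 1 ≤ n → 0 < δ → δ ≤ 1 → (∀ x ∈ s, ‖x‖ = 1) →
    (∀ x ∈ s, ∀ y ∈ s, x ≠ y → δ < ‖x - y‖) → (s.card : ℝ) ≤ 2 * n * (3 / δ) ^ (n - 1)

/-- U2a: a net of the sphere. -/
def StmNet : Prop :=
  ∀ (n : ℕ) (θ : ℝ), 1 ≤ n → 0 < θ → θ ≤ 1 → ∃ (A : ℕ) (y : Fin A → E n),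
    (A : ℝ) ≤ 2 * n * (3 / θ) ^ (n - 1) ∧ (∀ i, ‖y i‖ = 1) ∧
    ∀ x : E n, ‖x‖ = 1 → ∃ i, ‖x - y i‖ ≤ θ

/-- U2b: cells of small diameter. -/
def StmCell : Prop :=
  ∀ (n M : ℕ) (δ : ℝ) (w : Fin M → E n), 1 ≤ n → 0 < δ → δ ≤ 1 → (∀ j, ‖w j‖ = 1) →
    ∃ (K : ℕ) (cell : Fin M → Fin K), (K : ℝ) ≤ 2 * n * (3 / δ) ^ (n - 1) ∧
      ∀ i j, cell i = cell j → ‖w i - w j‖ ≤ 2 * δ

/-- U3: a nonnegative weight is a mixture of weights with at most `n + 1` atoms, the same mass and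
the same barycentre. -/
def StmBar : Prop :=
  ∀ (n M : ℕ) (w : Fin M → E n) (p : Fin M → ℝ), (∀ j, 0 ≤ p j) →
    ∃ (T : ℕ) (lam : Fin T → ℝ) (q : Fin T → Fin M → ℝ),
      (∀ t, 0 ≤ lam t) ∧ ∑ t, lam t = 1 ∧ (∀ t j, 0 ≤ q t j) ∧ (∀ t j, p j = 0 → q t j = 0) ∧
      (∀ t, (Finset.univ.filter (fun j => q t j ≠ 0)).card ≤ n + 1) ∧
      (∀ t, ∑ j, q t j = ∑ j, p j) ∧ (∀ t, ∑ j, q t j • w j = ∑ j, p j • w j) ∧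
      (∀ j, ∑ t, lam t * q t j = p j)

/-- U4: Hoeffding bound and union bound, in a finite product. -/
def StmConc : Prop :=
  ∀ (ι : Type) [Fintype ι] [DecidableEq ι] (A : ℕ) (T : ι → ℕ) (lam : (c : ι) → Fin (T c) → ℝ)
    (Y : Fin A → (c : ι) → Fin (T c) → ℝ) (b : Fin A → ι → ℝ) (V s : ℝ),
    (∀ c t, 0 ≤ lam c t) → (∀ c, ∑ t, lam c t = 1) → (∀ x c, ∑ t, lam c t * Y x c t = 0) →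
    (∀ x c t, |Y x c t| ≤ b x c) → (∀ x, ∑ c, b x c ^ 2 ≤ V) → 0 < V → 0 < s →
    2 * A * Real.exp (-(s ^ 2 / (2 * V))) < 1 →
    ∃ τ : (c : ι) → Fin (T c), ∀ x, |∑ c, Y x c (τ c)| ≤ s

/-- U5: from a net to the sphere. -/
def StmNS : Prop :=
  ∀ (n A : ℕ) (J : Type) [Fintype J] (ε : ℝ) (x : J → E n) (y : Fin A → E n),
    0 < ε → ε ≤ 1 / 2 → (∀ i, ‖y i‖ = 1) → (∀ v : E n, ‖v‖ = 1 → ∃ i, ‖v - y i‖ ≤ ε / 4) →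
    (∀ i, |∑ j, |⟪y i, x j⟫| - 1| ≤ ε / 4) →
    ∀ v : E n, (1 - ε) * ‖v‖ ≤ ∑ j, |⟪v, x j⟫| ∧ ∑ j, |⟪v, x j⟫| ≤ (1 + ε) * ‖v‖

/-- U6: the norm as a mixture of `|⟨·,u⟩|` over unit vectors, with a bound for the bands. -/
def StmR1 : Prop :=
  ∃ C : ℝ, 0 < C ∧ ∀ n : ℕ, 1 ≤ n → ∃ μ₀ : Measure (E n), IsFiniteMeasure μ₀ ∧
    (∀ᵐ u ∂μ₀, ‖u‖ = 1) ∧ (∀ z : E n, ∫ u, |⟪z, u⟫| ∂μ₀ = ‖z‖) ∧ μ₀.real Set.univ ≤ C * n ∧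
    ∀ v : E n, ‖v‖ = 1 → ∀ δ : ℝ, 0 < δ → μ₀.real {u | |⟪v, u⟫| ≤ δ} ≤ C * (n : ℝ) ^ 2 * δ

/-- U7: a discrete version of U6. -/
def StmR2 : Prop :=
  ∃ C : ℝ, 0 < C ∧ ∀ (n : ℕ) (η : ℝ), 1 ≤ n → 0 < η → η ≤ 1 →
    ∃ (M : ℕ) (w : Fin M → E n) (p : Fin M → ℝ), (∀ j, ‖w j‖ = 1) ∧ (∀ j, 0 ≤ p j) ∧
      ∑ j, p j ≤ C * n ∧ (∀ x : E n, |∑ j, p j * |⟪x, w j⟫| - ‖x‖| ≤ η * ‖x‖) ∧
      ∀ v : E n, ‖v‖ = 1 → ∀ δ : ℝ, η ≤ δ →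
        ∑ j ∈ Finset.univ.filter (fun j => |⟪v, w j⟫| ≤ δ), p j ≤ C * (n : ℝ) ^ 2 * δ

/-- U8: the upper bound `C n ε^(-2) log (1/ε)` (random Gaussian vectors). -/
def StmUA : Prop :=
  ∃ C : ℝ, 0 < C ∧ ∀ (n : ℕ) (ε : ℝ), 1 ≤ n → 0 < ε → ε ≤ 1 / 2 →
    ∃ (N : ℕ) (x : Fin N → E n), (N : ℝ) ≤ C * n * (1 / ε) ^ 2 * Real.log (1 / ε) ∧
      ∀ v : E n, (1 - ε) * ‖v‖ ≤ ∑ j, |⟪v, x j⟫| ∧ ∑ j, |⟪v, x j⟫| ≤ (1 + ε) * ‖v‖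

/-- the Hermite coefficients of `|x|` -/
noncomputable def alc (k : ℕ) : ℝ := ∫ x, |x| * He (2 * k) x ∂(gaussianReal 0 1)

/-- L1: size of the Hermite coefficients of `|x|`. -/
def StmL1 : Prop :=
  ∃ c C : ℝ, 0 < c ∧ 0 < C ∧ ∀ k : ℕ, 1 ≤ k →
    c ≤ (k : ℝ) ^ 2 * Real.sqrt k * (alc k ^ 2 / ((2 * k)! : ℕ)) ∧
    (k : ℝ) ^ 2 * Real.sqrt k * (alc k ^ 2 / ((2 * k)! : ℕ)) ≤ C

/-- L2: the quadratic inequality. -/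
def StmL2 : Prop :=
  ∀ (n N : ℕ) (ε : ℝ) (u : Fin N → E n) (r : Fin N → ℝ) (μ₀ : Measure (E n)),
    (∀ j, ‖u j‖ = 1) → 0 ≤ ε → (∀ v : E n, |∑ j, r j * |⟪v, u j⟫| - ‖v‖| ≤ ε * ‖v‖) →
    IsFiniteMeasure μ₀ → (∀ᵐ z ∂μ₀, ‖z‖ = 1) → (∀ z : E n, ∫ u, |⟪z, u⟫| ∂μ₀ = ‖z‖) →
    ∀ I : Finset ℕ, ∀ A B : ℝ,
      A = ∑ k ∈ I, alc k ^ 2 / ((2 * k)! : ℕ) * ∑ i, ∑ j, r i * r j * ⟪u i, u j⟫ ^ (2 * k) →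
      B = ∑ k ∈ I, alc k ^ 2 / ((2 * k)! : ℕ) * ∑ i, r i * ∫ z, ⟪u i, z⟫ ^ (2 * k) ∂μ₀ →
      (A - B) ^ 2 ≤ n * ε ^ 2 * A

end Pool.Agent.E8helper29.Zn
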