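import Pool.Agent.E8helper29.Zn.P25b
import Pool.Agent.E8helper29.Zn.Stm3

set_option autoImplicit false

namespace Pool.Agent.E8helper29.Zn

open MeasureTheory ProbabilityTheory Pool.Agent.Helper649.Zono
open scoped RealInnerProductSpace Nat NNReal Polynomial

lemma sph_anti (n : ℕ) (hn : 1 ≤ n) {k l : ℕ} (h : k ≤ l) : sph n l ≤ sph n k := by
  induction l, h using Nat.le_induction with
  | base => exact le_rfl
  | succ l hl ih =>
    refine le_trans ?_ ih
    unfold sph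
    rw [Finset.prod_range_succ]
    apply mul_le_of_le_one_right (sph_nonneg n l)
    have hn1 : (1 : ℝ) ≤ n := by exact_mod_cast hn
    rw [div_le_one (by positivity)]
    linarith

lemma sph_pow (n : ℕ) (hn : 1 ≤ n) (k : ℕ) :
    sph n k ≤ ((n : ℝ) / (n + 2 * k)) ^ (((n : ℝ) - 1) / 2) := by
  have hn1 : (1 : ℝ) ≤ n := by exact_mod_cast hn
  have hn0 : (0 : ℝ) < n := by linarith
  induction k with
  | zero => simp [sph, div_self hn0.ne']
  | succ k ih =>
    obtain ⟨y, hy⟩ : ∃ y : ℝ, y = n + 2 * k := ⟨_, rfl⟩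
    have hy1 : 1 ≤ y := by rw [hy]; have : (0 : ℝ) ≤ k := by positivity
                           linarith
    have hy0 : 0 < y := by linarith
    have e1 : ((n : ℝ) + 2 * ((k + 1 : ℕ) : ℝ)) = y + 2 := by rw [hy]; push_cast; ring
    rw [e1, sph, Finset.prod_range_succ, ← sph]
    rw [← hy] at ih ⊢
    have e2 : (n : ℝ) / (y + 2) = n / y * (y / (y + 2)) := by field_simp
    rw [e2, Real.mul_rpow (by positivity) (by positivity)]
    apply mul_le_mul ih _ (by positivity) (by positivity)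
    -- `1 - (n-1)/y ≤ exp (-(n-1)/y) ≤ (y/(y+2))^((n-1)/2)`
    have h1 : (2 * (k : ℝ) + 1) / y ≤ Real.exp (-(((n : ℝ) - 1) / y)) := by
      have := Real.add_one_le_exp (-(((n : ℝ) - 1) / y))
      refine le_trans (le_of_eq ?_) this
      rw [hy]; rw [hy] at hy0; field_simp; ring
    refine h1.trans ?_
    rw [Real.rpow_def_of_pos (by positivity), Real.exp_le_exp]
    have h2 : Real.log (y / (y + 2)) = - Real.log (1 + 2 / y) := by
      rw [← Real.log_inv]
      congr 1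
      field_simp
    have h3 : Real.log (1 + 2 / y) ≤ 2 / y := by
      have := Real.log_le_sub_one_of_pos (by positivity : 0 < 1 + 2 / y)
      linarith
    rw [h2]
    have h4 : Real.log (1 + 2 / y) * (((n : ℝ) - 1) / 2) ≤ 2 / y * (((n : ℝ) - 1) / 2) :=
      mul_le_mul_of_nonneg_right h3 (by linarith)
    have h5 : 2 / y * (((n : ℝ) - 1) / 2) = ((n : ℝ) - 1) / y := by ring
    rw [h5] at h4
    linarith

/-- the inequality with the sharp power of `K` -/
theorem low_sph (h1 : StmL1) (h2 : StmL2) :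
    ∃ C : ℝ, 0 ≤ C ∧ ∀ (n N : ℕ) (ε : ℝ) (K : ℕ), 1 ≤ n → 0 < ε → ε ≤ 1 / 2 → Approx n N ε →
      1 ≤ K → 1 / (N : ℝ) ≤ C * (sph n K + (K : ℝ) * Real.sqrt K * ε ^ 2) := by
  obtain ⟨c1, C1, hc1, hC1, hco⟩ := h1
  obtain ⟨C0, hC0, h7⟩ := p25c
  have hkp := kap_zero_pos
  obtain ⟨R0, hR0⟩ : ∃ R0 : ℝ, R0 = C0 + 1 / kap 0 := ⟨_, rfl⟩
  have hR00 : 0 ≤ R0 := by rw [hR0]; positivity
  refine ⟨4 * (2 * (R0 * C0) + 24 / c1), by positivity, ?_⟩
  intro n N ε K hn hε hε1 hA hK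
  have hN := approx_pos hn hε1 hA
  obtain ⟨x, hx⟩ := hA
  obtain ⟨μ₀, hfin, hunit, hnorm, habs, hmom⟩ := h7 n hn
  choose u hu hxu using fun j => exists_unit hn (x j)
  have hs := sqrt_pos hn
  have hn0 : (0 : ℝ) < n := by exact_mod_cast hn
  have hNr : (0 : ℝ) < N := by exact_mod_cast hN
  have hKr : (1 : ℝ) ≤ K := by exact_mod_cast hK
  have hKsq : 0 < Real.sqrt K := Real.sqrt_pos.mpr (by linarith)
  have hap : ∀ v : E n, |∑ j, |⟪v, x j⟫| - ‖v‖| ≤ ε * ‖v‖ := by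
    intro v
    rw [abs_le]
    constructor
    · linarith [(hx v).1]
    · linarith [(hx v).2]
  have hap2 : ∀ v : E n, |∑ j, ‖x j‖ * |⟪v, u j⟫| - ‖v‖| ≤ ε * ‖v‖ := by
    intro v
    have e1 : ∑ j, ‖x j‖ * |⟪v, u j⟫| = ∑ j, |⟪v, x j⟫| := by
      refine Finset.sum_congr rfl fun j _ => ?_
      conv_rhs => rw [hxu j]
      rw [real_inner_smul_right, abs_mul, abs_norm]
    rw [e1]
    exact hap v
  have D : Data n N 0 ε C0 u (fun j => ‖x j‖) μ₀ :=
    { hn := hn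
      hu := hu
      hr := fun j => norm_nonneg _
      hε := hε.le
      hC := hC0
      fin := hfin
      unit := hunit
      star := fun W => star x u (fun j => ‖x j‖) hu (fun j => norm_nonneg _) hxu ε hap hε.le μ₀
        hnorm W
      mom := by
        intro p hp y
        obtain rfl : p = 0 := by omega
        obtain ⟨e, he, -⟩ := exists_unit hn y
        have := hmom 0 e he
        simpa [sph] using this }
  -- the sums
  obtain ⟨a, ha⟩ : ∃ a : ℕ → ℝ, a = fun k => alc k ^ 2 / ((2 * k)! : ℕ) := ⟨_, rfl⟩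
  have ha0 : ∀ k, 0 ≤ a k := fun k => by rw [ha]; positivity
  obtain ⟨S, hS⟩ : ∃ S : ℕ → ℝ, S = fun k => ∑ i, ∑ j, ‖x i‖ * ‖x j‖ * ⟪u i, u j⟫ ^ (2 * k) :=
    ⟨_, rfl⟩
  obtain ⟨Mk, hMk⟩ : ∃ Mk : ℕ → ℝ, Mk = fun k => ∑ i, ‖x i‖ * ∫ z, ⟪u i, z⟫ ^ (2 * k) ∂μ₀ :=
    ⟨_, rfl⟩
  obtain ⟨A, hAd⟩ : ∃ A : ℝ, A = ∑ k ∈ Finset.Ico K (2 * K), a k * S k := ⟨_, rfl⟩
  obtain ⟨B, hBd⟩ : ∃ B : ℝ, B = ∑ k ∈ Finset.Ico K (2 * K), a k * Mk k := ⟨_, rfl⟩
  have hq := h2 n N ε u (fun j => ‖x j‖) μ₀ hu hε.le hap2 hfin hunit habs (Finset.Ico K (2 * K)) A B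
    (by rw [hAd, ha, hS]) (by rw [hBd, ha, hMk])
  have hR : (1 - ε) * Real.sqrt n ≤ ∑ j, ‖x j‖ := by
    apply R_low u (fun j => ‖x j‖) hu (fun j => norm_nonneg _) ε
    intro v
    have h1 := (hx v).1
    refine h1.trans (le_of_eq ?_)
    refine Finset.sum_congr rfl fun j _ => ?_
    conv_lhs => rw [hxu j]
    rw [real_inner_smul_right, abs_mul, abs_norm, real_inner_comm]
  have hR2 : (n : ℝ) / 4 ≤ (∑ j, ‖x j‖) ^ 2 := by
    have h1 : Real.sqrt n / 2 ≤ ∑ j, ‖x j‖ := by nlinarith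
    have h2 := pow_le_pow_left₀ (by positivity) h1 2
    rw [div_pow, Real.sq_sqrt hn0.le] at h2
    linarith
  have hSlow : ∀ k, (n : ℝ) / 4 / N ≤ S k := by
    intro k
    rw [hS]
    exact (div_le_div_of_nonneg_right hR2 hNr.le).trans (low_S D hN k)
  have hMup : ∀ k, K ≤ k → Mk k ≤ R0 * C0 * (n * sph n K) := by
    intro k hk
    have hmass := D.mass (by linarith : ε ≤ 1)
    rw [← hR0] at hmass
    have hsp := sph_anti n hn hk
    rw [hMk]
    calc ∑ i, ‖x i‖ * ∫ z, ⟪u i, z⟫ ^ (2 * k) ∂μ₀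
        ≤ ∑ i, ‖x i‖ * (C0 * Real.sqrt n * sph n k) :=
          Finset.sum_le_sum fun i _ => mul_le_mul_of_nonneg_left (hmom k (u i) (hu i))
            (norm_nonneg _)
      _ = (∑ i, ‖x i‖) * (C0 * Real.sqrt n * sph n k) := by rw [Finset.sum_mul]
      _ ≤ (R0 * Real.sqrt n) * (C0 * Real.sqrt n * sph n k) := by
          apply mul_le_mul_of_nonneg_right hmass
          have := sph_nonneg n k
          positivity
      _ = R0 * C0 * ((Real.sqrt n * Real.sqrt n) * sph n k) := by ring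
      _ = R0 * C0 * (n * sph n k) := by rw [Real.mul_self_sqrt hn0.le]
      _ ≤ _ := by
          apply mul_le_mul_of_nonneg_left _ (by positivity)
          exact mul_le_mul_of_nonneg_left hsp hn0.le
  -- the total weight
  obtain ⟨w, hw⟩ : ∃ w : ℝ, w = ∑ k ∈ Finset.Ico K (2 * K), a k := ⟨_, rfl⟩
  have hwlow : c1 / 6 / (K * Real.sqrt K) ≤ w := by
    have h3 : ∀ k ∈ Finset.Ico K (2 * K), c1 / 6 / (K * Real.sqrt K) / K ≤ a k := by
      intro k hk
      rw [Finset.mem_Ico] at hk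
      have hk1 : 1 ≤ k := by omega
      have hkr : (1 : ℝ) ≤ k := by exact_mod_cast hk1
      have hk2 : (k : ℝ) ≤ 2 * K := by
        have : k ≤ 2 * K := by omega
        exact_mod_cast this
      have h4 := (hco k hk1).1
      have hak : alc k ^ 2 / ((2 * k)! : ℕ) = a k := by rw [ha]
      rw [hak] at h4
      have h5 : Real.sqrt k ≤ 3 / 2 * Real.sqrt K := by
        rw [show (3 / 2 : ℝ) * Real.sqrt K = Real.sqrt ((3 / 2) ^ 2 * K) by
          rw [Real.sqrt_mul (by positivity), Real.sqrt_sq (by norm_num)]]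
        apply Real.sqrt_le_sqrt
        linarith
      have h6 : (k : ℝ) ^ 2 * Real.sqrt k ≤ 6 * (K ^ 2 * Real.sqrt K) := by
        have e1 : (k : ℝ) ^ 2 ≤ (2 * K) ^ 2 := pow_le_pow_left₀ (by positivity) hk2 2
        calc (k : ℝ) ^ 2 * Real.sqrt k ≤ (2 * K) ^ 2 * (3 / 2 * Real.sqrt K) :=
              mul_le_mul e1 h5 (Real.sqrt_nonneg _) (by positivity)
          _ = _ := by ring
      have h7 : c1 ≤ 6 * (K ^ 2 * Real.sqrt K) * a k :=
        h4.trans (mul_le_mul_of_nonneg_right h6 (ha0 k))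
      rw [div_div, div_div, div_le_iff₀ (by positivity)]
      calc c1 ≤ 6 * (K ^ 2 * Real.sqrt K) * a k := h7
        _ = _ := by ring
    have h4 := Finset.card_nsmul_le_sum (Finset.Ico K (2 * K)) a _ h3
    rw [Nat.card_Ico, show 2 * K - K = K by omega, nsmul_eq_mul, ← hw] at h4
    refine le_trans (le_of_eq ?_) h4
    field_simp
  have hw0 : 0 < w := lt_of_lt_of_le (by positivity) hwlow
  have hAlow : w * ((n : ℝ) / 4 / N) ≤ A := by
    rw [hw, hAd, Finset.sum_mul]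
    exact Finset.sum_le_sum fun k _ => mul_le_mul_of_nonneg_left (hSlow k) (ha0 k)
  have hBup : B ≤ w * (R0 * C0 * (n * sph n K)) := by
    rw [hw, hBd, Finset.sum_mul]
    refine Finset.sum_le_sum fun k hk => ?_
    rw [Finset.mem_Ico] at hk
    exact mul_le_mul_of_nonneg_left (hMup k hk.1) (ha0 k)
  have hA0 : 0 < A := lt_of_lt_of_le (by positivity) hAlow
  have hfin : A ≤ 2 * B + 4 * (n * ε ^ 2) := by
    by_contra hcon
    rw [not_le] at hcon
    have hnε : 0 ≤ (n : ℝ) * ε ^ 2 := by positivity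
    rcases le_total A (2 * B) with h | h
    · linarith
    · have h3 : (A / 2) ^ 2 ≤ (A - B) ^ 2 := pow_le_pow_left₀ (by linarith) (by linarith) 2
      have h4 : A * A ≤ 4 * (n * ε ^ 2) * A := by nlinarith
      have h5 := le_of_mul_le_mul_right h4 hA0
      have h6 : 0 ≤ B := by
        rw [hBd]
        refine Finset.sum_nonneg fun k _ => mul_nonneg (ha0 k) ?_
        rw [hMk]
        have hev : Even (2 * k) := ⟨k, by ring⟩
        exact Finset.sum_nonneg fun i _ => mul_nonneg (norm_nonneg _)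
          (integral_nonneg fun z => hev.pow_nonneg _)
      linarith
  have hstep : w * ((n : ℝ) / 4 / N)
      ≤ w * (2 * (R0 * C0 * (n * sph n K)) + 4 * (n * ε ^ 2) * (6 / c1 * (K * Real.sqrt K))) := by
    have h3 : 4 * (n * ε ^ 2) ≤ w * (4 * (n * ε ^ 2) * (6 / c1 * (K * Real.sqrt K))) := by
      have h4 : 1 ≤ w * (6 / c1 * (K * Real.sqrt K)) := by
        have e1 : c1 / 6 / (K * Real.sqrt K) * (6 / c1 * (K * Real.sqrt K)) = 1 := by
          field_simp
        rw [← e1]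
        exact mul_le_mul_of_nonneg_right hwlow (by positivity)
      have h5 : 0 ≤ 4 * ((n : ℝ) * ε ^ 2) := by positivity
      calc 4 * ((n : ℝ) * ε ^ 2) = 4 * (n * ε ^ 2) * 1 := by ring
        _ ≤ 4 * (n * ε ^ 2) * (w * (6 / c1 * (K * Real.sqrt K))) := mul_le_mul_of_nonneg_left h4 h5
        _ = _ := by ring
    calc w * ((n : ℝ) / 4 / N) ≤ A := hAlow
      _ ≤ 2 * B + 4 * (n * ε ^ 2) := hfin
      _ ≤ 2 * (w * (R0 * C0 * (n * sph n K))) + w * (4 * (n * ε ^ 2) * (6 / c1 * (K * Real.sqrt K))) := by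
          linarith
      _ = _ := by ring
  have hfinal := le_of_mul_le_mul_left hstep hw0
  have e3 : (n : ℝ) / 4 / N = n * (1 / N / 4) := by ring
  have e4 : 2 * (R0 * C0 * (n * sph n K)) + 4 * (n * ε ^ 2) * (6 / c1 * (K * Real.sqrt K))
      = n * (2 * (R0 * C0) * sph n K + 24 / c1 * (K * Real.sqrt K * ε ^ 2)) := by ring
  rw [e3, e4] at hfinal
  have h9 := le_of_mul_le_mul_left hfinal hn0
  have hsp := sph_nonneg n K
  have h10 : 0 ≤ 24 / c1 * sph n K := by positivity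
  have h11 : 0 ≤ 2 * (R0 * C0) * (K * Real.sqrt K * ε ^ 2) := by positivity
  nlinarith

/-- the lower bound for all `ε` -/
theorem low_pow (h1 : StmL1) (h2 : StmL2) :
    ∃ C : ℝ, 0 < C ∧ ∀ (n N : ℕ) (ε : ℝ), 1 ≤ n → 0 < ε → ε ≤ 1 / 2 → Approx n N ε →
      (1 / ε) ^ (2 * ((n : ℝ) - 1) / (n + 2)) ≤ C * (n * Real.sqrt n) * N := by
  obtain ⟨C, hC, h⟩ := low_sph h1 h2
  refine ⟨C * 4 + 1, by positivity, ?_⟩
  intro n N ε hn hε hε1 hA
  have hN := approx_pos hn hε1 hA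
  have hn0 : (0 : ℝ) < n := by exact_mod_cast hn
  have hn1 : (1 : ℝ) ≤ n := by exact_mod_cast hn
  have hNr : (0 : ℝ) < N := by exact_mod_cast hN
  obtain ⟨b, hb⟩ : ∃ b : ℝ, b = 1 / ε := ⟨_, rfl⟩
  have hb1 : 1 ≤ b := by rw [hb, le_div_iff₀ hε]; linarith
  have hb0 : 0 < b := by linarith
  have hεb : ε = b⁻¹ := by rw [hb]; simp
  obtain ⟨y, hy⟩ : ∃ y : ℝ, y = b ^ (4 / ((n : ℝ) + 2)) := ⟨_, rfl⟩
  have hy1 : 1 ≤ y := by rw [hy]; exact Real.one_le_rpow hb1 (by positivity)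
  have hy0 : 0 < y := by linarith
  obtain ⟨F, hF⟩ : ∃ F : ℝ, F = b ^ (2 * ((n : ℝ) - 1) / (n + 2)) := ⟨_, rfl⟩
  have hF0 : 0 < F := by rw [hF]; positivity
  have hFy : y ^ (((n : ℝ) - 1) / 2) = F := by
    rw [hy, hF, ← Real.rpow_mul hb0.le]
    congr 1
    field_simp
    ring
  -- the parameter
  obtain ⟨K, hK⟩ : ∃ K : ℕ, K = ⌈(n : ℝ) * y / 2⌉₊ := ⟨_, rfl⟩
  have hK1 : (n : ℝ) * y / 2 ≤ K := by rw [hK]; exact Nat.le_ceil _
  have hKpos : 1 ≤ K := by
    have : (0 : ℝ) < K := lt_of_lt_of_le (by positivity) hK1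
    exact_mod_cast this
  have hK2 : (K : ℝ) ≤ 3 / 2 * (n * y) := by
    have h3 : (K : ℝ) < (n : ℝ) * y / 2 + 1 := by rw [hK]; exact Nat.ceil_lt_add_one (by positivity)
    have : 1 ≤ n * y := by nlinarith
    linarith
  have hKr : (1 : ℝ) ≤ K := by exact_mod_cast hKpos
  have h3 := h n N ε K hn hε hε1 hA hKpos
  have h4 : sph n K ≤ F⁻¹ := by
    refine (sph_pow n hn K).trans ?_
    rw [← hFy, ← Real.inv_rpow hy0.le]
    apply Real.rpow_le_rpow (by positivity)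
    · rw [inv_eq_one_div, div_le_div_iff₀ (by positivity) hy0]
      nlinarith
    · have : 0 ≤ (n : ℝ) - 1 := by linarith
      positivity
  have h5 : (K : ℝ) * Real.sqrt K * ε ^ 2 ≤ 3 * (n * Real.sqrt n) * F⁻¹ := by
    have e1 : Real.sqrt K ≤ Real.sqrt (3 / 2) * (Real.sqrt n * Real.sqrt y) := by
      rw [← Real.sqrt_mul hn0.le, ← Real.sqrt_mul (by norm_num)]
      exact Real.sqrt_le_sqrt hK2
    have e2 : Real.sqrt (3 / 2) ≤ 2 := by
      rw [show (2 : ℝ) = Real.sqrt (2 ^ 2) by rw [Real.sqrt_sq (by norm_num)]]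
      exact Real.sqrt_le_sqrt (by norm_num)
    have e3 : Real.sqrt K ≤ 2 * (Real.sqrt n * Real.sqrt y) :=
      e1.trans (mul_le_mul_of_nonneg_right e2 (by positivity))
    have e4 : (K : ℝ) * Real.sqrt K ≤ (3 / 2 * (n * y)) * (2 * (Real.sqrt n * Real.sqrt y)) :=
      mul_le_mul hK2 e3 (Real.sqrt_nonneg _) (by positivity)
    have e5 : y * Real.sqrt y * ε ^ 2 = F⁻¹ := by
      have f1 : Real.sqrt y = b ^ (2 / ((n : ℝ) + 2)) := by
        rw [hy, Real.sqrt_eq_rpow, ← Real.rpow_mul hb0.le]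
        congr 1
        field_simp
        ring
      have f2 : ε ^ 2 = b ^ (-2 : ℝ) := by
        rw [hεb, inv_pow, Real.rpow_neg hb0.le]
        norm_num
      rw [f1, f2, hy, hF, ← Real.rpow_neg hb0.le, ← Real.rpow_add hb0, ← Real.rpow_add hb0]
      congr 1
      field_simp
      ring
    calc (K : ℝ) * Real.sqrt K * ε ^ 2
        ≤ ((3 / 2 * (n * y)) * (2 * (Real.sqrt n * Real.sqrt y))) * ε ^ 2 :=
          mul_le_mul_of_nonneg_right e4 (by positivity)
      _ = 3 * (n * Real.sqrt n) * (y * Real.sqrt y * ε ^ 2) := by ring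
      _ = _ := by rw [e5]
  have hsn : 1 ≤ Real.sqrt n := by
    rw [show (1 : ℝ) = Real.sqrt 1 by simp]
    exact Real.sqrt_le_sqrt hn1
  have hnn : 1 ≤ n * Real.sqrt n := by nlinarith
  have h6 : 1 / (N : ℝ) ≤ C * 4 * (n * Real.sqrt n) * F⁻¹ := by
    refine h3.trans ?_
    have e1 : sph n K + (K : ℝ) * Real.sqrt K * ε ^ 2 ≤ 4 * (n * Real.sqrt n) * F⁻¹ := by
      have : F⁻¹ ≤ (n * Real.sqrt n) * F⁻¹ := le_mul_of_one_le_left (by positivity) hnn
      nlinarith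
    calc _ ≤ C * (4 * (n * Real.sqrt n) * F⁻¹) := mul_le_mul_of_nonneg_left e1 hC
      _ = _ := by ring
  rw [← hb, ← hF]
  rw [div_le_iff₀ hNr] at h6
  have h7 := mul_le_mul_of_nonneg_right h6 hF0.le
  have e6 : C * 4 * (n * Real.sqrt n) * F⁻¹ * N * F = C * 4 * (n * Real.sqrt n) * N := by
    field_simp
  rw [e6, one_mul] at h7
  have : 0 ≤ (n * Real.sqrt n) * (N : ℝ) := by positivity
  nlinarith

end Pool.Agent.E8helper29.Zn
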