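import Pool.Agent.E8helper29.Zn.Up1

set_option autoImplicit false

namespace Pool.Agent.E8helper29.Zn

open MeasureTheory ProbabilityTheory Pool.Agent.Helper649.Zono
open scoped RealInnerProductSpace Nat NNReal

lemma log_ge' (n : ℕ) (ε : ℝ) (hn : 1 ≤ n) (hε : 0 < ε) (hε1 : ε ≤ 1 / 2) :
    1 / 2 ≤ Real.log (n / ε) ∧ Real.log (1 / ε) ≤ Real.log (n / ε) ∧ Real.log n ≤ Real.log (n / ε) := by
  have hn1 : (1 : ℝ) ≤ n := by exact_mod_cast hn
  have h1 : (2 : ℝ) ≤ n / ε := by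
    rw [le_div_iff₀ hε]; linarith
  have h2 := Real.log_le_log (by norm_num) h1
  have h3 := Real.log_two_gt_d9
  refine ⟨by linarith, ?_, ?_⟩
  · apply Real.log_le_log (by positivity)
    exact div_le_div_of_nonneg_right hn1 hε.le
  · apply Real.log_le_log (by positivity)
    rw [le_div_iff₀ hε]
    nlinarith

theorem up_tiny (hCell : StmCell) (hNet : StmNet) (hBar : StmBar) (hConc : StmConc) (hNS : StmNS)
    (hR2 : StmR2) :
    ∃ C : ℝ, 0 < C ∧ ∀ (n : ℕ) (ε : ℝ), 1 ≤ n → 0 < ε → ε ≤ 1 / 2 →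
      3 ≤ (1 / ε) ^ (2 / ((n : ℝ) + 2)) →
      ∃ (N : ℕ) (x : Fin N → E n),
        (N : ℝ) ≤ C * (n : ℝ) ^ 5 * Real.log (n / ε) * (1 / ε) ^ (2 * ((n : ℝ) - 1) / (n + 2)) ∧
        ∀ v : E n, (1 - ε) * ‖v‖ ≤ ∑ j, |⟪v, x j⟫| ∧ ∑ j, |⟪v, x j⟫| ≤ (1 + ε) * ‖v‖ := by
  obtain ⟨C, hC, h⟩ := up_gen hCell hNet hBar hConc hNS hR2
  refine ⟨2 * (165888 * C ^ 2 + 8), by positivity, ?_⟩
  intro n ε hn hε hε1 h3
  have hn1 : (1 : ℝ) ≤ n := by exact_mod_cast hn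
  have hn0 : (0 : ℝ) < n := by linarith
  obtain ⟨b, hb⟩ : ∃ b : ℝ, b = 1 / ε := ⟨_, rfl⟩
  have hb1 : 1 ≤ b := by rw [hb, le_div_iff₀ hε]; linarith
  have hb0 : 0 < b := by linarith
  have hεb : ε = b⁻¹ := by rw [hb]; simp
  rw [← hb] at h3 ⊢
  obtain ⟨F, hF⟩ : ∃ F : ℝ, F = b ^ (2 * ((n : ℝ) - 1) / (n + 2)) := ⟨_, rfl⟩
  have hF0 : 0 < F := by rw [hF]; positivity
  rw [← hF]
  obtain ⟨y, hy⟩ : ∃ y : ℝ, y = b ^ (2 / ((n : ℝ) + 2)) := ⟨_, rfl⟩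
  rw [← hy] at h3
  have hy0 : 0 < y := by linarith
  obtain ⟨δ, hδ⟩ : ∃ δ : ℝ, δ = 3 / y := ⟨_, rfl⟩
  have hδ0 : 0 < δ := by rw [hδ]; positivity
  have hδ1 : δ ≤ 1 := by rw [hδ, div_le_one hy0]; exact h3
  have hεδ : ε ≤ δ := by
    rw [hδ, hεb, le_div_iff₀ hy0]
    have e1 : y ≤ b := by
      rw [hy]
      calc b ^ (2 / ((n : ℝ) + 2)) ≤ b ^ (1 : ℝ) := by
            apply Real.rpow_le_rpow_of_exponent_le hb1
            rw [div_le_one (by positivity)]; linarith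
        _ = b := Real.rpow_one b
    have e2 : b⁻¹ * y ≤ b⁻¹ * b := mul_le_mul_of_nonneg_left e1 (by positivity)
    rw [inv_mul_cancel₀ hb0.ne'] at e2
    linarith
  have hcast : ((n - 1 : ℕ) : ℝ) = (n : ℝ) - 1 := by
    rw [Nat.cast_sub hn]; simp
  have hpow : (3 / δ) ^ (n - 1) = F := by
    have e1 : 3 / δ = y := by rw [hδ]; field_simp
    rw [e1, hy, hF, ← Real.rpow_natCast, ← Real.rpow_mul hb0.le, hcast]
    congr 1
    field_simp
  have hδε : δ ^ 3 / ε ^ 2 = 27 * F := by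
    have e1 : y ^ 3 * F = b ^ 2 := by
      rw [hy, hF, ← Real.rpow_natCast, ← Real.rpow_mul hb0.le, ← Real.rpow_add hb0,
        ← Real.rpow_natCast]
      congr 1
      push_cast
      field_simp
      ring
    have e2 : 1 / ε ^ 2 = b ^ 2 := by rw [hb]; ring
    calc δ ^ 3 / ε ^ 2 = δ ^ 3 * (1 / ε ^ 2) := by ring
      _ = δ ^ 3 * (y ^ 3 * F) := by rw [e2, e1]
      _ = 27 * F := by rw [hδ]; field_simp; norm_num
  obtain ⟨hL1, hL2, hL3⟩ := log_ge' n ε hn hε hε1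
  obtain ⟨L, hL⟩ : ∃ L : ℝ, L = Real.log (n / ε) := ⟨_, rfl⟩
  rw [← hL] at hL1 hL2 hL3 ⊢
  have hL0 : 0 < L := by linarith
  -- the exponent
  obtain ⟨Q, hQ⟩ : ∃ Q : ℝ, Q = 8 * n * (12 / ε) ^ (n - 1) := ⟨_, rfl⟩
  have hQ1 : 8 ≤ Q := by
    rw [hQ]
    have e1 : 1 ≤ (12 / ε) ^ (n - 1) := by
      apply one_le_pow₀
      rw [le_div_iff₀ hε]; linarith
    nlinarith
  have hQ0 : 0 < Q := by linarith
  obtain ⟨Λ, hΛ⟩ : ∃ Λ : ℝ, Λ = Real.log Q := ⟨_, rfl⟩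
  have hΛ0 : 0 < Λ := by rw [hΛ]; exact Real.log_pos (by linarith)
  have hΛ1 : Λ ≤ 6 * n * L := by
    have e1 : Λ = Real.log 8 + Real.log n + (n - 1) * (Real.log 12 + Real.log (1 / ε)) := by
      have e0 : Real.log (12 / ε) = Real.log 12 + Real.log (1 / ε) := by
        rw [← Real.log_mul (by norm_num) (by positivity)]
        congr 1
        ring
      rw [hΛ, hQ, Real.log_mul (by positivity) (by positivity), Real.log_mul (by norm_num) hn0.ne',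
        Real.log_pow, hcast, e0]
    have e2 : Real.log 8 ≤ 5 * L := by
      have f1 : (8 : ℝ) = 2 ^ 3 := by norm_num
      rw [f1, Real.log_pow]
      have := Real.log_two_lt_d9
      push_cast
      linarith
    have e3 : Real.log 12 ≤ 5 * L := by
      have f1 : Real.log 12 ≤ Real.log 16 := Real.log_le_log (by norm_num) (by norm_num)
      have f2 : (16 : ℝ) = 2 ^ 4 := by norm_num
      rw [f2, Real.log_pow] at f1
      have := Real.log_two_lt_d9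
      have f3 := Real.exp_one_lt_d9
      have f4 : Real.log 12 ≤ 5 / 2 := by
        rw [Real.log_le_iff_le_exp (by norm_num)]
        have g1 : Real.exp (5 / 2) = Real.exp 1 * Real.exp 1 * Real.exp (1 / 2) := by
          rw [← Real.exp_add, ← Real.exp_add]; norm_num
        have g2 := Real.exp_one_gt_d9
        have g3 : 1 + 1 / 2 + (1 / 2) ^ 2 / 2 ≤ Real.exp (1 / 2) := by
          have := Real.quadratic_le_exp_of_nonneg (by norm_num : (0 : ℝ) ≤ 1 / 2)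
          linarith
        rw [g1]
        have g4 : (2.718 : ℝ) * 2.718 ≤ Real.exp 1 * Real.exp 1 := by
          apply mul_le_mul <;> linarith
        nlinarith
      linarith
    have e4 : (n - 1) * (Real.log 12 + Real.log (1 / ε)) ≤ ((n : ℝ) - 1) * (6 * L) := by
      apply mul_le_mul_of_nonneg_left _ (by linarith)
      linarith
    rw [e1]
    nlinarith
  obtain ⟨m, hm⟩ : ∃ m : ℝ, m = ε ^ 2 / (1024 * C * n ^ 2 * δ ^ 3 * Λ) := ⟨_, rfl⟩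
  have hm0 : 0 < m := by rw [hm]; positivity
  have hX : (ε / 8) ^ 2 / (2 * (8 * C * n ^ 2 * m * δ ^ 3)) = Λ := by
    rw [hm]; field_simp; norm_num
  obtain ⟨N, x, hN, hx⟩ := h n ε δ m hn hε hε1 hδ0 hδ1 hεδ hm0 (by
    rw [hX, Real.exp_neg, hΛ, Real.exp_log hQ0]
    have e1 : 2 * (2 * n * (12 / ε) ^ (n - 1)) = Q / 2 := by rw [hQ]; ring
    rw [e1]
    have e2 : Q / 2 * Q⁻¹ = 1 / 2 := by field_simp
    rw [e2]; norm_num)
  refine ⟨N, x, hN.trans ?_, hx⟩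
  rw [hpow]
  have hCm : C * n / m = 1024 * 27 * C ^ 2 * n ^ 3 * Λ * F := by
    have e1 : C * n / m = 1024 * C ^ 2 * n ^ 3 * Λ * (δ ^ 3 / ε ^ 2) := by
      rw [hm]; field_simp
    rw [e1, hδε]; ring
  rw [hCm]
  have h4 : 1024 * 27 * C ^ 2 * n ^ 3 * Λ * F ≤ 165888 * C ^ 2 * n ^ 4 * L * F := by
    have e1 : 1024 * 27 * C ^ 2 * n ^ 3 * Λ ≤ 1024 * 27 * C ^ 2 * n ^ 3 * (6 * n * L) :=
      mul_le_mul_of_nonneg_left hΛ1 (by positivity)
    calc _ ≤ 1024 * 27 * C ^ 2 * n ^ 3 * (6 * n * L) * F := mul_le_mul_of_nonneg_right e1 hF0.le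
      _ = _ := by ring
  have h5 : 2 * (2 * n * F) ≤ 8 * n ^ 4 * L * F := by
    have e1 : (n : ℝ) ≤ n ^ 4 := by
      calc (n : ℝ) = n ^ 1 := by ring
        _ ≤ n ^ 4 := pow_le_pow_right₀ hn1 (by norm_num)
    have e2 : 2 * (2 * (n : ℝ)) ≤ 8 * n ^ 4 * L := by nlinarith [pow_pos hn0 4]
    calc 2 * (2 * n * F) = 2 * (2 * n) * F := by ring
      _ ≤ _ := mul_le_mul_of_nonneg_right e2 hF0.le
  have h6 : (n : ℝ) + 1 ≤ 2 * n := by linarith
  calc ((n : ℝ) + 1) * (1024 * 27 * C ^ 2 * n ^ 3 * Λ * F + 2 * (2 * n * F))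
      ≤ (2 * n) * (165888 * C ^ 2 * n ^ 4 * L * F + 8 * n ^ 4 * L * F) := by
        apply mul_le_mul h6 (by linarith) (by positivity) (by positivity)
    _ = _ := by ring

/-- the upper bound for all `n` and all `ε` -/
theorem up_all (hCell : StmCell) (hNet : StmNet) (hBar : StmBar) (hConc : StmConc) (hNS : StmNS)
    (hR2 : StmR2) (hUA : StmUA) :
    ∃ C : ℝ, 0 < C ∧ ∀ (n : ℕ) (ε : ℝ), 1 ≤ n → 0 < ε → ε ≤ 1 / 2 →
      ∃ (N : ℕ) (x : Fin N → E n),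
        (N : ℝ) ≤ C * Real.log (n / ε) ^ 5 * (n * (1 / ε) ^ (2 * ((n : ℝ) - 1) / (n + 2))) ∧
        ∀ v : E n, (1 - ε) * ‖v‖ ≤ ∑ j, |⟪v, x j⟫| ∧ ∑ j, |⟪v, x j⟫| ≤ (1 + ε) * ‖v‖ := by
  obtain ⟨C1, hC1, h1⟩ := up_tiny hCell hNet hBar hConc hNS hR2
  obtain ⟨C2, hC2, h2⟩ := hUA
  refine ⟨16 * C1 + 432 * C2, by positivity, ?_⟩
  intro n ε hn hε hε1
  have hn1 : (1 : ℝ) ≤ n := by exact_mod_cast hn
  have hn0 : (0 : ℝ) < n := by linarith
  obtain ⟨b, hb⟩ : ∃ b : ℝ, b = 1 / ε := ⟨_, rfl⟩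
  have hb1 : 1 ≤ b := by rw [hb, le_div_iff₀ hε]; linarith
  have hb0 : 0 < b := by linarith
  obtain ⟨F, hF⟩ : ∃ F : ℝ, F = b ^ (2 * ((n : ℝ) - 1) / (n + 2)) := ⟨_, rfl⟩
  have hF0 : 0 < F := by rw [hF]; positivity
  obtain ⟨hL1, hL2, hL3⟩ := log_ge' n ε hn hε hε1
  obtain ⟨L, hL⟩ : ∃ L : ℝ, L = Real.log (n / ε) := ⟨_, rfl⟩
  have h1' := h1 n ε hn hε hε1
  have h2' := h2 n ε hn hε hε1
  rw [← hb] at h1' h2' hL2 ⊢
  rw [← hL] at h1' hL1 hL2 hL3 ⊢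
  rw [← hF] at h1' ⊢
  have hL0 : 0 < L := by linarith
  rcases le_or_gt 3 (b ^ (2 / ((n : ℝ) + 2))) with h3 | h3
  · obtain ⟨N, x, hN, hx⟩ := h1' h3
    refine ⟨N, x, hN.trans ?_, hx⟩
    have h4 : (n : ℝ) ≤ 2 * L := by
      have e1 := Real.log_le_log (by norm_num) h3
      rw [Real.log_rpow hb0] at e1
      have e2 : 1 ≤ Real.log 3 := by
        rw [Real.le_log_iff_exp_le (by norm_num)]
        have := Real.exp_one_lt_d9
        linarith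
      have e3 : 1 ≤ 2 / ((n : ℝ) + 2) * Real.log b := e2.trans e1
      rw [div_mul_eq_mul_div, le_div_iff₀ (by positivity)] at e3
      linarith
    have h5 : (n : ℝ) ^ 4 ≤ 16 * L ^ 4 := by
      have := pow_le_pow_left₀ hn0.le h4 4
      calc (n : ℝ) ^ 4 ≤ (2 * L) ^ 4 := this
        _ = _ := by ring
    have h6 : C1 * n ^ 5 * L * F ≤ 16 * C1 * L ^ 5 * (n * F) := by
      calc C1 * n ^ 5 * L * F = C1 * n * L * F * n ^ 4 := by ring
        _ ≤ C1 * n * L * F * (16 * L ^ 4) := mul_le_mul_of_nonneg_left h5 (by positivity)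
        _ = _ := by ring
    have h7 : 0 ≤ 432 * C2 * L ^ 5 * (n * F) := by positivity
    nlinarith
  · obtain ⟨N, x, hN, hx⟩ := h2'
    refine ⟨N, x, hN.trans ?_, hx⟩
    have h4 : b ^ 2 ≤ 27 * F := by
      have e1 : (b ^ (2 / ((n : ℝ) + 2))) ^ 3 * F = b ^ 2 := by
        rw [hF, ← Real.rpow_natCast, ← Real.rpow_mul hb0.le, ← Real.rpow_add hb0,
          ← Real.rpow_natCast]
        congr 1
        push_cast
        field_simp
        ring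
      have e2 : (b ^ (2 / ((n : ℝ) + 2))) ^ 3 ≤ 3 ^ 3 := pow_le_pow_left₀ (by positivity) h3.le 3
      rw [← e1]
      calc _ ≤ 3 ^ 3 * F := mul_le_mul_of_nonneg_right e2 hF0.le
        _ = _ := by norm_num
    have h5 : L ≤ 16 * L ^ 5 := by
      have e1 : 1 ≤ (2 * L) ^ 4 := one_le_pow₀ (by linarith)
      calc L = L * 1 := by ring
        _ ≤ L * (2 * L) ^ 4 := mul_le_mul_of_nonneg_left e1 hL0.le
        _ = _ := by ring
    have h6 : C2 * n * b ^ 2 * Real.log b ≤ 432 * C2 * L ^ 5 * (n * F) := by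
      have e0 : 0 ≤ Real.log b := Real.log_nonneg hb1
      calc C2 * n * b ^ 2 * Real.log b ≤ C2 * n * (27 * F) * (16 * L ^ 5) := by
            apply mul_le_mul _ (hL2.trans h5) e0 (by positivity)
            exact mul_le_mul_of_nonneg_left h4 (by positivity)
        _ = _ := by ring
    have h7 : 0 ≤ 16 * C1 * L ^ 5 * (n * F) := by positivity
    nlinarith

end Pool.Agent.E8helper29.Zn
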