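import Pool.Agent.E8helper29.Zn.As6
import Pool.Agent.E8helper29.Zn.Lo1
import Pool.Agent.E8helper29.Zn.Up2
import Pool.Agent.E8helper26.Zn.P21
import Pool.Agent.E8helper86.Zn.P22
import Pool.Agent.E8helper25.Zn.P23
import Pool.Agent.E8helper71.Zn.P24
import Pool.Agent.E8helper97.ZN.P26
import Pool.Agent.E8helper63.Zu.U1
import Pool.Agent.E8helper73.ZU.U3
import Pool.Agent.E8helper39.ZU.U4
import Pool.Agent.E8helper63.Zu.U5
import Pool.Agent.E8helper25.Zu.U6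
import Pool.Agent.E8helper70.ZU.U7
import Pool.Agent.E8helper67.ZU.U8
import Pool.Agent.E8helper29.Zn.LC
import Pool.Agent.E8helper38.ZU.L2

/-!
The joint order of magnitude of the number of segments, up to powers of `log (n/ε)`.
-/

set_option autoImplicit false

namespace Pool.Agent.E8helper29.Zn

open MeasureTheory ProbabilityTheory Pool.Agent.Helper649.Zono
open scoped RealInnerProductSpace Nat NNReal

/-- the lower bound for all `n` and `ε` -/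
theorem low_all :
    ∃ C : ℝ, 0 < C ∧ ∀ (n N : ℕ) (ε : ℝ), 1 ≤ n → 0 < ε → ε ≤ 1 / 2 → Approx n N ε →
      n * (1 / ε) ^ (2 * ((n : ℝ) - 1) / (n + 2)) ≤ C * Real.log (n / ε) ^ 10 * N := by
  obtain ⟨C1, hC1, h1⟩ := low_log Pool.Agent.E8helper26.Zn.p21 (Pool.Agent.E8helper86.Zn.p22 p1)
    Pool.Agent.E8helper25.Zn.p23 (Pool.Agent.E8helper71.Zn.p24 p1) Pool.Agent.E8helper97.ZN.p26
  obtain ⟨C2, hC2, h2⟩ := low_pow LC.l1 Pool.Agent.E8helper38.ZU.l2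
  refine ⟨C1 + C2 * 32 ^ 3 * 2 ^ 7, by positivity, ?_⟩
  intro n N ε hn hε hε1 hA
  have hN := approx_pos hn hε1 hA
  have hn1 : (1 : ℝ) ≤ n := by exact_mod_cast hn
  have hn0 : (0 : ℝ) < n := by linarith
  have hNr : (0 : ℝ) < N := by exact_mod_cast hN
  obtain ⟨b, hb⟩ : ∃ b : ℝ, b = 1 / ε := ⟨_, rfl⟩
  have hb1 : 1 ≤ b := by rw [hb, le_div_iff₀ hε]; linarith
  have hb0 : 0 < b := by linarith
  obtain ⟨F, hF⟩ : ∃ F : ℝ, F = b ^ (2 * ((n : ℝ) - 1) / (n + 2)) := ⟨_, rfl⟩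
  have hF0 : 0 < F := by rw [hF]; positivity
  obtain ⟨hL1, hL2, hL3⟩ := log_ge' n ε hn hε hε1
  have h1' := h1 n N ε hn hε hε1
  have h2' := h2 n N ε hn hε hε1 hA
  obtain ⟨L, hL⟩ : ∃ L : ℝ, L = Real.log (n / ε) := ⟨_, rfl⟩
  rw [← hb] at h1' h2' hL2 ⊢
  rw [← hL] at h1' hL1 hL2 hL3 ⊢
  rw [← hF] at h2' ⊢
  have hL0 : 0 < L := by linarith
  rcases le_or_gt (32 * Real.log b) n with h3 | h3
  · have h4 := h1' h3 hA
    have h5 : F ≤ b ^ 2 := by
      rw [hF, ← Real.rpow_natCast]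
      apply Real.rpow_le_rpow_of_exponent_le hb1
      rw [div_le_iff₀ (by positivity)]
      push_cast
      linarith
    have h6 : n * F ≤ n * b ^ 2 := mul_le_mul_of_nonneg_left h5 hn0.le
    have h7 : 0 ≤ C2 * 32 ^ 3 * 2 ^ 7 * L ^ 10 * N := by positivity
    nlinarith
  · have h4 : (n : ℝ) ≤ 32 * L := by linarith
    have h5 : Real.sqrt n ≤ n := by
      have e1 := Real.sq_sqrt hn0.le
      have e2 : 1 ≤ Real.sqrt n := by
        rw [show (1 : ℝ) = Real.sqrt 1 by simp]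
        exact Real.sqrt_le_sqrt hn1
      nlinarith
    have h6 : (n : ℝ) * (n * Real.sqrt n) ≤ 32 ^ 3 * L ^ 3 := by
      calc (n : ℝ) * (n * Real.sqrt n) ≤ n * (n * n) := by
            apply mul_le_mul_of_nonneg_left _ hn0.le
            exact mul_le_mul_of_nonneg_left h5 hn0.le
        _ = (n : ℝ) ^ 3 := by ring
        _ ≤ (32 * L) ^ 3 := pow_le_pow_left₀ hn0.le h4 3
        _ = _ := by ring
    have h7 : L ^ 3 ≤ 2 ^ 7 * L ^ 10 := by
      have e1 : 1 ≤ (2 * L) ^ 7 := one_le_pow₀ (by linarith)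
      calc L ^ 3 = L ^ 3 * 1 := by ring
        _ ≤ L ^ 3 * (2 * L) ^ 7 := mul_le_mul_of_nonneg_left e1 (by positivity)
        _ = _ := by ring
    have h8 : n * F ≤ C2 * 32 ^ 3 * 2 ^ 7 * L ^ 10 * N := by
      calc n * F ≤ n * (C2 * (n * Real.sqrt n) * N) := mul_le_mul_of_nonneg_left h2' hn0.le
        _ = C2 * (n * (n * Real.sqrt n)) * N := by ring
        _ ≤ C2 * (32 ^ 3 * (2 ^ 7 * L ^ 10)) * N := by
            apply mul_le_mul_of_nonneg_right _ hNr.le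
            apply mul_le_mul_of_nonneg_left _ hC2.le
            exact h6.trans (mul_le_mul_of_nonneg_left h7 (by norm_num))
        _ = _ := by ring
    have h9 : 0 ≤ C1 * L ^ 10 * N := by positivity
    nlinarith

/-- **the joint order of magnitude up to powers of `log (n/ε)`** -/
theorem joint :
    ∃ c C : ℝ, 0 < c ∧ 0 < C ∧ ∀ (n : ℕ) (ε : ℝ), 1 ≤ n → 0 < ε → ε ≤ 1 / 2 →
      (∀ N : ℕ, Approx n N ε →
        c * (n * (1 / ε) ^ (2 * ((n : ℝ) - 1) / (n + 2))) / Real.log (n / ε) ^ 10 ≤ N) ∧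
      ∃ N : ℕ, Approx n N ε ∧
        (N : ℝ) ≤ C * (n * (1 / ε) ^ (2 * ((n : ℝ) - 1) / (n + 2))) * Real.log (n / ε) ^ 5 := by
  obtain ⟨C1, hC1, h1⟩ := low_all
  obtain ⟨C2, hC2, h2⟩ := up_all
    (Pool.Agent.E8helper63.Zu.u2b Pool.Agent.E8helper63.Zu.u1)
    (Pool.Agent.E8helper63.Zu.u2a Pool.Agent.E8helper63.Zu.u1)
    Pool.Agent.E8helper73.ZU.u3 Pool.Agent.E8helper39.ZU.u4 Pool.Agent.E8helper63.Zu.u5
    (Pool.Agent.E8helper70.ZU.u7 Pool.Agent.E8helper25.Zu.u6)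
    (Pool.Agent.E8helper67.ZU.u8 (Pool.Agent.E8helper63.Zu.u2a Pool.Agent.E8helper63.Zu.u1)
      Pool.Agent.E8helper63.Zu.u5)
  refine ⟨C1⁻¹, C2, by positivity, hC2, ?_⟩
  intro n ε hn hε hε1
  obtain ⟨hL1, -, -⟩ := log_ge' n ε hn hε hε1
  have hL0 : 0 < Real.log (n / ε) := by linarith
  refine ⟨fun N hA => ?_, ?_⟩
  · have h3 := h1 n N ε hn hε hε1 hA
    rw [div_le_iff₀ (by positivity), inv_mul_le_iff₀ hC1]
    refine h3.trans (le_of_eq (by ring))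
  · obtain ⟨N, x, hN, hx⟩ := h2 n ε hn hε hε1
    exact ⟨N, ⟨x, hx⟩, hN.trans (le_of_eq (by ring))⟩

end Pool.Agent.E8helper29.Zn
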