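import Pool.Agent.E8helper29.Zn.P25
import Pool.Agent.E8helper29.Zn.As5

/-!
The main measure with the exact moments: `E|G|^(2m) = n(n+2)...(n+2m-2)`.
-/

set_option autoImplicit false

namespace Pool.Agent.E8helper29.Zn

open MeasureTheory ProbabilityTheory Pool.Agent.Helper649.Zono
open scoped RealInnerProductSpace Nat NNReal Polynomial

lemma He_two (x : ℝ) : He 2 x = x ^ 2 - 1 := by
  have h0 : HP 0 = 1 := by simp [HP]
  have h1 : HP 1 = Polynomial.X := by rw [show (1 : ℕ) = 0 + 1 from rfl, HP_succ, h0]; simp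
  have h2 : HP 2 = Polynomial.X * Polynomial.X - 1 := by
    rw [show (2 : ℕ) = 1 + 1 from rfl, HP_succ, h1]; simp
  rw [He, h2]
  simp
  ring

lemma mm_pos (m : ℕ) : 0 < mm m := by
  rw [mm_eq]
  exact_mod_cast Nat.doubleFactorial_pos _

lemma int_pow_He_two (m : ℕ) :
    ∫ a, a ^ (2 * m) * He 2 a ∂(gaussianReal 0 1) = 2 * m * mm m := by
  have e1 : ∀ a : ℝ, a ^ (2 * m) * He 2 a = a ^ (2 * (m + 1)) - a ^ (2 * m) := by
    intro a
    rw [He_two]; ring
  simp only [e1]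
  have hi : ∀ k : ℕ, Integrable (fun a : ℝ => a ^ k) (gaussianReal 0 1) := by
    intro k
    have := poly_integrable (Polynomial.X ^ k) 1
    simpa using this
  rw [integral_sub (hi _) (hi _)]
  have h1 : ∫ a, a ^ (2 * (m + 1)) ∂(gaussianReal 0 1) = mm (m + 1) := rfl
  have h2 : ∫ a, a ^ (2 * m) ∂(gaussianReal 0 1) = mm m := rfl
  rw [h1, h2, mm_succ]
  ring

lemma w_mom {n : ℕ} (m : ℕ) {u : E n} (hu : ‖u‖ = 1) :
    ∫ g, |(⟪u, g⟫ : ℝ)| ^ (2 * m) * ‖g‖ ^ 2 ∂(stdGaussian (E n)) = (n + 2 * m) * mm m := by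
  obtain ⟨f, hf⟩ : ∃ f : ℝ → ℝ, f = fun x => x ^ (2 * m) := ⟨_, rfl⟩
  have hfm : Measurable f := by rw [hf]; fun_prop
  have hf2 : MemLp f 2 (gaussianReal 0 1) := by
    rw [memLp_two_iff_integrable_sq hfm.aestronglyMeasurable]
    have := poly_integrable (Polynomial.X ^ (2 * (2 * m))) 1
    rw [hf]
    refine this.congr (Filter.Eventually.of_forall fun x => ?_)
    simp only [Polynomial.eval_pow, Polynomial.eval_X]
    ring
  have hfe : ∀ x : ℝ, f x = x ^ (2 * m) := fun x => by rw [hf]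
  have e1 : ∀ g : E n, |(⟪u, g⟫ : ℝ)| ^ (2 * m) * ‖g‖ ^ 2
      = ∑ i : Fin n, (f ⟪u, g⟫ * He 2 ⟪EuclideanSpace.single i (1 : ℝ), g⟫ + ⟪u, g⟫ ^ (2 * m)) := by
    intro g
    rw [p7_norm_sq, p7_even, Finset.mul_sum]
    refine Finset.sum_congr rfl fun i _ => ?_
    rw [hfe, He_two]; ring
  have hi1 : ∀ i : Fin n, Integrable
      (fun g : E n => f ⟪u, g⟫ * He 2 ⟪EuclideanSpace.single i (1 : ℝ), g⟫) (stdGaussian (E n)) := by
    intro i
    have h1 : Integrable (fun g : E n => |(⟪u, g⟫ : ℝ)| ^ (2 * m) * ‖g‖ ^ 2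
        + |(⟪u, g⟫ : ℝ)| ^ (2 * m)) (stdGaussian (E n)) :=
      (p7_int_mul u (2 * m) 2).add (p7_int_inner u (2 * m))
    refine h1.mono' ?_ ?_
    · apply Measurable.aestronglyMeasurable
      simp only [He_two]
      fun_prop
    · filter_upwards with g
      rw [hfe, He_two, p7_coord, Real.norm_eq_abs, abs_mul, abs_pow]
      have h2 : |(g i) ^ 2 - 1| ≤ ‖g‖ ^ 2 + 1 := by
        have h3 : (g i) ^ 2 ≤ ‖g‖ ^ 2 := by
          rw [p7_norm_sq]
          have := Finset.single_le_sum (f := fun i : Fin n =>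
            (⟪EuclideanSpace.single i (1 : ℝ), g⟫ : ℝ) ^ 2) (fun i _ => sq_nonneg _)
            (Finset.mem_univ i)
          simp only [p7_coord] at this ⊢
          exact this
        rw [abs_le]
        constructor <;> nlinarith [sq_nonneg (g i), sq_nonneg ‖g‖]
      calc |(⟪u, g⟫ : ℝ)| ^ (2 * m) * |(g i) ^ 2 - 1|
          ≤ |(⟪u, g⟫ : ℝ)| ^ (2 * m) * (‖g‖ ^ 2 + 1) :=
            mul_le_mul_of_nonneg_left h2 (by positivity)
        _ = _ := by ring
  have hi2 : Integrable (fun g : E n => (⟪u, g⟫ : ℝ) ^ (2 * m)) (stdGaussian (E n)) := by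
    have := p7_int_inner u (2 * m)
    simpa only [p7_even] using this
  simp only [e1]
  have hi3 : ∀ i ∈ (Finset.univ : Finset (Fin n)), Integrable
      (fun g : E n => f ⟪u, g⟫ * He 2 ⟪EuclideanSpace.single i (1 : ℝ), g⟫ + ⟪u, g⟫ ^ (2 * m))
      (stdGaussian (E n)) := fun i _ => (hi1 i).add hi2
  rw [integral_finsetSum _ hi3]
  have e2 : ∀ i : Fin n, ∫ g, (f ⟪u, g⟫ * He 2 ⟪EuclideanSpace.single i (1 : ℝ), g⟫
      + ⟪u, g⟫ ^ (2 * m)) ∂(stdGaussian (E n))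
      = ⟪EuclideanSpace.single i (1 : ℝ), u⟫ ^ 2 * (2 * m * mm m) + mm m := by
    intro i
    rw [integral_add (hi1 i) hi2, mehler f hfm hf2 2 u (EuclideanSpace.single i (1 : ℝ)) hu
      (by simp), p7_inner_mom, hu, one_pow, mul_one, ← int_pow_He_two, hf, real_inner_comm]
  simp only [e2]
  rw [Finset.sum_add_distrib, ← Finset.sum_mul, ← p7_norm_sq, hu]
  simp
  ring

lemma fub2 {n : ℕ} (k : ℕ) : Integrable (Function.uncurry fun (G g : E n) =>
    |(⟪G, nor g⟫ : ℝ)| ^ k * ‖G‖ ^ 2) ((stdGaussian (E n)).prod (stdGaussian (E n))) := by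
  have hm : Measurable (Function.uncurry fun (G g : E n) => |(⟪G, nor g⟫ : ℝ)| ^ k * ‖G‖ ^ 2) := by
    unfold Function.uncurry nor
    fun_prop
  have hb : Integrable (fun p : E n × E n => (‖p.1‖ ^ (k + 2)) * 1)
      ((stdGaussian (E n)).prod (stdGaussian (E n))) :=
    Integrable.mul_prod (p7_int_norm_pow n (k + 2)) (integrable_const (1 : ℝ))
  refine hb.mono' hm.aestronglyMeasurable ?_
  filter_upwards with p
  simp only [Function.uncurry, mul_one]
  rw [Real.norm_eq_abs, abs_of_nonneg (by positivity), pow_add]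
  have h4 : |(⟪p.1, nor p.2⟫ : ℝ)| ≤ ‖p.1‖ := by
    refine (abs_real_inner_le_norm _ _).trans ?_
    calc ‖p.1‖ * ‖nor p.2‖ ≤ ‖p.1‖ * 1 :=
          mul_le_mul_of_nonneg_left (nor_le _) (by positivity)
      _ = _ := mul_one _
  exact mul_le_mul_of_nonneg_right (pow_le_pow_left₀ (abs_nonneg _) h4 k) (by positivity)

lemma sm_am2 {n : ℕ} (hn : 1 ≤ n) {e : E n} (he : ‖e‖ = 1) (m : ℕ) :
    (n + 2 * m) * mm m = sm e (2 * m) * ∫ g, ‖g‖ ^ (2 * (m + 1)) ∂(stdGaussian (E n)) := by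
  have h1 := integral_integral_swap (fub2 (n := n) (2 * m))
  have h2 : ∫ G, (∫ g, |(⟪G, nor g⟫ : ℝ)| ^ (2 * m) * ‖G‖ ^ 2 ∂(stdGaussian (E n)))
      ∂(stdGaussian (E n)) = sm e (2 * m) * ∫ g, ‖g‖ ^ (2 * (m + 1)) ∂(stdGaussian (E n)) := by
    rw [← integral_const_mul]
    refine integral_congr_ae (Filter.Eventually.of_forall fun G => ?_)
    simp only
    rw [integral_mul_const, sm_hom he]
    ring
  have h3 : ∫ g, (∫ G, |(⟪G, nor g⟫ : ℝ)| ^ (2 * m) * ‖G‖ ^ 2 ∂(stdGaussian (E n)))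
      ∂(stdGaussian (E n)) = (n + 2 * m) * mm m := by
    have h4 : (fun g : E n => ∫ G, |(⟪G, nor g⟫ : ℝ)| ^ (2 * m) * ‖G‖ ^ 2 ∂(stdGaussian (E n)))
        =ᵐ[stdGaussian (E n)] fun _ => (n + 2 * m) * mm m := by
      filter_upwards [ae_ne_zero hn] with g hg
      rw [← w_mom m (nor_norm hg)]
      refine integral_congr_ae ?_
      filter_upwards with G
      rw [real_inner_comm]
    rw [integral_congr_ae h4]
    simp
  rw [← h2, h1, h3]

lemma am_even (m : ℕ) : am (2 * m) = mm m := by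
  rw [am, mm]
  simp only [p7_even]

lemma norm_mom {n : ℕ} (hn : 1 ≤ n) (m : ℕ) :
    ∫ g, ‖g‖ ^ (2 * m) ∂(stdGaussian (E n)) = ∏ i ∈ Finset.range m, ((n : ℝ) + 2 * i) := by
  induction m with
  | zero => simp
  | succ m ih =>
    obtain ⟨e, he, -⟩ := exists_unit hn (0 : E n)
    have h1 := sm_am hn he (2 * m)
    have h2 := sm_am2 hn he m
    rw [am_even] at h1
    have h3 := mm_pos m
    have h4 : sm e (2 * m) ≠ 0 := by
      intro h
      rw [h, zero_mul] at h1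
      exact h3.ne' h1
    rw [Finset.prod_range_succ, ← ih]
    apply mul_left_cancel₀ h4
    rw [← h2, h1]
    ring

lemma sm_sph {n : ℕ} (hn : 1 ≤ n) {e : E n} (he : ‖e‖ = 1) (m : ℕ) : sm e (2 * m) = sph n m := by
  have hn0 : (0 : ℝ) < n := by exact_mod_cast hn
  have h1 := sm_am hn he (2 * m)
  rw [am_even, norm_mom hn, mm_eq, dfact_prod] at h1
  have h2 : (0 : ℝ) < ∏ i ∈ Finset.range m, ((n : ℝ) + 2 * i) :=
    Finset.prod_pos fun i _ => by positivity
  rw [sph, Finset.prod_div_distrib, eq_div_iff h2.ne', ← h1]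

/-- main measure with the exact moments, and the norm identity. -/
def Stm25c : Prop :=
  ∃ C : ℝ, 0 ≤ C ∧ ∀ n : ℕ, 1 ≤ n → ∃ μ₀ : Measure (E n), IsFiniteMeasure μ₀ ∧
    (∀ᵐ u ∂μ₀, ‖u‖ = 1) ∧
    (∀ W : E n, ∫ Y, ‖Y + W‖ ∂(stdGaussian (E n)) = ∫ u, kap ⟪W, u⟫ ∂μ₀) ∧
    (∀ z : E n, ∫ u, |⟪z, u⟫| ∂μ₀ = ‖z‖) ∧
    (∀ (m : ℕ) (v : E n), ‖v‖ = 1 → ∫ u, ⟪v, u⟫ ^ (2 * m) ∂μ₀ ≤ C * Real.sqrt n * sph n m)

theorem p25c : Stm25c := by
  have ha := am_one_pos
  refine ⟨1 / am 1, by positivity, fun n hn => ?_⟩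
  have hn0 : (0 : ℝ) < n := by exact_mod_cast hn
  set e : E n := EuclideanSpace.single ⟨0, hn⟩ (1 : ℝ) with he
  have hen : ‖e‖ = 1 := by simp [he]
  clear_value e
  obtain ⟨R, hR⟩ : ∃ R : ℝ, R = ∫ g, ‖g‖ ∂(stdGaussian (E n)) := ⟨_, rfl⟩
  have hR0 : 0 ≤ R := by rw [hR]; exact integral_nonneg fun g => norm_nonneg g
  have h1 : am 1 = sm e 1 * R := by
    have := sm_am hn hen 1
    simpa [← hR] using this
  have hRle : R ≤ Real.sqrt n := by rw [hR]; exact norm_int_le' n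
  have hRne : R ≠ 0 := by
    rintro h
    rw [h, mul_zero] at h1
    linarith
  have hsm : sm e 1 ≠ 0 := by
    intro h
    rw [h, zero_mul] at h1
    linarith
  obtain ⟨κ, hκ⟩ : ∃ κ : ℝ, κ = R / am 1 := ⟨_, rfl⟩
  have hκ0 : 0 ≤ κ := by rw [hκ]; positivity
  have hint : ∀ f : E n → ℝ, Measurable f →
      ∫ u, f u ∂(ENNReal.ofReal κ • (stdGaussian (E n)).map nor)
        = κ * ∫ g, f (nor g) ∂(stdGaussian (E n)) := by
    intro f hf
    rw [integral_smul_measure, ENNReal.toReal_ofReal hκ0, smul_eq_mul,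
      integral_map (nor_measurable n).aemeasurable hf.aestronglyMeasurable]
  refine ⟨ENNReal.ofReal κ • (stdGaussian (E n)).map nor,
    Measure.smul_finite _ ENNReal.ofReal_ne_top, ?_, ?_, ?_, ?_⟩
  · apply Measure.ae_smul_measure
    have hms : MeasurableSet {u : E n | ‖u‖ = 1} := measurableSet_eq_fun (by fun_prop) (by fun_prop)
    rw [ae_map_iff (nor_measurable n).aemeasurable hms]
    filter_upwards [ae_ne_zero hn] with g hg
    exact nor_norm hg
  · intro W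
    have hkm : Measurable fun u : E n => kap ⟪W, u⟫ := by
      have hin : Measurable fun u : E n => (⟪W, u⟫ : ℝ) := by fun_prop
      exact kap_measurable.comp hin
    rw [hint _ hkm]
    have h2 : ∀ z : E n, ‖z‖ = κ * ∫ g, |(⟪z, nor g⟫ : ℝ)| ^ 1 ∂(stdGaussian (E n)) := by
      intro z
      rw [sm_hom hen, hκ, h1, pow_one]
      field_simp
    have h3 : ∫ Y, ‖Y + W‖ ∂(stdGaussian (E n)) = κ * ∫ Y, (∫ g, |(⟪Y + W, nor g⟫ : ℝ)| ^ 1
        ∂(stdGaussian (E n))) ∂(stdGaussian (E n)) := by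
      rw [← integral_const_mul]
      refine integral_congr_ae ?_
      filter_upwards with Y
      exact h2 (Y + W)
    rw [h3, integral_integral_swap (sm_fub W 1)]
    congr 1
    refine integral_congr_ae ?_
    filter_upwards [ae_ne_zero hn] with g hg
    have hu := nor_norm hg
    have h4 : nor g ≠ 0 := by
      intro h
      rw [h, norm_zero] at hu
      exact zero_ne_one hu
    have h5 := p7_smooth W (nor g) h4
    rw [hu, one_mul, inv_one, one_smul] at h5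
    simpa using h5
  · intro z
    have hzm : Measurable fun u : E n => |(⟪z, u⟫ : ℝ)| := by fun_prop
    rw [hint _ hzm]
    have h2 : ‖z‖ = κ * ∫ g, |(⟪z, nor g⟫ : ℝ)| ^ 1 ∂(stdGaussian (E n)) := by
      rw [sm_hom hen, hκ, h1, pow_one]
      field_simp
    rw [h2]
    simp only [pow_one]
  · intro m v hv
    have hfm : Measurable fun u : E n => (⟪v, u⟫ : ℝ) ^ (2 * m) := by fun_prop
    rw [hint _ hfm]
    have h2 : ∀ g : E n, (⟪v, nor g⟫ : ℝ) ^ (2 * m) = |(⟪v, nor g⟫ : ℝ)| ^ (2 * m) := by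
      intro g
      rw [p7_even]
    simp only [h2]
    rw [sm_hom hen, hv, one_pow, one_mul, sm_sph hn hen]
    refine mul_le_mul_of_nonneg_right ?_ (sph_nonneg n m)
    rw [hκ, div_eq_mul_one_div, mul_comm]
    exact mul_le_mul_of_nonneg_left hRle (by positivity)

theorem p25b : Stm25b := by
  obtain ⟨C, hC, h⟩ := p25c
  refine ⟨C, hC, fun n hn => ?_⟩
  obtain ⟨μ₀, h1, h2, h3, -, h5⟩ := h n hn
  exact ⟨μ₀, h1, h2, h3, h5⟩

end Pool.Agent.E8helper29.Zn
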