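import Pool.Agent.Helper649.ZonoB

/-!
Definitions and exact statements of the pieces of project ZN
(zonotope approximation of the ball: `N ≥ c min(n^K, n^(1-δ) ε^(-2))`).
-/

set_option autoImplicit false

namespace Pool.Agent.E8helper29.Zn

open MeasureTheory ProbabilityTheory Pool.Agent.Helper649.Zono
open scoped RealInnerProductSpace Nat NNReal

/-- Euclidean `n`-space -/
abbrev E (n : ℕ) := EuclideanSpace ℝ (Fin n)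

/-- the mean of `|t + N|`, `N` a standard normal variable -/
noncomputable def kap (t : ℝ) : ℝ := ∫ x, |t + x| ∂(gaussianReal 0 1)

/-- PIECE 1 (kappa). `κ(t) = κ(0) + 2 ∫_0^t (t-s) φ(s) ds` with `φ` the normal density, and
`|κ(t)| ≤ |t| + 1`. -/
def Stm1 : Prop :=
  (∀ t : ℝ, kap t = kap 0
      + 2 * ∫ s in (0 : ℝ)..t, (t - s) * (Real.exp (-(s ^ 2) / 2) / Real.sqrt (2 * Real.pi))) ∧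
  (∀ t : ℝ, 0 ≤ kap t ∧ kap t ≤ |t| + 1)

/-- PIECE 2 (numerical differentiation). -/
def Stm2 : Prop :=
  ∀ k M : ℕ, 1 ≤ k → k ≤ M → ∃ (ω : Fin (M + 1) → ℝ) (a C : ℝ), a ≠ 0 ∧ 0 ≤ C ∧
    (∀ θ : ℝ, |∑ l, ω l * kap ((l : ℕ) * θ) - a * θ ^ (2 * k)| ≤ C * θ ^ (2 * M + 2)) ∧
    (∀ θ : ℝ, |∑ l, ω l * kap ((l : ℕ) * θ)| ≤ C * (1 + |θ|))

/-- PIECE 3 (a nonnegative flat combination). -/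
def Stm3 : Prop :=
  ∀ M : ℕ, ∃ (ρ β : Fin (M + 1) → ℝ) (c C : ℝ), 0 < c ∧ 0 ≤ C ∧ (∀ i, 0 ≤ β i) ∧
    (∀ t : ℝ, 0 ≤ ∑ i, ρ i * (kap (β i * t) - kap 0)) ∧
    (∀ t : ℝ, ∑ i, ρ i * (kap (β i * t) - kap 0) ≤ C * t ^ (2 * M + 2)) ∧
    (∀ t : ℝ, |t| ≤ 1 → c * t ^ (2 * M + 2) ≤ ∑ i, ρ i * (kap (β i * t) - kap 0)) ∧
    (∀ t : ℝ, 1 ≤ |t| → c * |t| ≤ ∑ i, ρ i * (kap (β i * t) - kap 0))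

/-- PIECE 4 (polarization). -/
def Stm4 : Prop :=
  ∀ (m : ℕ) (y : Fin m → ℝ),
    ∑ σ : Fin m → Bool, (∏ i, sg (σ i)) * (∑ i, sg (σ i) * y i) ^ m = 2 ^ m * (m ! : ℝ) * ∏ i, y i

/-- PIECE 5 (the error of the kernel; uses piece 4). -/
def Stm5 : Prop :=
  ∀ (k M : ℕ), 1 ≤ k → k ≤ M → ∀ (G k1 : ℝ → ℝ) (a C c : ℝ), 0 < c → 0 ≤ C →
    (∀ θ : ℝ, |G θ - a * θ ^ (2 * k)| ≤ C * θ ^ (2 * M + 2)) →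
    (∀ θ : ℝ, |G θ| ≤ C * (1 + |θ|)) →
    (∀ t : ℝ, 0 ≤ k1 t) →
    (∀ t : ℝ, |t| ≤ 1 → c * t ^ (2 * M + 2) ≤ k1 t) →
    (∀ t : ℝ, 1 ≤ |t| → c * |t| ≤ k1 t) →
    ∃ C' : ℝ, 0 ≤ C' ∧ ∀ (s : Fin (2 * k - 1) → ℝ) (τ : ℝ),
      |∑ σ : Fin (2 * k - 1) → Bool, ∑ b : Bool,
          (∏ i, sg (σ i)) * sg b * G (∑ i, sg (σ i) * s i + sg b * τ)
        - 2 ^ (2 * k) * ((2 * k)! : ℝ) * a * (∏ i, s i) * τ|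
      ≤ C' * ((∑ i, |s i|) ^ (2 * M + 2) + (1 + (∑ i, |s i|) ^ (2 * k - 1)) * k1 τ)

/-- PIECE 6 (shifted Gaussian). -/
def Stm6 : Prop :=
  ∀ (n : ℕ) (u W : E n), ‖u‖ = 1 → ∫ Y, |⟪u, Y + W⟫| ∂(stdGaussian (E n)) = kap ⟪W, u⟫

/-- PIECE 7 (the norm as a mixture of `|⟨·,u⟩|` over unit vectors, with moments). -/
def Stm7 : Prop :=
  ∀ Q : ℕ, ∃ C : ℝ, 0 ≤ C ∧ ∀ n : ℕ, 1 ≤ n → ∃ μ₀ : Measure (E n), IsFiniteMeasure μ₀ ∧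
    (∀ᵐ u ∂μ₀, ‖u‖ = 1) ∧
    (∀ W : E n, ∫ Y, ‖Y + W‖ ∂(stdGaussian (E n)) = ∫ u, kap ⟪W, u⟫ ∂μ₀) ∧
    (∀ p : ℕ, p ≤ Q → ∀ y : E n,
      ∫ u, |⟪y, u⟫| ^ p ∂μ₀ ≤ C * Real.sqrt n * (‖y‖ / Real.sqrt n) ^ p)

/-- PIECE 8 (averages over sign vectors). `p = 2k-1`, `X_i = sgv (σ i)`;
the tensor identities and the moment bounds. -/
def Stm8 : Prop :=
  (∀ (n : ℕ) (u w : E n), ∑ σ : Fin n → Bool, ⟪u, sgv σ⟫ * ⟪w, sgv σ⟫ = 2 ^ n * ⟪u, w⟫) ∧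
  (∀ (n p : ℕ) (u w : E n), ∑ σ : Fin p → Fin n → Bool,
      (∏ i, ⟪u, sgv (σ i)⟫) * (∏ i, ⟪w, sgv (σ i)⟫) = (2 ^ n) ^ p * ⟪u, w⟫ ^ p) ∧
  (∀ p m : ℕ, ∃ C : ℝ, 0 ≤ C ∧ ∀ (n : ℕ) (u : E n), ‖u‖ = 1 →
      ∑ σ : Fin p → Fin n → Bool, (∑ i, |⟪u, sgv (σ i)⟫|) ^ m ≤ C * (2 ^ n) ^ p)

end Pool.Agent.E8helper29.Zn
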