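import Pool.Agent.E8helper29.Zn.Stm3

set_option autoImplicit false

namespace Pool.Agent.E8helper29.Zn

open MeasureTheory ProbabilityTheory Pool.Agent.Helper649.Zono
open scoped RealInnerProductSpace Nat NNReal

lemma abs_weighted {n M : ℕ} (w : Fin M → E n) (y : E n) (q : Fin M → ℝ) (B : ℝ) (S : Finset (Fin M))
    (hq : ∀ j, 0 ≤ q j) (hS : ∀ j, j ∉ S → q j = 0) (hB : ∀ j ∈ S, |⟪y, w j⟫| ≤ B) :
    0 ≤ ∑ j, q j * |⟪y, w j⟫| ∧ ∑ j, q j * |⟪y, w j⟫| ≤ B * ∑ j, q j := by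
  constructor
  · exact Finset.sum_nonneg fun j _ => mul_nonneg (hq j) (abs_nonneg _)
  · rw [Finset.mul_sum]
    refine Finset.sum_le_sum fun j _ => ?_
    by_cases hj : j ∈ S
    · rw [mul_comm B]
      exact mul_le_mul_of_nonneg_left (hB j hj) (hq j)
    · rw [hS j hj]; simp

/-- same sign on a cell: the weighted sum depends only on the barycentre -/
lemma same_sign {n M : ℕ} (w : Fin M → E n) (y : E n) (hy : ‖y‖ = 1) (S : Finset (Fin M)) (D : ℝ)
    (hD : ∀ i ∈ S, ∀ j ∈ S, ‖w i - w j‖ ≤ D) (j0 : Fin M) (hj0 : j0 ∈ S) (hlarge : D < |⟪y, w j0⟫|) :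
    ∃ σ : ℝ, ∀ j ∈ S, |⟪y, w j⟫| = σ * ⟪y, w j⟫ := by
  have hclose : ∀ j ∈ S, |⟪y, w j⟫ - ⟪y, w j0⟫| ≤ D := by
    intro j hj
    rw [← inner_sub_right]
    calc |⟪y, w j - w j0⟫| ≤ ‖y‖ * ‖w j - w j0‖ := abs_real_inner_le_norm _ _
      _ ≤ D := by rw [hy, one_mul]; exact hD j hj j0 hj0
  rcases le_total 0 (⟪y, w j0⟫ : ℝ) with h | h
  · refine ⟨1, fun j hj => ?_⟩
    rw [abs_of_nonneg h] at hlarge
    have := (abs_le.mp (hclose j hj)).1
    rw [one_mul, abs_of_nonneg (by linarith)]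
  · refine ⟨-1, fun j hj => ?_⟩
    rw [abs_of_nonpos h] at hlarge
    have := (abs_le.mp (hclose j hj)).2
    rw [abs_of_nonpos (by linarith)]
    ring

lemma weighted_sign {n M : ℕ} (w : Fin M → E n) (y : E n) (q : Fin M → ℝ) (S : Finset (Fin M))
    (hS : ∀ j, j ∉ S → q j = 0) (σ : ℝ) (hσ : ∀ j ∈ S, |⟪y, w j⟫| = σ * ⟪y, w j⟫) :
    ∑ j, q j * |⟪y, w j⟫| = σ * ⟪y, ∑ j, q j • w j⟫ := by
  rw [inner_sum, Finset.mul_sum]
  refine Finset.sum_congr rfl fun j _ => ?_
  rw [real_inner_smul_right]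
  by_cases hj : j ∈ S
  · rw [hσ j hj]; ring
  · rw [hS j hj]; ring

/-- from a finite family with few nonzero vectors to `Fin N` -/
lemma to_fin {n : ℕ} {J : Type} [Fintype J] (x : J → E n) (F : Finset J)
    (hF : ∀ j, j ∉ F → x j = 0) :
    ∃ x' : Fin F.card → E n, ∀ v : E n, ∑ j, |⟪v, x' j⟫| = ∑ j, |⟪v, x j⟫| := by
  refine ⟨fun i => x (F.equivFin.symm i), fun v => ?_⟩
  rw [Equiv.sum_comp F.equivFin.symm (fun j : F => |⟪v, x j⟫|)]
  rw [← Finset.sum_subset (Finset.subset_univ F)]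
  · exact Finset.sum_coe_sort F (fun j => |(⟪v, x j⟫ : ℝ)|)
  · intro j _ hj
    rw [hF j hj]; simp

theorem up_gen (hCell : StmCell) (hNet : StmNet) (hBar : StmBar) (hConc : StmConc) (hNS : StmNS)
    (hR2 : StmR2) :
    ∃ C : ℝ, 0 < C ∧ ∀ (n : ℕ) (ε δ m : ℝ), 1 ≤ n → 0 < ε → ε ≤ 1 / 2 → 0 < δ → δ ≤ 1 → ε ≤ δ →
      0 < m →
      2 * (2 * n * (12 / ε) ^ (n - 1)) * Real.exp (-((ε / 8) ^ 2 / (2 * (8 * C * n ^ 2 * m * δ ^ 3))))
        < 1 →
      ∃ (N : ℕ) (x : Fin N → E n),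
        (N : ℝ) ≤ (n + 1) * (C * n / m + 2 * (2 * n * (3 / δ) ^ (n - 1))) ∧
        ∀ v : E n, (1 - ε) * ‖v‖ ≤ ∑ j, |⟪v, x j⟫| ∧ ∑ j, |⟪v, x j⟫| ≤ (1 + ε) * ‖v‖ := by
  obtain ⟨C, hC, hR⟩ := hR2
  refine ⟨C, hC, ?_⟩
  intro n ε δ m hn hε hε1 hδ hδ1 hεδ hm hexp
  have hn0 : (0 : ℝ) < n := by exact_mod_cast hn
  obtain ⟨M, w, p, hw, hp, hmass, happ, hband⟩ := hR n (ε / 8) hn (by positivity) (by linarith)
  obtain ⟨K0, cell, hK0, hcell⟩ := hCell n M δ w hn hδ hδ1 hw
  obtain ⟨A, y, hA, hy, hnet⟩ := hNet n (ε / 4) hn (by positivity) (by linarith)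
  -- masses of the cells
  obtain ⟨P, hP⟩ : ∃ P : Fin K0 → ℝ, P = fun c => ∑ j ∈ Finset.univ.filter (fun j => cell j = c), p j :=
    ⟨_, rfl⟩
  have hP0 : ∀ c, 0 ≤ P c := fun c => by rw [hP]; exact Finset.sum_nonneg fun j _ => hp j
  obtain ⟨s, hs⟩ : ∃ s : Fin K0 → ℕ, s = fun c => ⌈P c / m⌉₊ + 1 := ⟨_, rfl⟩
  have hs0 : ∀ c, (0 : ℝ) < s c := fun c => by rw [hs]; positivity
  have hs1 : ∀ c, P c / s c ≤ m := by
    intro c
    rw [div_le_iff₀ (hs0 c)]
    have h1 : P c / m ≤ s c := by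
      rw [hs]; push_cast
      linarith [Nat.le_ceil (P c / m)]
    rwa [div_le_iff₀ hm, mul_comm] at h1
  have hs2 : ∀ c, (s c : ℝ) ≤ P c / m + 2 := by
    intro c
    rw [hs]; push_cast
    linarith [Nat.ceil_lt_add_one (div_nonneg (hP0 c) hm.le)]
  have hPsum : ∑ c, P c = ∑ j, p j := by
    rw [hP]
    exact Finset.sum_fiberwise Finset.univ cell p
  -- the pieces of the weight
  obtain ⟨pc, hpc⟩ : ∃ pc : Fin K0 → Fin M → ℝ,
    pc = fun c j => if cell j = c then p j / s c else 0 := ⟨_, rfl⟩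
  have hpc0 : ∀ c j, 0 ≤ pc c j := by
    intro c j
    rw [hpc]; simp only
    split_ifs
    · exact div_nonneg (hp j) (hs0 c).le
    · exact le_rfl
  have hpcS : ∀ c j, cell j ≠ c → pc c j = 0 := by
    intro c j h
    rw [hpc]; simp [h]
  have hpcsum : ∀ c, ∑ j, pc c j = P c / s c := by
    intro c
    rw [hpc, hP]
    simp only
    rw [Finset.sum_div, Finset.sum_filter]
  choose T lam q hlam hlam1 hq hq0 hqcard hqmass hqbar hqmix using
    fun c => hBar n M w (pc c) (hpc0 c)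
  have hqS : ∀ c t j, cell j ≠ c → q c t j = 0 := fun c t j h => hq0 c t j (hpcS c j h)
  -- the random sums
  obtain ⟨Y, hY⟩ : ∃ Y : Fin A → (i : (Σ c : Fin K0, Fin (s c))) → Fin (T i.1) → ℝ,
    Y = fun x i t => ∑ j, q i.1 t j * |⟪y x, w j⟫| - ∑ j, pc i.1 j * |⟪y x, w j⟫| := ⟨_, rfl⟩
  obtain ⟨cr, hcr⟩ : ∃ cr : Fin A → Fin K0 → Prop,
    cr = fun x c => ∀ j, cell j = c → |⟪y x, w j⟫| ≤ 2 * δ := ⟨_, rfl⟩
  classical
  obtain ⟨b, hb⟩ : ∃ b : Fin A → (Σ c : Fin K0, Fin (s c)) → ℝ,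
    b = fun x i => if cr x i.1 then 2 * δ * (P i.1 / s i.1) else 0 := ⟨_, rfl⟩
  have hconc := hConc (Σ c : Fin K0, Fin (s c)) A (fun i => T i.1) (fun i => lam i.1) Y b
    (8 * C * n ^ 2 * m * δ ^ 3) (ε / 8) (fun i t => hlam i.1 t) (fun i => hlam1 i.1)
    (by
      intro x i
      rw [hY]
      simp only
      have h1 : ∑ t, lam i.1 t * ∑ j, q i.1 t j * |⟪y x, w j⟫|
          = ∑ j, pc i.1 j * |⟪y x, w j⟫| := by
        simp only [Finset.mul_sum]
        rw [Finset.sum_comm]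
        refine Finset.sum_congr rfl fun j _ => ?_
        rw [← hqmix i.1 j, Finset.sum_mul]
        refine Finset.sum_congr rfl fun t _ => by ring
      simp only [mul_sub]
      rw [Finset.sum_sub_distrib, h1, ← Finset.sum_mul, hlam1, one_mul, sub_self])
    (by
      intro x i t
      rw [hY, hb]
      simp only
      obtain ⟨S, hSd⟩ : ∃ S : Finset (Fin M), S = Finset.univ.filter (fun j => cell j = i.1) :=
        ⟨_, rfl⟩
      have hSq : ∀ j, j ∉ S → q i.1 t j = 0 := by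
        intro j hj
        rw [hSd, Finset.mem_filter, not_and] at hj
        exact hqS i.1 t j (hj (Finset.mem_univ j))
      have hSp : ∀ j, j ∉ S → pc i.1 j = 0 := by
        intro j hj
        rw [hSd, Finset.mem_filter, not_and] at hj
        exact hpcS i.1 j (hj (Finset.mem_univ j))
      split_ifs with hc
      · rw [hcr] at hc
        have hB : ∀ j ∈ S, |(⟪y x, w j⟫ : ℝ)| ≤ 2 * δ := by
          intro j hj
          rw [hSd, Finset.mem_filter] at hj
          exact hc j hj.2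
        obtain ⟨h1, h2⟩ := abs_weighted w (y x) (q i.1 t) (2 * δ) S (hq i.1 t) hSq hB
        obtain ⟨h3, h4⟩ := abs_weighted w (y x) (pc i.1) (2 * δ) S (hpc0 i.1) hSp hB
        rw [hqmass, hpcsum] at h2
        rw [hpcsum] at h4
        rw [abs_le]
        constructor <;> linarith
      · rw [hcr] at hc
        simp only [not_forall, not_le] at hc
        obtain ⟨j0, hj0, hl⟩ := hc
        obtain ⟨σ, hσ⟩ := same_sign w (y x) (hy x) S (2 * δ) (by
          intro a ha b hb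
          rw [hSd, Finset.mem_filter] at ha hb
          exact hcell a b (ha.2.trans hb.2.symm)) j0 (by
          rw [hSd, Finset.mem_filter]; exact ⟨Finset.mem_univ _, hj0⟩) hl
        rw [weighted_sign w (y x) (q i.1 t) S hSq σ hσ, weighted_sign w (y x) (pc i.1) S hSp σ hσ,
          hqbar]
        simp)
    (by
      intro x
      rw [hb]
      simp only
      rw [Fintype.sum_sigma]
      simp only [Finset.sum_const, Finset.card_univ, Fintype.card_fin, nsmul_eq_mul]
      have h1 : ∀ c, (s c : ℝ) * (if cr x c then 2 * δ * (P c / s c) else 0) ^ 2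
          ≤ 4 * δ ^ 2 * m * ∑ j ∈ Finset.univ.filter (fun j => cell j = c),
              (if |(⟪y x, w j⟫ : ℝ)| ≤ 2 * δ then p j else 0) := by
        intro c
        split_ifs with hc
        · rw [hcr] at hc
          have e1 : ∑ j ∈ Finset.univ.filter (fun j => cell j = c),
              (if |(⟪y x, w j⟫ : ℝ)| ≤ 2 * δ then p j else 0) = P c := by
            rw [hP]
            refine Finset.sum_congr rfl fun j hj => ?_
            rw [Finset.mem_filter] at hj
            rw [if_pos (hc j hj.2)]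
          rw [e1]
          have e2 : (s c : ℝ) * (2 * δ * (P c / s c)) ^ 2 = 4 * δ ^ 2 * (P c / s c) * P c := by
            have := (hs0 c).ne'
            field_simp
            ring
          rw [e2]
          apply mul_le_mul_of_nonneg_right _ (hP0 c)
          exact mul_le_mul_of_nonneg_left (hs1 c) (by positivity)
        · have : 0 ≤ ∑ j ∈ Finset.univ.filter (fun j => cell j = c),
              (if |(⟪y x, w j⟫ : ℝ)| ≤ 2 * δ then p j else 0) := by
            refine Finset.sum_nonneg fun j _ => ?_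
            split_ifs
            · exact hp j
            · exact le_rfl
          have h0 : (0 : ℝ) ^ 2 = 0 := by norm_num
          rw [h0, mul_zero]
          positivity
      refine (Finset.sum_le_sum fun c _ => h1 c).trans ?_
      rw [← Finset.mul_sum, Finset.sum_fiberwise Finset.univ cell
        (fun j => if |(⟪y x, w j⟫ : ℝ)| ≤ 2 * δ then p j else 0), ← Finset.sum_filter]
      have h2 := hband (y x) (hy x) (2 * δ) (by linarith)
      calc _ ≤ 4 * δ ^ 2 * m * (C * (n : ℝ) ^ 2 * (2 * δ)) :=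
            mul_le_mul_of_nonneg_left h2 (by positivity)
        _ = _ := by ring)
    (by positivity) (by positivity)
    (by
      refine lt_of_le_of_lt ?_ hexp
      apply mul_le_mul_of_nonneg_right _ (Real.exp_pos _).le
      apply mul_le_mul_of_nonneg_left _ (by norm_num)
      have e1 : 3 / (ε / 4) = 12 / ε := by field_simp; norm_num
      rwa [e1] at hA)
  obtain ⟨τ, hτ⟩ := hconc
  -- the vectors
  obtain ⟨x, hx⟩ : ∃ x : (Σ c : Fin K0, Fin (s c)) × Fin M → E n,
    x = fun a => q a.1.1 (τ a.1) a.2 • w a.2 := ⟨_, rfl⟩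
  have hsum : ∀ v : E n, ∑ a, |⟪v, x a⟫| = ∑ i : (Σ c : Fin K0, Fin (s c)), ∑ j,
      q i.1 (τ i) j * |⟪v, w j⟫| := by
    intro v
    rw [Fintype.sum_prod_type]
    refine Finset.sum_congr rfl fun i _ => Finset.sum_congr rfl fun j _ => ?_
    rw [hx]
    simp only
    rw [real_inner_smul_right, abs_mul, abs_of_nonneg (hq _ _ _)]
  have hsum2 : ∀ v : E n, ∑ i : (Σ c : Fin K0, Fin (s c)), ∑ j, pc i.1 j * |⟪v, w j⟫|
      = ∑ j, p j * |⟪v, w j⟫| := by
    intro v
    rw [Finset.sum_comm]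
    refine Finset.sum_congr rfl fun j _ => ?_
    rw [← Finset.sum_mul]
    congr 1
    rw [Fintype.sum_sigma]
    simp only [Finset.sum_const, Finset.card_univ, Fintype.card_fin, nsmul_eq_mul]
    rw [hpc]
    simp only [mul_ite, mul_zero]
    rw [Finset.sum_ite_eq Finset.univ (cell j)]
    simp only [Finset.mem_univ, if_true]
    have := (hs0 (cell j)).ne'
    field_simp
  have hfin := hNS n A ((Σ c : Fin K0, Fin (s c)) × Fin M) ε x y hε hε1 hy hnet (by
    intro a
    have h1 := hτ a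
    have h2 := happ (y a)
    rw [hy a, mul_one] at h2
    rw [hY] at h1
    simp only at h1
    rw [Finset.sum_sub_distrib, hsum2] at h1
    rw [hsum (y a)]
    rw [abs_le] at h1 h2 ⊢
    constructor <;> linarith [h1.1, h1.2, h2.1, h2.2])
  -- the count
  obtain ⟨F, hF⟩ : ∃ F : Finset ((Σ c : Fin K0, Fin (s c)) × Fin M),
    F = Finset.univ.filter (fun a => q a.1.1 (τ a.1) a.2 ≠ 0) := ⟨_, rfl⟩
  obtain ⟨x', hx'⟩ := to_fin x F (by
    intro a ha
    rw [hF, Finset.mem_filter, not_and, not_not] at ha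
    rw [hx]
    simp only
    rw [ha (Finset.mem_univ a), zero_smul])
  have hcard : (F.card : ℝ) ≤ (n + 1) * (C * n / m + 2 * (2 * n * (3 / δ) ^ (n - 1))) := by
    have h1 : F.card ≤ ∑ _i : (Σ c : Fin K0, Fin (s c)), (n + 1) := by
      rw [hF, Finset.card_filter, Fintype.sum_prod_type]
      refine Finset.sum_le_sum fun i _ => ?_
      rw [← Finset.card_filter]
      exact hqcard i.1 (τ i)
    have h2 : (F.card : ℝ) ≤ (∑ c, (s c : ℝ)) * (n + 1) := by
      have h3 : ((∑ _i : (Σ c : Fin K0, Fin (s c)), (n + 1) : ℕ) : ℝ)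
          = (∑ c, (s c : ℝ)) * (n + 1) := by
        rw [Finset.sum_const, Finset.card_univ, Fintype.card_sigma, smul_eq_mul]
        push_cast
        simp
      rw [← h3]
      exact_mod_cast h1
    have h4 : ∑ c, (s c : ℝ) ≤ C * n / m + 2 * (2 * n * (3 / δ) ^ (n - 1)) := by
      calc ∑ c, (s c : ℝ) ≤ ∑ c, (P c / m + 2) := Finset.sum_le_sum fun c _ => hs2 c
        _ = (∑ j, p j) / m + 2 * K0 := by
            rw [Finset.sum_add_distrib, ← Finset.sum_div, hPsum]
            simp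
            ring
        _ ≤ _ := by
            have := div_le_div_of_nonneg_right hmass hm.le
            linarith
    calc (F.card : ℝ) ≤ (∑ c, (s c : ℝ)) * (n + 1) := h2
      _ ≤ (C * n / m + 2 * (2 * n * (3 / δ) ^ (n - 1))) * (n + 1) :=
          mul_le_mul_of_nonneg_right h4 (by positivity)
      _ = _ := by ring
  refine ⟨F.card, x', hcard, fun v => ?_⟩
  rw [hx' v]
  exact hfin v

end Pool.Agent.E8helper29.Zn
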